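import Pool.Agent.Lib.MP_542e45_an.Static

/-! A priori estimates for the resolvent equation. -/

open scoped ComplexConjugate

namespace Pool.Agent.Lib.MP_542e45_an

open Calc

variable {H1 : Type*} [NormedAddCommGroup H1] [InnerProductSpace ℂ H1]
  {H2 : Type*} [NormedAddCommGroup H2] [InnerProductSpace ℂ H2]

/-- Static data of the coupled system. -/
structure SD (C1 : Calc H1) (C2 : Calc H2) (P : Params) where
  R : HReg C1 P.ρ0 P.ρ1 P.α1 P.β1 P.κ P.γ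
  Q : Reg C2 P.ρ2 P.α2 P.β2 0
  wa : R.wa = 0
  wxa : R.wxa = 0
  va : R.va = 0
  pa : R.pa = 0
  za : R.za = 0
  Qwb : Q.wb = 0
  Qwxb : Q.wxb = 0
  Qvb : Q.vb = 0
  Qpb : Q.pb = 0
  Qzb : Q.zb = 0
  mw : Q.wa = R.wb
  mwx : Q.wxa = R.wxb
  mv : Q.va = R.vb
  mp : Q.pa = R.pb
  mz : Q.za = R.zb
  mS : Q.Sa = R.Sb
  mq : (P.β2 : ℂ) * Q.qa = P.β1 * R.qb

namespace SD

variable {C1 : Calc H1} {C2 : Calc H2} {P : Params}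

/-- the state as a vector of the energy space -/
noncomputable def X (s : SD C1 C2 P) : EE H1 H2 :=
  vec P ![s.R.v, s.R.p, s.R.q, s.R.θ] ![s.Q.v, s.Q.p, s.Q.q]

/-- its image under the generator -/
noncomputable def Y (s : SD C1 C2 P) : EE H1 H2 :=
  vec P ![s.R.z, s.R.z1, s.R.p1, s.R.η] ![s.Q.z, s.Q.z1, s.Q.p1]

lemma res_eq (s : SD C1 C2 P) (l : ℝ) : (Complex.I * l) • s.X - s.Y
    = vec P ![s.R.g0 l, s.R.g1 l, s.R.f2 l, s.R.h0 l] ![s.Q.g0 l, s.Q.g1 l, s.Q.f2 l] := by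
  rw [X, Y, vec_smul, vec_sub]
  congr 1
  · ext i; fin_cases i <;> rfl
  · ext i; fin_cases i <;> rfl

/-- norm of the residual -/
noncomputable def res (s : SD C1 C2 P) (l : ℝ) : ℝ := ‖(Complex.I * l) • s.X - s.Y‖

lemma X_sq (s : SD C1 C2 P) : ‖s.X‖ ^ 2 = P.ρ1 * ‖s.R.v‖ ^ 2 + P.α1 * ‖s.R.p‖ ^ 2
    + P.β1 * ‖s.R.q‖ ^ 2 + P.ρ0 * ‖s.R.θ‖ ^ 2 + P.ρ2 * ‖s.Q.v‖ ^ 2 + P.α2 * ‖s.Q.p‖ ^ 2
    + P.β2 * ‖s.Q.q‖ ^ 2 := by
  rw [X, norm_vec_sq, Fin.sum_univ_four, Fin.sum_univ_three]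
  simp only [w1, w2, Matrix.cons_val]
  ring

lemma res_sq (s : SD C1 C2 P) (l : ℝ) : s.res l ^ 2 = P.ρ1 * ‖s.R.g0 l‖ ^ 2
    + P.α1 * ‖s.R.g1 l‖ ^ 2
    + P.β1 * ‖s.R.f2 l‖ ^ 2 + P.ρ0 * ‖s.R.h0 l‖ ^ 2 + P.ρ2 * ‖s.Q.g0 l‖ ^ 2
    + P.α2 * ‖s.Q.g1 l‖ ^ 2 + P.β2 * ‖s.Q.f2 l‖ ^ 2 := by
  rw [res, res_eq, norm_vec_sq, Fin.sum_univ_four, Fin.sum_univ_three]
  simp only [w1, w2, Matrix.cons_val]
  ring

/-- total energy balance -/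
lemma re_inner_XY (s : SD C1 C2 P) : (inner ℂ s.X s.Y : ℂ).re = -(P.κ * ‖s.R.θ1‖ ^ 2) := by
  rw [X, Y, inner_vec, Fin.sum_univ_four, Fin.sum_univ_three]
  simp only [w1, w2, Matrix.cons_val, Complex.add_re, Complex.re_ofReal_mul]
  have h1 := s.R.energy_id'
  have h2 := s.Q.energy_id
  rw [s.va, s.pa] at h1
  rw [s.Qvb, s.Qpb, s.mv, s.mS, s.mp] at h2
  simp only [map_zero, zero_mul, sub_zero, zero_sub, Complex.neg_re] at h1 h2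
  have h3 : P.β2 * (conj s.R.pb * s.Q.qa).re = P.β1 * (conj s.R.pb * s.R.qb).re := by
    rw [← Complex.re_ofReal_mul, ← Complex.re_ofReal_mul]
    congr 1
    linear_combination (conj s.R.pb) * s.mq
  linear_combination h1 + h2 - h3

/-- `κ ‖θ_x‖² = Re ⟨X, (iλ - 𝒜) X⟩` -/
lemma dissip (s : SD C1 C2 P) (l : ℝ) :
    P.κ * ‖s.R.θ1‖ ^ 2 = (inner ℂ s.X ((Complex.I * l) • s.X - s.Y) : ℂ).re := by
  rw [inner_sub_right, inner_smul_right, inner_self_c, Complex.sub_re, s.re_inner_XY]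
  have : (Complex.I * (l : ℂ) * ((‖s.X‖ ^ 2 : ℝ) : ℂ)).re = 0 := by
    simp only [Complex.mul_re, Complex.mul_im, Complex.I_re, Complex.I_im, Complex.ofReal_re,
      Complex.ofReal_im]
    ring
  rw [this]
  ring

lemma dissip_le (s : SD C1 C2 P) (l : ℝ) : P.κ * ‖s.R.θ1‖ ^ 2 ≤ s.res l * ‖s.X‖ := by
  rw [s.dissip l, mul_comm (s.res l)]
  exact (Complex.re_le_norm _).trans (norm_inner_le_norm _ _)

end SD

end Pool.Agent.Lib.MP_542e45_an
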