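import Mathlib

/-! An abstract integration-by-parts calculus for `H¹` functions on a bounded interval. -/

open scoped ComplexConjugate

namespace Pool.Agent.Lib.MP_542e45_an

/-- Abstract calculus of an interval of length `len`: `H` plays the role of `L²(a,b)`,
`D f f' fa fb` says that `f ∈ H¹(a,b)` with derivative `f'` and boundary values `fa`, `fb`,
`A` is multiplication by `x - a`. -/
structure Calc (H : Type*) [NormedAddCommGroup H] [InnerProductSpace ℂ H] where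
  len : ℝ
  len_pos : 0 < len
  D : H → H → ℂ → ℂ → Prop
  A : H →ₗ[ℂ] H
  one : H
  D_one : D one 0 1 1
  D_add : ∀ {f f' g g' : H} {fa fb ga gb : ℂ}, D f f' fa fb → D g g' ga gb →
    D (f + g) (f' + g') (fa + ga) (fb + gb)
  D_smul : ∀ {f f' : H} {fa fb : ℂ} (c : ℂ), D f f' fa fb → D (c • f) (c • f') (c * fa) (c * fb)
  ibp : ∀ {f f' g g' : H} {fa fb ga gb : ℂ}, D f f' fa fb → D g g' ga gb →
    inner ℂ g f' + inner ℂ g' f = conj gb * fb - conj ga * fa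
  D_A : ∀ {f f' : H} {fa fb : ℂ}, D f f' fa fb → D (A f) (f + A f') 0 (len * fb)
  A_symm : ∀ f g : H, inner ℂ (A f) g = inner ℂ f (A g)
  A_norm : ∀ f : H, ‖A f‖ ≤ len * ‖f‖
  B_norm : ∀ f : H, ‖A f - (len : ℂ) • f‖ ≤ len * ‖f‖
  prim : ∀ f : H, ∃ F : H, ∃ Fb : ℂ, D F f 0 Fb
  uniq : ∀ {f : H} {fa fb : ℂ}, D f 0 fa fb → f = fa • one

namespace Calc

variable {H : Type*} [NormedAddCommGroup H] [InnerProductSpace ℂ H] (C : Calc H)

lemma D_sub {f f' g g' : H} {fa fb ga gb : ℂ} (hf : C.D f f' fa fb) (hg : C.D g g' ga gb) :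
    C.D (f - g) (f' - g') (fa - ga) (fb - gb) := by
  have h := C.D_add hf (C.D_smul (-1) hg)
  simpa [sub_eq_add_neg] using h

lemma ibp_one {f f' : H} {fa fb : ℂ} (hf : C.D f f' fa fb) : inner ℂ C.one f' = fb - fa := by
  have := C.ibp hf C.D_one
  simpa using this

lemma one_one : inner ℂ C.one C.one = (C.len : ℂ) := by
  have h := C.D_A C.D_one
  have := C.ibp_one h
  simpa using this

lemma inner_self_c (f : H) : (inner ℂ f f : ℂ) = ((‖f‖ ^ 2 : ℝ) : ℂ) := by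
  rw [inner_self_eq_norm_sq_to_K]; norm_cast

lemma re_symm (f g : H) : (inner ℂ f g : ℂ).re = (inner ℂ g f : ℂ).re := by
  rw [← inner_conj_symm, Complex.conj_re]

lemma norm_one_sq : ‖C.one‖ ^ 2 = C.len := by
  have h := C.one_one
  rw [inner_self_c] at h
  exact Complex.ofReal_injective h

/-- `2 Re ⟨f, f'⟩ = |f(b)|² - |f(a)|²` -/
lemma re_inner_self {f f' : H} {fa fb : ℂ} (hf : C.D f f' fa fb) :
    2 * (inner ℂ f f' : ℂ).re = ‖fb‖ ^ 2 - ‖fa‖ ^ 2 := by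
  have h := C.ibp hf hf
  have h1 : (inner ℂ f' f : ℂ).re = (inner ℂ f f' : ℂ).re := re_symm _ _
  have h2 := congrArg Complex.re h
  rw [Complex.add_re, h1] at h2
  have h3 : (conj fb * fb - conj fa * fa : ℂ).re = ‖fb‖ ^ 2 - ‖fa‖ ^ 2 := by
    rw [Complex.conj_mul', Complex.conj_mul']
    norm_cast
  rw [h3] at h2
  linarith

/-- `‖f‖² + 2 Re ⟨f, (x-a) f'⟩ = (b-a) |f(b)|²` -/
lemma re_inner_A {f f' : H} {fa fb : ℂ} (hf : C.D f f' fa fb) :
    ‖f‖ ^ 2 + 2 * (inner ℂ f (C.A f') : ℂ).re = C.len * ‖fb‖ ^ 2 := by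
  have h := C.ibp (C.D_A hf) hf
  have h1 : (inner ℂ f' (C.A f) : ℂ).re = (inner ℂ f (C.A f') : ℂ).re := by
    rw [← C.A_symm]; exact re_symm _ _
  have h2 := congrArg Complex.re h
  rw [inner_add_right, Complex.add_re, Complex.add_re, h1] at h2
  have h3 : (inner ℂ f f : ℂ).re = ‖f‖ ^ 2 := by
    rw [inner_self_c, Complex.ofReal_re]
  have h4 : (conj fb * (C.len * fb) - conj fa * 0 : ℂ).re = C.len * ‖fb‖ ^ 2 := by
    have : conj fb * ((C.len : ℂ) * fb) = ((C.len * ‖fb‖ ^ 2 : ℝ) : ℂ) := by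
      rw [mul_left_comm, Complex.conj_mul']; push_cast; ring
    rw [mul_zero, sub_zero, this, Complex.ofReal_re]
  rw [h3, h4] at h2
  linarith

/-- `‖f‖² + 2 Re ⟨f, (x-b) f'⟩ = (b-a) |f(a)|²` -/
lemma re_inner_B {f f' : H} {fa fb : ℂ} (hf : C.D f f' fa fb) :
    ‖f‖ ^ 2 + 2 * (inner ℂ f (C.A f' - (C.len : ℂ) • f') : ℂ).re = C.len * ‖fa‖ ^ 2 := by
  have h1 := C.re_inner_A hf
  have h2 := C.re_inner_self hf
  have h3 : (inner ℂ f ((C.len : ℂ) • f') : ℂ).re = C.len * (inner ℂ f f' : ℂ).re := by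
    rw [inner_smul_right, Complex.re_ofReal_mul]
  rw [inner_sub_right, Complex.sub_re, h3]
  linear_combination h1 - C.len * h2

lemma abs_re_inner_le (f g : H) : |(inner ℂ f g : ℂ).re| ≤ ‖f‖ * ‖g‖ :=
  (Complex.abs_re_le_norm _).trans (norm_inner_le_norm _ _)

lemma re_inner_le (f g : H) : (inner ℂ f g : ℂ).re ≤ ‖f‖ * ‖g‖ :=
  (le_abs_self _).trans (abs_re_inner_le f g)

lemma neg_re_inner_le (f g : H) : -(inner ℂ f g : ℂ).re ≤ ‖f‖ * ‖g‖ :=
  (neg_le_abs _).trans (abs_re_inner_le f g)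

lemma trace_b {f f' : H} {fa fb : ℂ} (hf : C.D f f' fa fb) :
    C.len * ‖fb‖ ^ 2 ≤ ‖f‖ ^ 2 + 2 * C.len * (‖f‖ * ‖f'‖) := by
  have h := C.re_inner_A hf
  have h1 := re_inner_le f (C.A f')
  have h2 := mul_le_mul_of_nonneg_left (C.A_norm f') (norm_nonneg f)
  nlinarith

lemma trace_a {f f' : H} {fa fb : ℂ} (hf : C.D f f' fa fb) :
    C.len * ‖fa‖ ^ 2 ≤ ‖f‖ ^ 2 + 2 * C.len * (‖f‖ * ‖f'‖) := by
  have h := C.re_inner_B hf
  have h1 := re_inner_le f (C.A f' - (C.len : ℂ) • f')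
  have h2 := mul_le_mul_of_nonneg_left (C.B_norm f') (norm_nonneg f)
  nlinarith

lemma poincare_a {f f' : H} {fb : ℂ} (hf : C.D f f' 0 fb) : ‖f‖ ≤ 2 * C.len * ‖f'‖ := by
  have h := C.re_inner_B hf
  have h1 := neg_re_inner_le f (C.A f' - (C.len : ℂ) • f')
  have h2 := mul_le_mul_of_nonneg_left (C.B_norm f') (norm_nonneg f)
  simp only [norm_zero] at h
  by_cases h0 : ‖f‖ = 0
  · rw [h0]; have := C.len_pos; positivity
  · have hpos : 0 < ‖f‖ := lt_of_le_of_ne (norm_nonneg _) (Ne.symm h0)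
    have : ‖f‖ * ‖f‖ ≤ ‖f‖ * (2 * C.len * ‖f'‖) := by nlinarith
    exact le_of_mul_le_mul_left this hpos

lemma poincare_b {f f' : H} {fa : ℂ} (hf : C.D f f' fa 0) : ‖f‖ ≤ 2 * C.len * ‖f'‖ := by
  have h := C.re_inner_A hf
  have h1 := neg_re_inner_le f (C.A f')
  have h2 := mul_le_mul_of_nonneg_left (C.A_norm f') (norm_nonneg f)
  simp only [norm_zero] at h
  by_cases h0 : ‖f‖ = 0
  · rw [h0]; have := C.len_pos; positivity
  · have hpos : 0 < ‖f‖ := lt_of_le_of_ne (norm_nonneg _) (Ne.symm h0)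
    have : ‖f‖ * ‖f‖ ≤ ‖f‖ * (2 * C.len * ‖f'‖) := by nlinarith
    exact le_of_mul_le_mul_left this hpos

lemma sq_b {f f' : H} {fb : ℂ} (hf : C.D f f' 0 fb) : ‖fb‖ ^ 2 ≤ 2 * (‖f‖ * ‖f'‖) := by
  have h := C.re_inner_self hf
  have h1 := re_inner_le f f'
  simp only [norm_zero] at h
  nlinarith

lemma norm_b {f f' : H} {fb : ℂ} (hf : C.D f f' 0 fb) : ‖fb‖ ^ 2 ≤ 4 * C.len * ‖f'‖ ^ 2 := by
  have h := C.sq_b hf
  have h1 := mul_le_mul_of_nonneg_right (C.poincare_a hf) (norm_nonneg f')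
  nlinarith

end Calc

end Pool.Agent.Lib.MP_542e45_an
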