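import Pool.Agent.Lib.MP_542e45_an.H1
import Pool.Agent.Lib.MP_542e45_an.Calc

/-! The concrete calculus on `L²(a,b)`. -/

open MeasureTheory Filter Topology

namespace Pool.Agent.Lib.MP_542e45_an

open Set
open scoped ComplexConjugate

/-- `L²(a,b)` -/
abbrev L2 (a b : ℝ) : Type := Lp ℂ 2 (volume.restrict (Ioc a b))

/-- `f ∈ H¹(a,b)` with derivative `f'` and boundary values `fa`, `fb` -/
def DL (a b : ℝ) (f f' : L2 a b) (fa fb : ℂ) : Prop :=
  ∃ F F' : ℝ → ℂ, IsH1 a b F F' ∧ f =ᵐ[volume.restrict (Ioc a b)] F ∧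
    f' =ᵐ[volume.restrict (Ioc a b)] F' ∧ F a = fa ∧ F b = fb

lemma inner_L2 {a b : ℝ} (f g : L2 a b) :
    inner ℂ f g = ∫ x in Ioc a b, conj (f x) * g x := by
  rw [MeasureTheory.L2.inner_def]
  refine integral_congr_ae (Eventually.of_forall fun x => ?_)
  simp only [RCLike.inner_apply]
  ring

lemma memLp_mul {a b c : ℝ} (f : L2 a b) :
    MemLp (fun x => ((x - c : ℝ) : ℂ) * f x) 2 (volume.restrict (Ioc a b)) := by
  refine MemLp.of_le_mul (c := |a| + |b| + |c|) (Lp.memLp f) ?_ ?_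
  · refine AEStronglyMeasurable.mul ?_ (Lp.aestronglyMeasurable f)
    exact (by fun_prop : Continuous fun x : ℝ => ((x - c : ℝ) : ℂ)).aestronglyMeasurable
  · filter_upwards [ae_restrict_mem measurableSet_Ioc] with x hx
    rw [norm_mul, Complex.norm_real, Real.norm_eq_abs]
    gcongr
    rw [abs_le]
    have h1 := neg_abs_le a; have h2 := le_abs_self b
    have h3 := neg_abs_le c; have h4 := le_abs_self c
    have h5 := abs_nonneg a; have h6 := abs_nonneg b
    constructor <;> linarith [hx.1, hx.2]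

/-- multiplication by `x - a` -/
noncomputable def mulA (a b : ℝ) : L2 a b →ₗ[ℂ] L2 a b where
  toFun f := (memLp_mul (c := a) f).toLp _
  map_add' f g := by
    apply Lp.ext
    filter_upwards [(memLp_mul (c := a) (f + g)).coeFn_toLp, (memLp_mul (c := a) f).coeFn_toLp,
      (memLp_mul (c := a) g).coeFn_toLp, Lp.coeFn_add f g,
      Lp.coeFn_add ((memLp_mul (c := a) f).toLp _) ((memLp_mul (c := a) g).toLp _)]
      with x h1 h2 h3 h4 h5
    rw [h1, h5, Pi.add_apply, h2, h3, h4, Pi.add_apply]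
    ring
  map_smul' r f := by
    apply Lp.ext
    filter_upwards [(memLp_mul (c := a) (r • f)).coeFn_toLp, (memLp_mul (c := a) f).coeFn_toLp,
      Lp.coeFn_smul r f, Lp.coeFn_smul r ((memLp_mul (c := a) f).toLp _)] with x h1 h2 h3 h4
    simp only [RingHom.id_apply]
    rw [h1, h4, Pi.smul_apply, h2, h3, Pi.smul_apply, smul_eq_mul, smul_eq_mul]
    ring

lemma coeFn_mulA {a b : ℝ} (f : L2 a b) :
    mulA a b f =ᵐ[volume.restrict (Ioc a b)] fun x => ((x - a : ℝ) : ℂ) * f x :=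
  (memLp_mul (c := a) f).coeFn_toLp

lemma memLp_one (a b : ℝ) : MemLp (fun _ : ℝ => (1 : ℂ)) 2 (volume.restrict (Ioc a b)) :=
  memLp_const 1

lemma isH1_one (a b : ℝ) : IsH1 a b (fun _ => 1) (fun _ => 0) :=
  ⟨MemLp.zero, fun x _ => by simp⟩

lemma IsH1.add {a b : ℝ} (hab : a ≤ b) {f f' g g' : ℝ → ℂ} (hf : IsH1 a b f f')
    (hg : IsH1 a b g g') : IsH1 a b (f + g) (f' + g') := by
  refine ⟨hf.1.add hg.1, fun x hx => ?_⟩
  have h1 : ∀ z ∈ Icc a b, IntervalIntegrable f' volume a z := fun z hz =>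
    (hf.intervalIntegrable hab).mono_set
      (by rw [uIcc_of_le hz.1, uIcc_of_le hab]; exact Icc_subset_Icc_right hz.2)
  have h2 : ∀ z ∈ Icc a b, IntervalIntegrable g' volume a z := fun z hz =>
    (hg.intervalIntegrable hab).mono_set
      (by rw [uIcc_of_le hz.1, uIcc_of_le hab]; exact Icc_subset_Icc_right hz.2)
  simp only [Pi.add_apply]
  rw [intervalIntegral.integral_add (h1 x hx) (h2 x hx), hf.2 x hx, hg.2 x hx]
  ring

lemma IsH1.smul {a b : ℝ} {f f' : ℝ → ℂ} (c : ℂ) (hf : IsH1 a b f f') :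
    IsH1 a b (c • f) (c • f') := by
  refine ⟨hf.1.const_smul c, fun x hx => ?_⟩
  simp only [Pi.smul_apply]
  rw [intervalIntegral.integral_smul, hf.2 x hx, smul_add]

lemma isH1_id_sub (a b : ℝ) : IsH1 a b (fun x => ((x - a : ℝ) : ℂ)) (fun _ => 1) :=
  ⟨memLp_one a b, fun x _ => by simp⟩

lemma IsH1.mulA {a b : ℝ} (hab : a ≤ b) {f f' : ℝ → ℂ} (hf : IsH1 a b f f') :
    IsH1 a b (fun x => ((x - a : ℝ) : ℂ) * f x) (fun x => f x + ((x - a : ℝ) : ℂ) * f' x) := by
  refine ⟨?_, fun x hx => ?_⟩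
  · refine (hf.memLp hab).add ?_
    have := memLp_mul (c := a) (hf.1.toLp f')
    refine this.ae_eq ?_
    filter_upwards [hf.1.coeFn_toLp] with x hx
    rw [hx]
  · have := (isH1_id_sub a b).prod hab hf x hx
    simpa using this

lemma isH1_prim {a b : ℝ} {f : ℝ → ℂ} (hf : MemLp f 2 (volume.restrict (Ioc a b))) :
    IsH1 a b (fun x => ∫ t in a..x, f t) f :=
  ⟨hf, fun x _ => by simp⟩

lemma integral_conj_mul_ibp {a b : ℝ} (hab : a ≤ b) {f f' g g' : ℝ → ℂ} (hf : IsH1 a b f f')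
    (hg : IsH1 a b g g') :
    (∫ x in Ioc a b, conj (g x) * f' x) + (∫ x in Ioc a b, conj (g' x) * f x)
      = conj (g b) * f b - conj (g a) * f a := by
  have h := hg.conj.prod hab hf b (right_mem_Icc.2 hab)
  have hfc := hf.continuousOn hab
  have hgc := hg.continuousOn hab
  have i1 : IntervalIntegrable (fun t => conj (g' t) * f t) volume a b :=
    (hg.conj.intervalIntegrable hab).mul_continuousOn (by rwa [uIcc_of_le hab])
  have i2 : IntervalIntegrable (fun t => conj (g t) * f' t) volume a b :=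
    (hf.intervalIntegrable hab).continuousOn_mul
      (by rw [uIcc_of_le hab]; exact Complex.continuous_conj.comp_continuousOn hgc)
  rw [intervalIntegral.integral_add i1 i2, intervalIntegral.integral_of_le hab,
    intervalIntegral.integral_of_le hab] at h
  rw [h]
  ring

/-- the concrete calculus -/
noncomputable def calcL2 (a b : ℝ) (hab : a < b) : Calc (L2 a b) where
  len := b - a
  len_pos := sub_pos.2 hab
  D := DL a b
  A := mulA a b
  one := (memLp_one a b).toLp _
  D_one := ⟨_, _, isH1_one a b, (memLp_one a b).coeFn_toLp, Lp.coeFn_zero _ _ _, rfl, rfl⟩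
  D_add := by
    rintro f f' g g' fa fb ga gb ⟨F, F', hF, e1, e2, rfl, rfl⟩ ⟨G, G', hG, e3, e4, rfl, rfl⟩
    refine ⟨F + G, F' + G', hF.add hab.le hG, ?_, ?_, rfl, rfl⟩
    · filter_upwards [Lp.coeFn_add f g, e1, e3] with x h1 h2 h3
      rw [h1, Pi.add_apply, Pi.add_apply, h2, h3]
    · filter_upwards [Lp.coeFn_add f' g', e2, e4] with x h1 h2 h3
      rw [h1, Pi.add_apply, Pi.add_apply, h2, h3]
  D_smul := by
    rintro f f' fa fb c ⟨F, F', hF, e1, e2, rfl, rfl⟩
    refine ⟨c • F, c • F', hF.smul c, ?_, ?_, rfl, rfl⟩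
    · filter_upwards [Lp.coeFn_smul c f, e1] with x h1 h2
      rw [h1, Pi.smul_apply, Pi.smul_apply, h2]
    · filter_upwards [Lp.coeFn_smul c f', e2] with x h1 h2
      rw [h1, Pi.smul_apply, Pi.smul_apply, h2]
  ibp := by
    rintro f f' g g' fa fb ga gb ⟨F, F', hF, e1, e2, rfl, rfl⟩ ⟨G, G', hG, e3, e4, rfl, rfl⟩
    rw [← integral_conj_mul_ibp hab.le hF hG, inner_L2, inner_L2]
    congr 1
    · refine integral_congr_ae ?_
      filter_upwards [e3, e2] with x h1 h2
      rw [h1, h2]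
    · refine integral_congr_ae ?_
      filter_upwards [e4, e1] with x h1 h2
      rw [h1, h2]
  D_A := by
    rintro f f' fa fb ⟨F, F', hF, e1, e2, rfl, rfl⟩
    refine ⟨_, _, hF.mulA hab.le, ?_, ?_, ?_, ?_⟩
    · filter_upwards [coeFn_mulA f, e1] with x h1 h2
      rw [h1, h2]
    · filter_upwards [Lp.coeFn_add f (mulA a b f'), coeFn_mulA f', e1, e2] with x h1 h2 h3 h4
      rw [h1, Pi.add_apply, h2, h3, h4]
    · simp
    · simp
  A_symm := by
    intro f g
    rw [inner_L2, inner_L2]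
    refine integral_congr_ae ?_
    filter_upwards [coeFn_mulA f, coeFn_mulA g] with x h1 h2
    rw [h1, h2, map_mul, Complex.conj_ofReal]
    ring
  A_norm := by
    intro f
    refine Lp.norm_le_mul_norm_of_ae_le_mul ?_
    filter_upwards [coeFn_mulA f, ae_restrict_mem measurableSet_Ioc] with x h1 hx
    rw [h1, norm_mul, Complex.norm_real, Real.norm_eq_abs, abs_of_nonneg (by linarith [hx.1])]
    gcongr
    exact hx.2
  B_norm := by
    intro f
    refine Lp.norm_le_mul_norm_of_ae_le_mul ?_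
    filter_upwards [coeFn_mulA f, ae_restrict_mem measurableSet_Ioc,
      Lp.coeFn_sub (mulA a b f) (((b - a : ℝ) : ℂ) • f), Lp.coeFn_smul ((b - a : ℝ) : ℂ) f]
      with x h1 hx h2 h3
    rw [h2, Pi.sub_apply, h1, h3, Pi.smul_apply, smul_eq_mul, ← sub_mul, norm_mul,
      ← Complex.ofReal_sub, Complex.norm_real, Real.norm_eq_abs]
    gcongr
    rw [abs_le]
    constructor <;> linarith [hx.1, hx.2]
  prim := by
    intro f
    have h := isH1_prim (Lp.memLp f)
    refine ⟨(h.memLp hab.le).toLp _, _, ⟨_, _, h, (h.memLp hab.le).coeFn_toLp, ae_eq_refl _,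
      by simp, rfl⟩⟩
  uniq := by
    rintro f fa fb ⟨F, F', hF, e1, e2, rfl, rfl⟩
    apply Lp.ext
    have h0 : F' =ᵐ[volume.restrict (Ioc a b)] fun _ => (0 : ℂ) :=
      e2.symm.trans (Lp.coeFn_zero _ _ _)
    filter_upwards [e1, ae_restrict_mem measurableSet_Ioc, (memLp_one a b).coeFn_toLp,
      Lp.coeFn_smul (F a) ((memLp_one a b).toLp (fun _ => (1 : ℂ)))] with x h1 hx h2 h3
    rw [h1, h3, Pi.smul_apply, h2, smul_eq_mul, mul_one, hF.2 x (Ioc_subset_Icc_self hx),
      intervalIntegral.integral_of_le hx.1.le]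
    have : ∫ t in Ioc a x, F' t = ∫ t in Ioc a x, (0 : ℂ) := by
      refine integral_congr_ae ?_
      exact ae_restrict_of_ae_restrict_of_subset (Ioc_subset_Ioc_right hx.2) h0
    rw [this]
    simp

end Pool.Agent.Lib.MP_542e45_an
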