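import Mathlib

/-! A discrete version of the Gearhart-Pruss argument for dissipative linear relations: if the
resolvent estimate holds along the imaginary axis, then every C1 trajectory decays exponentially. -/

open Finset ZMod
open scoped ComplexConjugate

namespace Pool.Agent.Lib.MP_542e45_an

variable {E : Type*} [NormedAddCommGroup E] [InnerProductSpace ℂ E]

lemma dft_parseval {N : ℕ} [NeZero N] (a : ZMod N → E) :
    ∑ k : ZMod N, ‖𝓕 a k‖ ^ 2 = (N : ℝ) * ∑ j : ZMod N, ‖a j‖ ^ 2 := by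
  have key : ∑ k : ZMod N, inner ℂ (𝓕 a k) (𝓕 a k) = (N : ℂ) * ∑ j : ZMod N, inner ℂ (a j) (a j) := by
    have h1 : ∀ k : ZMod N, inner ℂ (𝓕 a k) (𝓕 a k)
        = ∑ j : ZMod N, stdAddChar (j * k) * inner ℂ (a j) (𝓕 a k) := by
      intro k
      conv_lhs => rw [dft_apply a k]
      rw [sum_inner]
      refine Finset.sum_congr rfl fun j _ => ?_
      rw [inner_smul_left, ← dft_apply a k]
      congr 1
      rw [AddChar.map_neg_eq_conj]
      simp
    calc ∑ k : ZMod N, inner ℂ (𝓕 a k) (𝓕 a k)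
        = ∑ k : ZMod N, ∑ j : ZMod N, stdAddChar (j * k) * inner ℂ (a j) (𝓕 a k) :=
          Finset.sum_congr rfl fun k _ => h1 k
      _ = ∑ j : ZMod N, ∑ k : ZMod N, stdAddChar (j * k) * inner ℂ (a j) (𝓕 a k) := Finset.sum_comm
      _ = ∑ j : ZMod N, inner ℂ (a j) (𝓕 (𝓕 a) (-j)) := by
          refine Finset.sum_congr rfl fun j _ => ?_
          rw [dft_apply (𝓕 a) (-j), inner_sum]
          refine Finset.sum_congr rfl fun k _ => ?_
          rw [inner_smul_right]
          congr 2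
          ring
      _ = (N : ℂ) * ∑ j : ZMod N, inner ℂ (a j) (a j) := by
          rw [Finset.mul_sum]
          refine Finset.sum_congr rfl fun j _ => ?_
          rw [dft_dft]
          simp
  have h2 : ∀ x : E, (inner ℂ x x : ℂ) = ((‖x‖ ^ 2 : ℝ) : ℂ) := by
    intro x
    rw [inner_self_eq_norm_sq_to_K]
    norm_cast
  simp only [h2] at key
  exact_mod_cast key

lemma dft_shift {N : ℕ} [NeZero N] (a : ZMod N → E) (k : ZMod N) :
    𝓕 (fun j => a (j - 1)) k = stdAddChar (-k) • 𝓕 a k := by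
  rw [dft_apply, dft_apply, Finset.smul_sum]
  rw [← Equiv.sum_comp (Equiv.addRight (1 : ZMod N))]
  refine Finset.sum_congr rfl fun j _ => ?_
  simp only [Equiv.coe_addRight, add_sub_cancel_right, smul_smul]
  congr 1
  rw [← AddChar.map_add_eq_mul]
  congr 1
  ring


/-- a dissipative linear relation -/
lemma resolvent_right (G : Submodule ℂ (E × E))
    (hdiss : ∀ z ∈ G, (inner ℂ z.2 z.1 : ℂ).re ≤ 0)
    {M : ℝ} (hM : 0 < M)
    (hres : ∀ z ∈ G, ∀ l : ℝ, ‖z.1‖ ≤ M * ‖(Complex.I * l) • z.1 - z.2‖)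
    (z : E × E) (hz : z ∈ G) (w : ℂ) (hw : 0 ≤ w.re) :
    ‖z.1‖ ≤ 2 * M * ‖w • z.1 - z.2‖ := by
  obtain ⟨x, y⟩ := z
  simp only at *
  set F := w • x - y with hF
  have h1 : w.re * ‖x‖ ≤ ‖F‖ := by
    have hd := hdiss _ hz
    simp only at hd
    have e1 : (inner ℂ F x : ℂ).re = w.re * ‖x‖ ^ 2 - (inner ℂ y x : ℂ).re := by
      have e0 : (inner ℂ x x : ℂ) = ((‖x‖ ^ 2 : ℝ) : ℂ) := by
        rw [inner_self_eq_norm_sq_to_K]; norm_cast
      rw [hF, inner_sub_left, inner_smul_left, e0]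
      simp only [Complex.sub_re, Complex.mul_re, Complex.conj_re, Complex.ofReal_re,
        Complex.ofReal_im, mul_zero, sub_zero]
    have e2 : (inner ℂ F x : ℂ).re ≤ ‖F‖ * ‖x‖ :=
      (Complex.re_le_norm _).trans (norm_inner_le_norm _ _)
    by_cases hx : ‖x‖ = 0
    · rw [hx]; simp
    · have hx' : 0 < ‖x‖ := lt_of_le_of_ne (norm_nonneg _) (Ne.symm hx)
      have : w.re * ‖x‖ * ‖x‖ ≤ ‖F‖ * ‖x‖ := by nlinarith
      exact le_of_mul_le_mul_right this hx'
  have h2 := hres _ hz w.im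
  simp only at h2
  have h3 : (Complex.I * (w.im : ℂ)) • x - y = F - (w.re : ℂ) • x := by
    have : w = (w.re : ℂ) + Complex.I * (w.im : ℂ) := by
      rw [mul_comm]; exact (Complex.re_add_im w).symm
    rw [hF]
    conv_rhs => rw [this]
    simp only [Complex.add_re, Complex.ofReal_re, Complex.mul_re, Complex.I_re, zero_mul,
      Complex.I_im, Complex.ofReal_im, mul_zero, sub_zero, add_zero]
    rw [add_smul]
    abel
  rw [h3] at h2
  have h4 : ‖F - (w.re : ℂ) • x‖ ≤ ‖F‖ + w.re * ‖x‖ := by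
    refine (norm_sub_le _ _).trans ?_
    rw [norm_smul]
    simp [abs_of_nonneg hw]
  have h5 : ‖x‖ ≤ M * (‖F‖ + w.re * ‖x‖) := h2.trans (by gcongr)
  rcases le_or_gt (1 / (2 * M)) w.re with h | h
  · have : 1 / (2 * M) * ‖x‖ ≤ ‖F‖ := le_trans (by gcongr) h1
    rw [div_mul_eq_mul_div, one_mul, div_le_iff₀ (by positivity)] at this
    linarith
  · have h6 : M * (w.re * ‖x‖) ≤ 1 / 2 * ‖x‖ := by
      have : M * w.re ≤ 1 / 2 := by
        have := mul_le_mul_of_nonneg_left h.le hM.le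
        calc M * w.re ≤ M * (1 / (2 * M)) := this
          _ = 1 / 2 := by field_simp
      nlinarith [norm_nonneg x]
    nlinarith [norm_nonneg x]

lemma norm_antitone {x x' : ℝ → E}
    (hx : ∀ t, 0 ≤ t → HasDerivWithinAt x (x' t) (Set.Ici 0) t)
    (hd : ∀ t, 0 ≤ t → (inner ℂ (x' t) (x t) : ℂ).re ≤ 0) :
    AntitoneOn (fun t => ‖x t‖) (Set.Ici 0) := by
  let _ : InnerProductSpace ℝ E := InnerProductSpace.complexToReal
  have hsq : AntitoneOn (fun t => ‖x t‖ ^ 2) (Set.Ici 0) := by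
    apply antitoneOn_of_hasDerivWithinAt_nonpos (convex_Ici 0) (f' := fun t => 2 * inner ℝ (x t) (x' t))
    · intro t ht
      exact (((hx t ht).continuousWithinAt).norm.pow 2)
    · intro t ht
      rw [interior_Ici] at ht
      have := (hx t (le_of_lt ht)).norm_sq
      rw [interior_Ici]
      exact this.mono Set.Ioi_subset_Ici_self
    · intro t ht
      rw [interior_Ici] at ht
      have := hd t (le_of_lt ht)
      have e : inner ℝ (x t) (x' t) = (inner ℂ (x' t) (x t) : ℂ).re := by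
        rw [real_inner_comm]; rfl
      rw [e]; linarith
  intro s hs t ht hst
  have := hsq hs ht hst
  simp only at this
  exact le_of_sq_le_sq this (norm_nonneg _) 

lemma discrete_ineq (G : Submodule ℂ (E × E))
    (hdiss : ∀ z ∈ G, (inner ℂ z.2 z.1 : ℂ).re ≤ 0)
    {M : ℝ} (hM : 0 < M)
    (hres : ∀ z ∈ G, ∀ l : ℝ, ‖z.1‖ ≤ M * ‖(Complex.I * l) • z.1 - z.2‖)
    {N : ℕ} [NeZero N] (a b : ZMod N → E) (hab : ∀ j, (a j, b j) ∈ G) {Δ : ℝ} (hΔ : 0 < Δ) :
    ∑ j : ZMod N, ‖a j‖ ^ 2 ≤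
      (2 * M) ^ 2 * ∑ j : ZMod N, ‖((1 / Δ : ℝ) : ℂ) • (a j - a (j - 1)) - b j‖ ^ 2 := by
  set c : ZMod N → E := fun j => ((1 / Δ : ℝ) : ℂ) • (a j - a (j - 1)) - b j with hc
  have hk : ∀ k : ZMod N, ‖𝓕 a k‖ ^ 2 ≤ (2 * M) ^ 2 * ‖𝓕 c k‖ ^ 2 := by
    intro k
    have hG : (𝓕 a k, 𝓕 b k) ∈ G := by
      have : (𝓕 a k, 𝓕 b k) = ∑ j : ZMod N, stdAddChar (-(j * k)) • ((a j, b j) : E × E) := by
        rw [dft_apply, dft_apply]
        ext
        · simp [Prod.fst_sum]
        · simp [Prod.snd_sum]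
      rw [this]
      exact Submodule.sum_mem _ fun j _ => Submodule.smul_mem _ _ (hab j)
    set w : ℂ := ((1 / Δ : ℝ) : ℂ) * (1 - stdAddChar (-k)) with hw
    have hwre : 0 ≤ w.re := by
      rw [hw, Complex.re_ofReal_mul]
      apply mul_nonneg (by positivity)
      rw [Complex.sub_re, Complex.one_re, sub_nonneg]
      calc (stdAddChar (-k) : ℂ).re ≤ ‖(stdAddChar (-k) : ℂ)‖ := Complex.re_le_norm _
        _ = 1 := AddChar.norm_apply _ _
    have h1 := resolvent_right G hdiss hM hres _ hG w hwre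
    simp only at h1
    have h2 : w • 𝓕 a k - 𝓕 b k = 𝓕 c k := by
      have e1 : c = fun j => ((1 / Δ : ℝ) : ℂ) • (a j - (fun i => a (i - 1)) j) - b j := rfl
      have e2 : 𝓕 c k = ((1 / Δ : ℝ) : ℂ) • (𝓕 a k - 𝓕 (fun i => a (i - 1)) k) - 𝓕 b k := by
        rw [e1]
        simp only [dft_apply, smul_sub, Finset.sum_sub_distrib, Finset.smul_sum]
        simp only [smul_smul]
        congr 2
        · refine Finset.sum_congr rfl fun j _ => by rw [mul_comm]
        · refine Finset.sum_congr rfl fun j _ => by rw [mul_comm]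
      rw [e2, dft_shift, hw, mul_smul, sub_smul, one_smul]
    rw [h2] at h1
    have h3 := norm_nonneg (𝓕 a k)
    calc ‖𝓕 a k‖ ^ 2 ≤ (2 * M * ‖𝓕 c k‖) ^ 2 := by gcongr
      _ = _ := by ring
  have hsum : ∑ k : ZMod N, ‖𝓕 a k‖ ^ 2 ≤ (2 * M) ^ 2 * ∑ k : ZMod N, ‖𝓕 c k‖ ^ 2 := by
    rw [Finset.mul_sum]
    exact Finset.sum_le_sum fun k _ => hk k
  rw [dft_parseval, dft_parseval] at hsum
  have hN : (0 : ℝ) < N := by exact_mod_cast Nat.pos_of_ne_zero (NeZero.ne N)
  have : (N : ℝ) * ∑ j : ZMod N, ‖a j‖ ^ 2 ≤ N * ((2 * M) ^ 2 * ∑ j : ZMod N, ‖c j‖ ^ 2) := by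
    linarith
  exact le_of_mul_le_mul_left this hN

lemma uniform_diff_quot {x x' : ℝ → E}
    (hx : ∀ t, 0 ≤ t → HasDerivWithinAt x (x' t) (Set.Ici 0) t)
    (hc : ContinuousOn x' (Set.Ici 0)) (T : ℝ) {ε : ℝ} (hε : 0 < ε) :
    ∃ δ > 0, ∀ s t, 0 ≤ s → s ≤ t → t ≤ T → t - s < δ →
      ‖x t - x s - ((t - s : ℝ) : ℂ) • x' t‖ ≤ ε * (t - s) := by
  have huc : UniformContinuousOn x' (Set.Icc 0 T) :=
    isCompact_Icc.uniformContinuousOn_of_continuous (hc.mono Set.Icc_subset_Ici_self)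
  rw [Metric.uniformContinuousOn_iff] at huc
  obtain ⟨δ, hδ, h⟩ := huc ε hε
  refine ⟨δ, hδ, fun s t hs hst htT hlt => ?_⟩
  have hd : ∀ r ∈ Set.Icc s t, HasDerivWithinAt (fun r => x r - (r : ℂ) • x' t) (x' r - x' t)
      (Set.Icc s t) r := by
    intro r hr
    have h0 : 0 ≤ r := hs.trans hr.1
    have h1 : HasDerivWithinAt x (x' r) (Set.Icc s t) r :=
      (hx r h0).mono (fun y hy => Set.mem_Ici.2 (hs.trans hy.1))
    have h2 : HasDerivAt (fun r : ℝ => (r : ℂ) • x' t) (x' t) r := by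
      have := (Complex.ofRealCLM.hasDerivAt (x := r)).smul_const (x' t)
      simpa using this
    exact h1.sub h2.hasDerivWithinAt
  have hb : ∀ r ∈ Set.Icc s t, ‖x' r - x' t‖ ≤ ε := by
    intro r hr
    have := h r ⟨hs.trans hr.1, hr.2.trans htT⟩ t ⟨hs.trans hst, htT⟩ (by
      rw [Real.dist_eq, abs_lt]; constructor <;> linarith [hr.1, hr.2])
    rw [dist_eq_norm] at this
    exact this.le
  have := (convex_Icc s t).norm_image_sub_le_of_norm_hasDerivWithin_le hd hb
    (Set.left_mem_Icc.2 hst) (Set.right_mem_Icc.2 hst)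
  rw [Real.norm_of_nonneg (by linarith : (0:ℝ) ≤ t - s)] at this
  convert this using 2
  push_cast
  rw [sub_smul]
  abel

lemma half_decay (G : Submodule ℂ (E × E))
    (hdiss : ∀ z ∈ G, (inner ℂ z.2 z.1 : ℂ).re ≤ 0)
    {M : ℝ} (hM : 0 < M)
    (hres : ∀ z ∈ G, ∀ l : ℝ, ‖z.1‖ ≤ M * ‖(Complex.I * l) • z.1 - z.2‖)
    {x x' : ℝ → E}
    (hx : ∀ t, 0 ≤ t → HasDerivWithinAt x (x' t) (Set.Ici 0) t)
    (hc : ContinuousOn x' (Set.Ici 0)) (hG : ∀ t, 0 ≤ t → (x t, x' t) ∈ G) :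
    ‖x (24 * M)‖ ≤ 1 / 2 * ‖x 0‖ := by
  set T : ℝ := 24 * M with hT
  have hTpos : 0 < T := by positivity
  have hanti := norm_antitone hx (fun t ht => hdiss _ (hG t ht))
  have key : ∀ ε > 0, ‖x T‖ ≤ 6 * M * (ε + 2 / T * ‖x 0‖) := by
    intro ε hε
    obtain ⟨δ, hδ, hq⟩ := uniform_diff_quot hx hc T hε
    obtain ⟨m, hm⟩ := exists_nat_gt (T / (4 * δ))
    have hm0 : 0 < m := by
      have : (0 : ℝ) < m := lt_trans (by positivity) hm
      exact_mod_cast this
    set N : ℕ := 4 * m with hN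
    have hN0 : 0 < N := by omega
    have : NeZero N := ⟨hN0.ne'⟩
    have hNr : (0 : ℝ) < N := by exact_mod_cast hN0
    set Δ : ℝ := T / N with hΔ
    have hΔpos : 0 < Δ := by positivity
    have hΔδ : Δ < δ := by
      rw [hΔ, div_lt_iff₀ hNr, hN]
      push_cast
      rw [div_lt_iff₀ (by positivity)] at hm
      linarith
    set f : ℕ → ℝ := fun i => (min i (N - i) : ℕ) * (2 / N) with hf
    have hf0 : ∀ i, 0 ≤ f i := fun i => by positivity
    have hf1 : ∀ i, i ≤ N → f i ≤ 1 := by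
      intro i hi
      have h2 : 2 * (min i (N - i)) ≤ N := by omega
      have h3 : (2 : ℝ) * (min i (N - i) : ℕ) ≤ N := by exact_mod_cast h2
      rw [hf]
      simp only
      rw [mul_div_assoc', div_le_one hNr]
      linarith
    have hfd : ∀ i, 1 ≤ i → i ≤ N → |f i - f (i - 1)| ≤ 2 / N := by
      intro i hi hiN
      have h1 : |((min i (N - i) : ℕ) : ℝ) - (min (i - 1) (N - (i - 1)) : ℕ)| ≤ 1 := by
        rw [abs_le]
        have h2 : min i (N - i) ≤ min (i - 1) (N - (i - 1)) + 1 := by omega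
        have h3 : min (i - 1) (N - (i - 1)) ≤ min i (N - i) + 1 := by omega
        have h2' : ((min i (N - i) : ℕ) : ℝ) ≤ (min (i - 1) (N - (i - 1)) : ℕ) + 1 := by
          exact_mod_cast h2
        have h3' : ((min (i - 1) (N - (i - 1)) : ℕ) : ℝ) ≤ (min i (N - i) : ℕ) + 1 := by
          exact_mod_cast h3
        constructor <;> linarith
      rw [hf]
      simp only
      rw [← sub_mul, abs_mul, abs_of_pos (by positivity : (0:ℝ) < 2 / N)]
      calc _ ≤ 1 * (2 / (N : ℝ)) := by gcongr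
        _ = _ := one_mul _
    set c' : ℕ → E := fun i => ((1 / Δ : ℝ) : ℂ) • ((f i : ℂ) • x (i * Δ)
      - (f (i - 1) : ℂ) • x ((i - 1 : ℕ) * Δ)) - (f i : ℂ) • x' (i * Δ) with hc'
    have hc'b : ∀ i, 1 ≤ i → i ≤ N → ‖c' i‖ ≤ ε + 2 / T * ‖x 0‖ := by
      intro i hi hiN
      have hi' : ((i - 1 : ℕ) : ℝ) = (i : ℝ) - 1 := by
        rw [Nat.cast_sub hi]; simp
      have h1 := hq (((i - 1 : ℕ) : ℝ) * Δ) (i * Δ) (by positivity)
        (by rw [hi']; nlinarith) (by
          rw [hΔ, mul_div_assoc', div_le_iff₀ hNr]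
          have : (i : ℝ) ≤ N := by exact_mod_cast hiN
          nlinarith) (by rw [hi']; linarith)
      have hd : (i : ℝ) * Δ - ((i - 1 : ℕ) : ℝ) * Δ = Δ := by rw [hi']; ring
      rw [hd] at h1
      have e : c' i = (f i : ℂ) • (((1 / Δ : ℝ) : ℂ) • (x (i * Δ) - x ((i - 1 : ℕ) * Δ)
            - (Δ : ℂ) • x' (i * Δ)))
          + (((f i - f (i - 1)) / Δ : ℝ) : ℂ) • x ((i - 1 : ℕ) * Δ) := by
        rw [hc']
        simp only [smul_sub, smul_smul]
        have e3 : (f i : ℂ) * (((1 / Δ : ℝ) : ℂ) * (Δ : ℂ)) = (f i : ℂ) := by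
          rw [← Complex.ofReal_mul, one_div_mul_cancel hΔpos.ne']; simp
        rw [e3]
        have e4 : (((f i - f (i - 1)) / Δ : ℝ) : ℂ)
            = (f i : ℂ) * ((1 / Δ : ℝ) : ℂ) - ((1 / Δ : ℝ) : ℂ) * (f (i - 1) : ℂ) := by
          push_cast; ring
        rw [e4, sub_smul]
        have e5 : ((1 / Δ : ℝ) : ℂ) * (f i : ℂ) = (f i : ℂ) * ((1 / Δ : ℝ) : ℂ) := mul_comm _ _
        rw [e5]
        abel
      rw [e]
      refine (norm_add_le _ _).trans ?_
      apply add_le_add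
      · rw [norm_smul, norm_smul]
        have n1 : ‖(f i : ℂ)‖ ≤ 1 := by
          rw [Complex.norm_real, Real.norm_of_nonneg (hf0 i)]; exact hf1 i hiN
        have n2 : ‖((1 / Δ : ℝ) : ℂ)‖ = 1 / Δ := by
          rw [Complex.norm_real, Real.norm_of_nonneg (by positivity)]
        rw [n2]
        calc _ ≤ 1 * (1 / Δ * (ε * Δ)) := by gcongr
          _ = ε := by field_simp
      · rw [norm_smul, Complex.norm_real, Real.norm_eq_abs, abs_div, abs_of_pos hΔpos]
        have n3 : ‖x ((i - 1 : ℕ) * Δ)‖ ≤ ‖x 0‖ :=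
          hanti (Set.mem_Ici.2 le_rfl) (Set.mem_Ici.2 (by positivity)) (by positivity)
        calc _ ≤ (2 / N) / Δ * ‖x 0‖ := by gcongr; exact hfd i hi hiN
          _ = _ := by rw [hΔ]; field_simp
    set a : ZMod N → E := fun j => (f j.val : ℂ) • x (j.val * Δ) with ha
    set b : ZMod N → E := fun j => (f j.val : ℂ) • x' (j.val * Δ) with hb
    have hab : ∀ j, (a j, b j) ∈ G := by
      intro j
      have : (a j, b j) = (f j.val : ℂ) • ((x (j.val * Δ), x' (j.val * Δ)) : E × E) := by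
        rw [ha, hb]; rfl
      rw [this]
      exact G.smul_mem _ (hG _ (by positivity))
    have hD := discrete_ineq G hdiss hM hres a b hab hΔpos
    have hcj : ∀ j : ZMod N, ‖((1 / Δ : ℝ) : ℂ) • (a j - a (j - 1)) - b j‖ ≤ ε + 2 / T * ‖x 0‖ := by
      intro j
      by_cases hj : j = 0
      · have hv : ((0 : ZMod N) - 1).val = N - 1 := by
          have : ((0 : ZMod N) - 1) = ((N - 1 : ℕ) : ZMod N) := by
            rw [Nat.cast_sub (by omega)]; simp
          rw [this, ZMod.val_natCast, Nat.mod_eq_of_lt (by omega)]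
        have hfN : f N = 0 := by rw [hf]; simp
        have hf00 : f 0 = 0 := by rw [hf]; simp
        have : ((1 / Δ : ℝ) : ℂ) • (a j - a (j - 1)) - b j = c' N := by
          rw [hj, ha, hb, hc']
          simp only [hv, ZMod.val_zero, hfN, hf00]
          simp
        rw [this]
        exact hc'b N (by omega) le_rfl
      · have hjv : 1 ≤ j.val := by
          have : j.val ≠ 0 := by rwa [Ne, ZMod.val_eq_zero]
          omega
        have hjN : j.val < N := ZMod.val_lt j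
        have hv : (j - 1).val = j.val - 1 := by
          have : j - 1 = ((j.val - 1 : ℕ) : ZMod N) := by
            rw [Nat.cast_sub hjv]; simp
          rw [this, ZMod.val_natCast, Nat.mod_eq_of_lt (by omega)]
        have : ((1 / Δ : ℝ) : ℂ) • (a j - a (j - 1)) - b j = c' j.val := by
          rw [ha, hb, hc']
          simp only [hv]
        rw [this]
        exact hc'b _ hjv hjN.le
    have hup : ∑ j : ZMod N, ‖((1 / Δ : ℝ) : ℂ) • (a j - a (j - 1)) - b j‖ ^ 2
        ≤ N * (ε + 2 / T * ‖x 0‖) ^ 2 := by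
      calc _ ≤ ∑ j : ZMod N, (ε + 2 / T * ‖x 0‖) ^ 2 := by
            apply Finset.sum_le_sum; intro j _
            have := hcj j
            gcongr
        _ = _ := by rw [Finset.sum_const, Finset.card_univ, ZMod.card, nsmul_eq_mul]
    have hlow : (N : ℝ) / 8 * ‖x T‖ ^ 2 ≤ ∑ j : ZMod N, ‖a j‖ ^ 2 := by
      have hinj : Function.Injective (fun i : Fin (2 * m) => (((i : ℕ) + m : ℕ) : ZMod N)) := by
        intro i i' h
        simp only at h
        have := congrArg ZMod.val h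
        rw [ZMod.val_natCast, ZMod.val_natCast, Nat.mod_eq_of_lt (by omega),
          Nat.mod_eq_of_lt (by omega)] at this
        exact Fin.ext (by omega)
      calc (N : ℝ) / 8 * ‖x T‖ ^ 2 = ∑ i : Fin (2 * m), (1 / 4 * ‖x T‖ ^ 2) := by
            rw [Finset.sum_const, Finset.card_univ, Fintype.card_fin, nsmul_eq_mul, hN]
            push_cast; ring
        _ ≤ ∑ i : Fin (2 * m), ‖a (((i : ℕ) + m : ℕ) : ZMod N)‖ ^ 2 := by
            apply Finset.sum_le_sum
            intro i _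
            have hv : ((((i : ℕ) + m : ℕ) : ZMod N)).val = i + m := by
              rw [ZMod.val_natCast, Nat.mod_eq_of_lt (by omega)]
            have hfi : 1 / 2 ≤ f (i + m) := by
              have h2 : m ≤ (min ((i : ℕ) + m) (N - (i + m))) := by omega
              have h3 : (m : ℝ) ≤ (min ((i : ℕ) + m) (N - (i + m)) : ℕ) := by exact_mod_cast h2
              rw [hf]
              simp only
              calc (1 : ℝ) / 2 = m * (2 / N) := by
                    rw [hN]; push_cast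
                    have : (m : ℝ) ≠ 0 := by exact_mod_cast hm0.ne'
                    field_simp; norm_num
                _ ≤ _ := by gcongr
            rw [ha]
            simp only [hv]
            rw [norm_smul, Complex.norm_real, Real.norm_of_nonneg (hf0 _)]
            have hle : ‖x T‖ ≤ ‖x (((i : ℕ) + m : ℕ) * Δ)‖ := by
              apply hanti (Set.mem_Ici.2 (by positivity)) (Set.mem_Ici.2 hTpos.le)
              rw [hΔ, mul_div_assoc', div_le_iff₀ hNr]
              have : (((i : ℕ) + m : ℕ) : ℝ) ≤ N := by exact_mod_cast (by omega : (i : ℕ) + m ≤ N)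
              nlinarith
            calc (1 : ℝ) / 4 * ‖x T‖ ^ 2 = (1 / 2 * ‖x T‖) ^ 2 := by ring
              _ ≤ _ := by gcongr
        _ ≤ ∑ j : ZMod N, ‖a j‖ ^ 2 := by
            rw [← Finset.sum_image (f := fun j : ZMod N => ‖a j‖ ^ 2)
              (g := fun i : Fin (2 * m) => (((i : ℕ) + m : ℕ) : ZMod N)) (fun i _ i' _ h => hinj h)]
            exact Finset.sum_le_sum_of_subset_of_nonneg (Finset.subset_univ _)
              (fun _ _ _ => by positivity)
    have hfin : ‖x T‖ ^ 2 ≤ (6 * M * (ε + 2 / T * ‖x 0‖)) ^ 2 := by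
      have h1 : (N : ℝ) / 8 * ‖x T‖ ^ 2 ≤ (2 * M) ^ 2 * (N * (ε + 2 / T * ‖x 0‖) ^ 2) :=
        hlow.trans (hD.trans (by gcongr))
      have h2 : ‖x T‖ ^ 2 ≤ 32 * M ^ 2 * (ε + 2 / T * ‖x 0‖) ^ 2 := by
        have h3 : (N : ℝ) * ‖x T‖ ^ 2 ≤ N * (32 * M ^ 2 * (ε + 2 / T * ‖x 0‖) ^ 2) := by
          nlinarith
        exact le_of_mul_le_mul_left h3 hNr
      have h4 : 0 ≤ M ^ 2 * (ε + 2 / T * ‖x 0‖) ^ 2 := by positivity
      nlinarith
    exact le_of_sq_le_sq hfin (by positivity)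
  have hlim : ‖x T‖ ≤ 6 * M * (0 + 2 / T * ‖x 0‖) := by
    apply le_of_forall_pos_le_add
    intro η hη
    have := key (η / (6 * M)) (by positivity)
    calc ‖x T‖ ≤ _ := this
      _ = _ := by field_simp; ring
  calc ‖x T‖ ≤ 6 * M * (0 + 2 / T * ‖x 0‖) := hlim
    _ = 1 / 2 * ‖x 0‖ := by rw [hT]; field_simp; ring

/-- exponential decay -/
theorem exp_decay (G : Submodule ℂ (E × E))
    (hdiss : ∀ z ∈ G, (inner ℂ z.2 z.1 : ℂ).re ≤ 0)
    {M : ℝ} (hM : 0 < M)
    (hres : ∀ z ∈ G, ∀ l : ℝ, ‖z.1‖ ≤ M * ‖(Complex.I * l) • z.1 - z.2‖)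
    {x x' : ℝ → E}
    (hx : ∀ t, 0 ≤ t → HasDerivWithinAt x (x' t) (Set.Ici 0) t)
    (hc : ContinuousOn x' (Set.Ici 0)) (hG : ∀ t, 0 ≤ t → (x t, x' t) ∈ G)
    (t : ℝ) (ht : 0 ≤ t) :
    ‖x t‖ ≤ 2 * Real.exp (-(Real.log 2 / (24 * M)) * t) * ‖x 0‖ := by
  have hanti := norm_antitone hx (fun t ht => hdiss _ (hG t ht))
  set T : ℝ := 24 * M with hT
  have hTpos : 0 < T := by positivity
  have hiter : ∀ n : ℕ, ‖x (n * T)‖ ≤ (1 / 2) ^ n * ‖x 0‖ := by
    intro n
    induction n with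
    | zero => simp
    | succ n ih =>
      have hs : 0 ≤ (n : ℝ) * T := by positivity
      have hx1 : ∀ s, 0 ≤ s → HasDerivWithinAt (fun s => x (n * T + s)) (x' (n * T + s)) (Set.Ici 0) s := by
        intro s hs0
        have h1 := hx (n * T + s) (by positivity)
        have h2 : HasDerivWithinAt (fun s : ℝ => (n : ℝ) * T + s) 1 (Set.Ici 0) s :=
          ((hasDerivAt_id s).const_add _).hasDerivWithinAt
        have := h1.scomp s h2 (fun y hy => Set.mem_Ici.2 (by
          have := Set.mem_Ici.1 hy; positivity))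
        rw [one_smul] at this
        exact this
      have hc1 : ContinuousOn (fun s => x' (n * T + s)) (Set.Ici 0) := by
        apply hc.comp (by fun_prop)
        intro y hy
        have := Set.mem_Ici.1 hy
        exact Set.mem_Ici.2 (by positivity)
      have := half_decay G hdiss hM hres hx1 hc1 (fun s hs0 => hG _ (by positivity))
      rw [add_zero, ← hT] at this
      calc ‖x ((n + 1 : ℕ) * T)‖ = ‖x (n * T + T)‖ := by push_cast; ring_nf
        _ ≤ 1 / 2 * ‖x (n * T)‖ := this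
        _ ≤ 1 / 2 * ((1 / 2) ^ n * ‖x 0‖) := by gcongr
        _ = _ := by ring
  set n : ℕ := ⌊t / T⌋₊ with hn
  have h1 : (n : ℝ) * T ≤ t := by
    have := Nat.floor_le (by positivity : 0 ≤ t / T)
    rwa [← hn, le_div_iff₀ hTpos] at this
  have h2 : t < (n + 1 : ℝ) * T := by
    have := Nat.lt_floor_add_one (t / T)
    rwa [← hn, div_lt_iff₀ hTpos] at this
  have h3 : ‖x t‖ ≤ ‖x (n * T)‖ := hanti (Set.mem_Ici.2 (by positivity)) (Set.mem_Ici.2 ht) h1
  have h4 : ((1 : ℝ) / 2) ^ n ≤ 2 * Real.exp (-(Real.log 2 / T) * t) := by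
    have e1 : ((1 : ℝ) / 2) ^ n = 2 * Real.exp (-(Real.log 2) * (n + 1)) := by
      have : Real.exp (-(Real.log 2) * (n + 1)) = (1 / 2) ^ (n + 1) := by
        rw [← Real.exp_log (show (0:ℝ) < (1 / 2) ^ (n + 1) by positivity), Real.log_pow,
          one_div, Real.log_inv]
        push_cast; ring_nf
      rw [this, pow_succ]; ring
    rw [e1]
    have hlog : 0 < Real.log 2 := Real.log_pos (by norm_num)
    have : -(Real.log 2) * (n + 1) ≤ -(Real.log 2 / T) * t := by
      have : Real.log 2 / T * t ≤ Real.log 2 * (n + 1) := by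
        rw [div_mul_eq_mul_div, div_le_iff₀ hTpos]
        nlinarith
      linarith
    gcongr
  calc ‖x t‖ ≤ _ := h3
    _ ≤ (1 / 2) ^ n * ‖x 0‖ := hiter n
    _ ≤ _ := by gcongr

end Pool.Agent.Lib.MP_542e45_an
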