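import Pool.Agent.Lib.MP_542e45_an.Linear
import Pool.Agent.Lib.MP_542e45_an.Conc
import Pool.Agent.Lib.MP_542e45_an.GP

/-! From the concrete system to the abstract one. -/

open MeasureTheory Filter Topology

namespace Pool.Agent.Lib.MP_542e45_an

open Set
open scoped ComplexConjugate

open Classical in
/-- class in `L²(a,b)` of a function (zero if it is not square integrable) -/
noncomputable def lift (a b : ℝ) (f : ℝ → ℂ) : L2 a b :=
  if h : MemLp f 2 (volume.restrict (Ioc a b)) then h.toLp f else 0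

lemma lift_of {a b : ℝ} {f : ℝ → ℂ} (h : MemLp f 2 (volume.restrict (Ioc a b))) :
    lift a b f = h.toLp f := dif_pos h

lemma coeFn_lift {a b : ℝ} {f : ℝ → ℂ} (h : MemLp f 2 (volume.restrict (Ioc a b))) :
    lift a b f =ᵐ[volume.restrict (Ioc a b)] f := by
  rw [lift_of h]; exact h.coeFn_toLp

lemma lift_sub {a b : ℝ} {f g : ℝ → ℂ} (hf : MemLp f 2 (volume.restrict (Ioc a b)))
    (hg : MemLp g 2 (volume.restrict (Ioc a b))) :
    lift a b (f - g) = lift a b f - lift a b g := by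
  rw [lift_of hf, lift_of hg, lift_of (hf.sub hg)]; rfl

lemma lift_add {a b : ℝ} {f g : ℝ → ℂ} (hf : MemLp f 2 (volume.restrict (Ioc a b)))
    (hg : MemLp g 2 (volume.restrict (Ioc a b))) :
    lift a b (fun x => f x + g x) = lift a b f + lift a b g := by
  rw [lift_of hf, lift_of hg]
  exact lift_of (hf.add hg)

lemma lift_smul {a b : ℝ} {f : ℝ → ℂ} (c : ℂ) (hf : MemLp f 2 (volume.restrict (Ioc a b))) :
    lift a b (c • f) = c • lift a b f := by
  rw [lift_of hf, lift_of (hf.const_smul c)]; rfl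

lemma lift_congr {a b : ℝ} {f g : ℝ → ℂ} (h : f =ᵐ[volume.restrict (Ioc a b)] g) :
    lift a b f = lift a b g := by
  by_cases hf : MemLp f 2 (volume.restrict (Ioc a b))
  · have hg := hf.ae_eq h
    rw [lift_of hf, lift_of hg]
    exact (MemLp.toLp_eq_toLp_iff hf hg).2 h
  · have hg : ¬ MemLp g 2 (volume.restrict (Ioc a b)) := fun hg => hf (hg.ae_eq h.symm)
    rw [lift, lift, dif_neg hf, dif_neg hg]

lemma norm_lift_sq {a b : ℝ} (hab : a ≤ b) {f : ℝ → ℂ}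
    (h : MemLp f 2 (volume.restrict (Ioc a b))) :
    ‖lift a b f‖ ^ 2 = ∫ x in a..b, ‖f x‖ ^ 2 := by
  have h1 : ((‖lift a b f‖ ^ 2 : ℝ) : ℂ) = ((∫ x in a..b, ‖f x‖ ^ 2 : ℝ) : ℂ) := by
    rw [← Calc.inner_self_c, inner_L2, intervalIntegral.integral_of_le hab, ← integral_complex_ofReal]
    refine integral_congr_ae ?_
    filter_upwards [coeFn_lift h] with x hx
    rw [hx, Complex.conj_mul']
    push_cast; rfl
  exact_mod_cast h1

lemma intervalIntegrable_sq {a b : ℝ} (hab : a ≤ b) {f : ℝ → ℂ}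
    (h : MemLp f 2 (volume.restrict (Ioc a b))) :
    IntervalIntegrable (fun x => ‖f x‖ ^ 2) volume a b := by
  rw [intervalIntegrable_iff_integrableOn_Ioc_of_le hab]
  exact (memLp_two_iff_integrable_sq_norm h.1).1 h

/-- the seven components entering the energy are square integrable -/
structure InL2 (P : Params) (Φ : Fields) : Prop where
  v : MemLp Φ.v 2 (volume.restrict (Ioc 0 P.L0))
  vx : MemLp Φ.vx 2 (volume.restrict (Ioc 0 P.L0))
  uxx : MemLp Φ.uxx 2 (volume.restrict (Ioc 0 P.L0))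
  θ : MemLp Φ.θ 2 (volume.restrict (Ioc 0 P.L0))
  z : MemLp Φ.z 2 (volume.restrict (Ioc P.L0 P.L))
  zx : MemLp Φ.zx 2 (volume.restrict (Ioc P.L0 P.L))
  yxx : MemLp Φ.yxx 2 (volume.restrict (Ioc P.L0 P.L))

lemma InH.inL2 {P : Params} {Φ : Fields} (h : InH P Φ) : InL2 P Φ where
  v := h.v_vx.memLp P.L0_pos.le
  vx := h.v_vx.1
  uxx := h.ux_uxx.1
  θ := h.θ_L2
  z := h.z_zx.memLp P.L0_lt_L.le
  zx := h.z_zx.1
  yxx := h.yx_yxx.1

lemma InL2.sub {P : Params} {Φ Ψ : Fields} (h : InL2 P Φ) (h' : InL2 P Ψ) : InL2 P (Φ - Ψ) :=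
  ⟨h.v.sub h'.v, h.vx.sub h'.vx, h.uxx.sub h'.uxx, h.θ.sub h'.θ, h.z.sub h'.z, h.zx.sub h'.zx,
    h.yxx.sub h'.yxx⟩

lemma InL2.smul {P : Params} {Φ : Fields} (c : ℝ) (h : InL2 P Φ) : InL2 P (c • Φ) :=
  ⟨h.v.const_smul c, h.vx.const_smul c, h.uxx.const_smul c, h.θ.const_smul c, h.z.const_smul c,
    h.zx.const_smul c, h.yxx.const_smul c⟩

/-- the state as a vector in the Hilbert space -/
noncomputable def emb (P : Params) (Φ : Fields) : EE (L2 0 P.L0) (L2 P.L0 P.L) :=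
  vec P ![lift 0 P.L0 Φ.v, lift 0 P.L0 Φ.vx, lift 0 P.L0 Φ.uxx, lift 0 P.L0 Φ.θ]
    ![lift P.L0 P.L Φ.z, lift P.L0 P.L Φ.zx, lift P.L0 P.L Φ.yxx]

lemma energy_eq {P : Params} {Φ : Fields} (h : InL2 P Φ) : energy P Φ = 1 / 2 * ‖emb P Φ‖ ^ 2 := by
  have h1 := P.L0_pos.le
  have h2 := P.L0_lt_L.le
  rw [emb, norm_vec_sq, Fin.sum_univ_four, Fin.sum_univ_three]
  simp only [w1, w2, Matrix.cons_val]
  rw [norm_lift_sq h1 h.v, norm_lift_sq h1 h.vx, norm_lift_sq h1 h.uxx, norm_lift_sq h1 h.θ,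
    norm_lift_sq h2 h.z, norm_lift_sq h2 h.zx, norm_lift_sq h2 h.yxx]
  have i1 := (intervalIntegrable_sq h1 h.v).const_mul P.ρ1
  have i2 := (intervalIntegrable_sq h1 h.vx).const_mul P.α1
  have i3 := (intervalIntegrable_sq h1 h.uxx).const_mul P.β1
  have i4 := (intervalIntegrable_sq h1 h.θ).const_mul P.ρ0
  have i5 := (intervalIntegrable_sq h2 h.z).const_mul P.ρ2
  have i6 := (intervalIntegrable_sq h2 h.zx).const_mul P.α2
  have i7 := (intervalIntegrable_sq h2 h.yxx).const_mul P.β2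
  unfold energy
  rw [intervalIntegral.integral_add ((i1.add i2).add i3) i4,
    intervalIntegral.integral_add (i1.add i2) i3, intervalIntegral.integral_add i1 i2,
    intervalIntegral.integral_add (i5.add i6) i7, intervalIntegral.integral_add i5 i6]
  simp only [intervalIntegral.integral_const_mul]
  ring

lemma emb_sub {P : Params} {Φ Ψ : Fields} (h : InL2 P Φ) (h' : InL2 P Ψ) :
    emb P (Φ - Ψ) = emb P Φ - emb P Ψ := by
  rw [emb, emb, emb, vec_sub]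
  congr 1
  · ext i : 1
    fin_cases i
    · exact lift_sub h.v h'.v
    · exact lift_sub h.vx h'.vx
    · exact lift_sub h.uxx h'.uxx
    · exact lift_sub h.θ h'.θ
  · ext i : 1
    fin_cases i
    · exact lift_sub h.z h'.z
    · exact lift_sub h.zx h'.zx
    · exact lift_sub h.yxx h'.yxx

lemma lift_rsmul {a b : ℝ} {f : ℝ → ℂ} (c : ℝ) (hf : MemLp f 2 (volume.restrict (Ioc a b))) :
    lift a b (c • f) = (c : ℂ) • lift a b f := by
  rw [← lift_smul (c : ℂ) hf]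
  congr 1

lemma emb_smul {P : Params} {Φ : Fields} (c : ℝ) (h : InL2 P Φ) :
    emb P (c • Φ) = (c : ℂ) • emb P Φ := by
  rw [emb, emb, vec_smul]
  congr 1
  · ext i : 1
    fin_cases i
    · exact lift_rsmul c h.v
    · exact lift_rsmul c h.vx
    · exact lift_rsmul c h.uxx
    · exact lift_rsmul c h.θ
  · ext i : 1
    fin_cases i
    · exact lift_rsmul c h.z
    · exact lift_rsmul c h.zx
    · exact lift_rsmul c h.yxx

/-- calculus on `(0, L₀)` -/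
noncomputable abbrev CA (P : Params) : Calc (L2 0 P.L0) := calcL2 0 P.L0 P.L0_pos
/-- calculus on `(L₀, L)` -/
noncomputable abbrev CB (P : Params) : Calc (L2 P.L0 P.L) := calcL2 P.L0 P.L P.L0_lt_L

lemma D_lift {a b : ℝ} (hab : a < b) {f f' g g' : ℝ → ℂ} (h : IsH1 a b f f')
    (e : f =ᵐ[volume.restrict (Ioc a b)] g) (e' : f' =ᵐ[volume.restrict (Ioc a b)] g') :
    (calcL2 a b hab).D (lift a b g) (lift a b g') (f a) (f b) :=
  ⟨f, f', h, (coeFn_lift ((h.memLp hab.le).ae_eq e)).trans e.symm,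
    (coeFn_lift (h.1.ae_eq e')).trans e'.symm, rfl, rfl⟩

lemma lift_cmul {a b : ℝ} {f : ℝ → ℂ} (c : ℝ) (hf : MemLp f 2 (volume.restrict (Ioc a b))) :
    lift a b (fun x => c * f x) = (c : ℂ) • lift a b f := by
  rw [← lift_smul (c : ℂ) hf]
  rfl

/-- the generator relation yields static data -/
theorem exists_SD {P : Params} {Φ Ψ : Fields} (h : Gen P Φ Ψ) :
    ∃ s : SD (CA P) (CB P) P, s.X = emb P Φ ∧ s.Y = emb P Ψ := by
  obtain ⟨hΦ, hΨ, hu, hy, q, qx, Q, Qx, τ, τx, τxx, S₁, S₂, hq, eq, hQ, eQ, hτ, hτx, eτ, τ0, τL,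
    hqQ, heat, hS₁, eS₁, hS₂, eS₂, hS⟩ := h
  have hab := P.L0_pos
  have hbc := P.L0_lt_L
  have lΦ := hΦ.inL2
  have lΨ := hΨ.inL2
  -- `Ψ.ux = Φ.vx`, `Ψ.yx = Φ.zx` a.e.
  have e1 : Ψ.ux =ᵐ[volume.restrict (Ioc 0 P.L0)] Φ.vx := by
    refine ae_eq_of_integral_eq hab.le (hΨ.u_ux.intervalIntegrable hab.le)
      (hΦ.v_vx.intervalIntegrable hab.le) fun x hx => ?_
    have a1 := hΨ.u_ux.2 x hx
    have a2 := hΦ.v_vx.2 x hx
    rw [hu x hx, hu 0 (left_mem_Icc.2 hab.le)] at a1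
    rw [a1] at a2
    exact add_left_cancel a2
  have e2 : Ψ.yx =ᵐ[volume.restrict (Ioc P.L0 P.L)] Φ.zx := by
    refine ae_eq_of_integral_eq hbc.le (hΨ.y_yx.intervalIntegrable hbc.le)
      (hΦ.z_zx.intervalIntegrable hbc.le) fun x hx => ?_
    have a1 := hΨ.y_yx.2 x hx
    have a2 := hΦ.z_zx.2 x hx
    rw [hy x hx, hy P.L0 (left_mem_Icc.2 hbc.le)] at a1
    rw [a1] at a2
    exact add_left_cancel a2
  have rfl1 : ∀ f : ℝ → ℂ, f =ᵐ[volume.restrict (Ioc 0 P.L0)] f := fun f => ae_eq_refl f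
  have rfl2 : ∀ f : ℝ → ℂ, f =ᵐ[volume.restrict (Ioc P.L0 P.L)] f := fun f => ae_eq_refl f
  have mS₁ := hS₁.memLp hab.le
  have mS₂ := hS₂.memLp hbc.le
  have mτx := hτx.memLp hab.le
  let R : HReg (CA P) P.ρ0 P.ρ1 P.α1 P.β1 P.κ P.γ :=
    { w := lift 0 P.L0 Φ.u
      wx := lift 0 P.L0 Φ.ux
      q := lift 0 P.L0 Φ.uxx
      q1 := lift 0 P.L0 qx
      v := lift 0 P.L0 Φ.v
      p := lift 0 P.L0 Φ.vx
      p1 := lift 0 P.L0 Ψ.uxx
      z := lift 0 P.L0 Ψ.v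
      z1 := lift 0 P.L0 Ψ.vx
      θ := lift 0 P.L0 Φ.θ
      θ1 := lift 0 P.L0 τx
      S := lift 0 P.L0 S₁
      wa := Φ.u 0
      wb := Φ.u P.L0
      wxa := Φ.ux 0
      wxb := Φ.ux P.L0
      qa := q 0
      qb := q P.L0
      va := Φ.v 0
      vb := Φ.v P.L0
      pa := Ψ.ux 0
      pb := Ψ.ux P.L0
      za := Ψ.v 0
      zb := Ψ.v P.L0
      Sa := S₁ 0
      Sb := S₁ P.L0
      Dw := D_lift hab hΦ.u_ux (rfl1 _) (rfl1 _)
      Dwx := D_lift hab hΦ.ux_uxx (rfl1 _) (rfl1 _)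
      Dq := D_lift hab hq eq (rfl1 _)
      Dv := D_lift hab hΦ.v_vx (rfl1 _) (rfl1 _)
      Dp := D_lift hab hΨ.ux_uxx e1 (rfl1 _)
      Dz := D_lift hab hΨ.v_vx (rfl1 _) (rfl1 _)
      Dθ := by
        have := D_lift hab hτ eτ (rfl1 _)
        rwa [τ0, τL] at this
      DS := by
        have := D_lift hab hS₁ (rfl1 _) (rfl1 _)
        rwa [lift_cmul P.ρ1 lΨ.v] at this
      eq := by
        rw [← lift_cmul P.α1 lΨ.vx, ← lift_cmul P.β1 hq.1, ← lift_cmul P.γ mτx,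
          ← lift_add (hq.1.const_mul (P.β1 : ℂ)) (mτx.const_mul (P.γ : ℂ)),
          ← lift_add (f := fun x => (P.β1 : ℂ) * qx x + (P.γ : ℂ) * τx x)
            ((hq.1.const_mul (P.β1 : ℂ)).add (mτx.const_mul (P.γ : ℂ))) mS₁]
        refine lift_congr ?_
        filter_upwards [eS₁] with x hx
        rw [hx]; ring
      θ2 := lift 0 P.L0 τxx
      η := lift 0 P.L0 Ψ.θ
      θ1a := τx 0
      θ1b := τx P.L0
      Dθ1 := D_lift hab hτx (rfl1 _) (rfl1 _)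
      heat := by
        rw [← lift_cmul P.ρ0 lΨ.θ, ← lift_cmul P.κ hτx.1, ← lift_cmul P.γ lΨ.uxx,
          ← lift_add (hτx.1.const_mul (P.κ : ℂ)) (lΨ.uxx.const_mul (P.γ : ℂ))]
        exact lift_congr heat }
  let Qd : Reg (CB P) P.ρ2 P.α2 P.β2 0 :=
    { w := lift P.L0 P.L Φ.y
      wx := lift P.L0 P.L Φ.yx
      q := lift P.L0 P.L Φ.yxx
      q1 := lift P.L0 P.L Qx
      v := lift P.L0 P.L Φ.z
      p := lift P.L0 P.L Φ.zx
      p1 := lift P.L0 P.L Ψ.yxx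
      z := lift P.L0 P.L Ψ.z
      z1 := lift P.L0 P.L Ψ.zx
      θ := 0
      θ1 := 0
      S := lift P.L0 P.L S₂
      wa := Φ.y P.L0
      wb := Φ.y P.L
      wxa := Φ.yx P.L0
      wxb := Φ.yx P.L
      qa := Q P.L0
      qb := Q P.L
      va := Φ.z P.L0
      vb := Φ.z P.L
      pa := Ψ.yx P.L0
      pb := Ψ.yx P.L
      za := Ψ.z P.L0
      zb := Ψ.z P.L
      Sa := S₂ P.L0
      Sb := S₂ P.L
      Dw := D_lift hbc hΦ.y_yx (rfl2 _) (rfl2 _)
      Dwx := D_lift hbc hΦ.yx_yxx (rfl2 _) (rfl2 _)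
      Dq := D_lift hbc hQ eQ (rfl2 _)
      Dv := D_lift hbc hΦ.z_zx (rfl2 _) (rfl2 _)
      Dp := D_lift hbc hΨ.yx_yxx e2 (rfl2 _)
      Dz := D_lift hbc hΨ.z_zx (rfl2 _) (rfl2 _)
      Dθ := by
        have := (CB P).D_smul 0 (CB P).D_one
        simpa using this
      DS := by
        have := D_lift hbc hS₂ (rfl2 _) (rfl2 _)
        rwa [lift_cmul P.ρ2 lΨ.z] at this
      eq := by
        rw [smul_zero, add_zero, ← lift_cmul P.α2 lΨ.zx, ← lift_cmul P.β2 hQ.1,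
          ← lift_add (hQ.1.const_mul (P.β2 : ℂ)) mS₂]
        refine lift_congr ?_
        filter_upwards [eS₂] with x hx
        rw [hx]; ring }
  refine ⟨{ R := R, Q := Qd, wa := hΦ.u_zero, wxa := hΦ.ux_zero, va := hΦ.v_zero,
            pa := hΨ.ux_zero, za := hΨ.v_zero, Qwb := hΦ.y_L, Qwxb := hΦ.yx_L, Qvb := hΦ.z_L,
            Qpb := hΨ.yx_L, Qzb := hΨ.z_L, mw := hΦ.u_eq_y.symm, mwx := hΦ.ux_eq_yx.symm,
            mv := hΦ.v_eq_z.symm, mp := hΨ.ux_eq_yx.symm, mz := hΨ.v_eq_z.symm, mS := hS.symm,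
            mq := hqQ.symm }, rfl, rfl⟩

end Pool.Agent.Lib.MP_542e45_an
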