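import Pool.Agent.Lib.MP_542e45_an.Traces

/-! Smallness of every component away from zero frequency. -/

open scoped ComplexConjugate

namespace Pool.Agent.Lib.MP_542e45_an

open Calc

namespace HReg

variable {H : Type*} [NormedAddCommGroup H] [InnerProductSpace ℂ H] {C : Calc H}
  {ρ0 ρ α β κ γ : ℝ} (R : HReg C ρ0 ρ α β κ γ)

lemma norm_one_eq : ‖C.one‖ = Real.sqrt C.len := by
  rw [← C.norm_one_sq, Real.sqrt_sq (norm_nonneg _)]

lemma re_r_p (hva : R.va = 0) : (inner ℂ R.r R.p : ℂ).re = ‖R.r‖ ^ 2 := by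
  have : R.p = R.r + R.m • C.one := by rw [r]; abel
  conv_lhs => rw [this]
  rw [inner_add_right, inner_smul_right, R.r_one hva, mul_zero, add_zero, inner_self_c,
    Complex.ofReal_re]

lemma r_le_p (hva : R.va = 0) : ‖R.r‖ ≤ ‖R.p‖ := by
  have h := R.re_r_p hva
  have h1 := re_inner_le R.r R.p
  by_cases h0 : ‖R.r‖ = 0
  · rw [h0]; exact norm_nonneg _
  · have hpos : 0 < ‖R.r‖ := lt_of_le_of_ne (norm_nonneg _) (Ne.symm h0)
    have : ‖R.r‖ * ‖R.r‖ ≤ ‖R.r‖ * ‖R.p‖ := by nlinarith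
    exact le_of_mul_le_mul_left this hpos

lemma r_ineq (hα : 0 < α) (hβ : 0 < β) (hκ : 0 < κ) (hρ0 : 0 < ρ0) (hva : R.va = 0)
    (hza : R.za = 0) (l : ℝ) :
    α * |γ| * ‖R.r‖ ^ 2 ≤ α * κ * (‖R.r‖ * ‖R.θ1‖)
      + β * (‖R.qb‖ * (2 * Real.sqrt C.len * ρ0 * ‖R.θ‖))
      + ρ0 * (‖R.σ‖ * ‖R.θ‖) + ‖R.S‖ * (2 * C.len * ρ0 * ‖R.θ‖)
      + α * (‖R.g1 l‖ * (2 * C.len * ρ0 * ‖R.θ‖))
      + α * ((1 / C.len * (‖R.zb‖ + Real.sqrt C.len * ‖R.g1 l‖) * Real.sqrt C.len)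
          * (2 * C.len * ρ0 * ‖R.θ‖))
      + α * (‖R.r‖ * (2 * C.len * ρ0 * ‖R.h0 l‖)) := by
  obtain ⟨Y, Yh, Yb, Yhb, n, hY, hYh, hn, hid⟩ := R.heat_mult hva l
  have hl := C.len_pos
  have hYn : ‖Y‖ ≤ 2 * C.len * ρ0 * ‖R.θ‖ := by
    have := C.poincare_a hY
    rw [norm_smul, Complex.norm_real, Real.norm_of_nonneg hρ0.le] at this
    linarith
  have hYhn : ‖Yh‖ ≤ 2 * C.len * ρ0 * ‖R.h0 l‖ := by
    have := C.poincare_a hYh
    rw [norm_smul, Complex.norm_real, Real.norm_of_nonneg hρ0.le] at this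
    linarith
  have hYbn : ‖Yb‖ ≤ 2 * Real.sqrt C.len * ρ0 * ‖R.θ‖ := by
    have := C.norm_b hY
    rw [norm_smul, Complex.norm_real, Real.norm_of_nonneg hρ0.le] at this
    apply abs_le_of_sq_le_sq' _ (by positivity) |>.2
    calc ‖Yb‖ ^ 2 ≤ 4 * C.len * (ρ0 * ‖R.θ‖) ^ 2 := this
      _ = 4 * (Real.sqrt C.len) ^ 2 * (ρ0 * ‖R.θ‖) ^ 2 := by rw [Real.sq_sqrt hl.le]
      _ = _ := by ring
  have hnn : ‖n‖ ≤ 1 / C.len * (‖R.zb‖ + Real.sqrt C.len * ‖R.g1 l‖) := by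
    have e : n = ((1 / C.len : ℝ) : ℂ) * (R.zb + inner ℂ C.one (R.g1 l)) := by
      have hl' : (C.len : ℂ) ≠ 0 := by exact_mod_cast hl.ne'
      rw [hza, sub_zero] at hn
      rw [← hn]
      push_cast
      field_simp
    rw [e, norm_mul, Complex.norm_real, Real.norm_of_nonneg (by positivity)]
    gcongr
    refine (norm_add_le _ _).trans ?_
    gcongr
    rw [← norm_one_eq]
    exact norm_inner_le_norm _ _
  have i1 : -(inner ℂ R.r R.θ1 : ℂ).re ≤ ‖R.r‖ * ‖R.θ1‖ := neg_re_inner_le _ _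
  have i1' : (inner ℂ R.r R.θ1 : ℂ).re ≤ ‖R.r‖ * ‖R.θ1‖ := re_inner_le _ _
  have i2 : |(conj R.qb * Yb).re| ≤ ‖R.qb‖ * (2 * Real.sqrt C.len * ρ0 * ‖R.θ‖) :=
    (abs_re_conj_mul_le _ _).trans (by gcongr)
  have i3 := abs_re_inner_le R.σ R.θ
  have i4 : |(inner ℂ R.S Y : ℂ).re| ≤ ‖R.S‖ * (2 * C.len * ρ0 * ‖R.θ‖) :=
    (abs_re_inner_le _ _).trans (by gcongr)
  have i5 : |(inner ℂ (R.g1 l) Y : ℂ).re| ≤ ‖R.g1 l‖ * (2 * C.len * ρ0 * ‖R.θ‖) :=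
    (abs_re_inner_le _ _).trans (by gcongr)
  have i6 : |(inner ℂ (n • C.one) Y : ℂ).re|
      ≤ (1 / C.len * (‖R.zb‖ + Real.sqrt C.len * ‖R.g1 l‖) * Real.sqrt C.len)
          * (2 * C.len * ρ0 * ‖R.θ‖) := by
    refine (abs_re_inner_le _ _).trans ?_
    rw [norm_smul, norm_one_eq]
    gcongr
  have i7 : |(inner ℂ R.r Yh : ℂ).re| ≤ ‖R.r‖ * (2 * C.len * ρ0 * ‖R.h0 l‖) :=
    (abs_re_inner_le _ _).trans (by gcongr)
  have habs : α * |γ| * ‖R.r‖ ^ 2 = |α * γ * ‖R.r‖ ^ 2| := by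
    rw [abs_mul, abs_mul, abs_of_pos hα, abs_of_nonneg (sq_nonneg ‖R.r‖)]
  rw [habs, hid]
  have j1 : |(-α * κ * (inner ℂ R.r R.θ1 : ℂ).re)| ≤ α * κ * (‖R.r‖ * ‖R.θ1‖) := by
    rw [abs_mul, abs_mul, abs_neg, abs_of_pos hα, abs_of_pos hκ]
    gcongr; exact abs_re_inner_le _ _
  have j2 : |β * (conj R.qb * Yb).re| ≤ β * (‖R.qb‖ * (2 * Real.sqrt C.len * ρ0 * ‖R.θ‖)) := by
    rw [abs_mul, abs_of_pos hβ]; gcongr
  have j3 : |ρ0 * (inner ℂ R.σ R.θ : ℂ).re| ≤ ρ0 * (‖R.σ‖ * ‖R.θ‖) := by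
    rw [abs_mul, abs_of_pos hρ0]; gcongr
  have j5 : |α * (inner ℂ (R.g1 l) Y : ℂ).re| ≤ α * (‖R.g1 l‖ * (2 * C.len * ρ0 * ‖R.θ‖)) := by
    rw [abs_mul, abs_of_pos hα]; gcongr
  have j6 : |α * (inner ℂ (n • C.one) Y : ℂ).re|
      ≤ α * ((1 / C.len * (‖R.zb‖ + Real.sqrt C.len * ‖R.g1 l‖) * Real.sqrt C.len)
          * (2 * C.len * ρ0 * ‖R.θ‖)) := by
    rw [abs_mul, abs_of_pos hα]; gcongr
  have j7 : |α * (inner ℂ R.r Yh : ℂ).re| ≤ α * (‖R.r‖ * (2 * C.len * ρ0 * ‖R.h0 l‖)) := by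
    rw [abs_mul, abs_of_pos hα]; gcongr
  rw [abs_le] at j1 j2 j3 i4 j5 j6 j7 ⊢
  constructor <;> linarith [j1.1, j1.2, j2.1, j2.2, j3.1, j3.2, i4.1, i4.2, j5.1, j5.2, j6.1, j6.2,
    j7.1, j7.2]

end HReg

variable {H1 : Type*} [NormedAddCommGroup H1] [InnerProductSpace ℂ H1]
  {H2 : Type*} [NormedAddCommGroup H2] [InnerProductSpace ℂ H2]
  {C1 : Calc H1} {C2 : Calc H2} {P : Params}
  {T : Type*} (s : T → SD C1 C2 P) (lam : T → ℝ)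

lemma bd_RS : Bd (FF s lam) (NN s) 1 (fun t => ‖(s t).R.S‖) :=
  (bd_sz s lam).mono fun t => by rw [abs_norm]; exact (s t).RS_le
lemma bd_Rz : Bd (FF s lam) (NN s) 1 (fun t => ‖(s t).R.z‖) :=
  (bd_sz s lam).mono fun t => by rw [abs_norm]; exact (s t).Rz_le
lemma bd_QS : Bd (FF s lam) (NN s) 1 (fun t => ‖(s t).Q.S‖) :=
  (bd_sz s lam).mono fun t => by rw [abs_norm]; exact (s t).QS_le
lemma bd_RSb : Bd (FF s lam) (NN s) 1 (fun t => ‖(s t).R.Sb‖) :=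
  ((bd_sz s lam).const_mul _).mono fun t => by rw [abs_norm]; exact (s t).RSb_le

lemma bd_qb : Bd (FF s lam) (NN s) 1 (fun t => ‖(s t).R.qb‖) := by
  have hN := NN_nonneg s
  have hl := C1.len_pos; have hβ := P.β1_pos
  refine Bd.of_mul_sq hN (c := C1.len * P.β1) (by positivity)
    (W := fun t => (s t).R.WA (lam t) + 2 * C1.len * (‖(s t).R.q‖ * (s t).sz)) ?_ ?_
  · exact Bd.add hN (bd_WA s lam) (((bd_q s lam).mul hN (bd_sz s lam)).const_mul _)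
  · intro t
    have := (s t).R.qb_le (lam t) P.α1_pos.le (s t).RS_le
    linarith

lemma bd_qa : Bd (FF s lam) (NN s) 1 (fun t => ‖(s t).R.qa‖) := by
  have hN := NN_nonneg s
  have hl := C1.len_pos; have hβ := P.β1_pos
  refine Bd.of_mul_sq hN (c := C1.len * P.β1) (by positivity)
    (W := fun t => (s t).R.WB (lam t) + 2 * C1.len * (‖(s t).R.q‖ * (s t).sz)) ?_ ?_
  · exact Bd.add hN (bd_WB s lam) (((bd_q s lam).mul hN (bd_sz s lam)).const_mul _)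
  · intro t
    have := (s t).R.qa_le (lam t) P.α1_pos.le (s t).RS_le
    linarith

lemma bd_Rσ : Bd (FF s lam) (NN s) 1 (fun t => ‖(s t).R.σ‖) :=
  (bd_st s lam).mono fun t => by
    rw [abs_norm]; unfold SD.st; linarith [norm_nonneg (s t).Q.σ]

lemma bd_zb : Bd (FF s lam) (NN s) 1 (fun t => ‖(s t).R.zb‖) := by
  have hN := NN_nonneg s
  have hα := P.α1_pos
  refine (Bd.const_mul (1 / P.α1) (Bd.add hN (Bd.add hN ((bd_qb s lam).const_mul P.β1)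
    ((bd_qa s lam).const_mul P.β1)) ((bd_RS s lam).const_mul (Real.sqrt C1.len)))).mono fun t => ?_
  rw [abs_norm]
  have h1 := C1.ibp_one (s t).R.Dz
  rw [(s t).za, sub_zero] at h1
  have h2 := C1.ibp_one (s t).R.Dσ
  have h3 : (P.α1 : ℂ) * inner ℂ C1.one (s t).R.z1 = inner ℂ C1.one (s t).R.σ1
      + inner ℂ C1.one (s t).R.S := by
    have := congrArg (fun x => (inner ℂ C1.one x : ℂ)) (s t).R.eq'
    simp only [inner_add_right, inner_smul_right] at this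
    exact this
  rw [h1, h2] at h3
  have h4 : P.α1 * ‖(s t).R.zb‖ ≤ P.β1 * ‖(s t).R.qb‖ + P.β1 * ‖(s t).R.qa‖
      + Real.sqrt C1.len * ‖(s t).R.S‖ := by
    have : P.α1 * ‖(s t).R.zb‖ = ‖(P.α1 : ℂ) * (s t).R.zb‖ := by
      rw [norm_mul, Complex.norm_real, Real.norm_of_nonneg hα.le]
    rw [this, h3]
    refine (norm_add_le _ _).trans (add_le_add ((norm_sub_le _ _).trans ?_) ?_)
    · rw [norm_mul, norm_mul, Complex.norm_real, Real.norm_of_nonneg P.β1_pos.le]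
    · rw [← HReg.norm_one_eq]; exact norm_inner_le_norm _ _
  rw [one_div, ← div_eq_inv_mul, le_div_iff₀ hα]
  linarith

lemma bd_r : Bd (FF s lam) (NN s) 1 (fun t => ‖(s t).R.r‖) :=
  (bd_p s lam).mono fun t => by rw [abs_norm]; exact (s t).R.r_le_p (s t).va

lemma sm_r : Sm (FF s lam) (NN s) 1 (fun t => ‖(s t).R.r‖) := by
  have hN := NN_nonneg s
  have hα := P.α1_pos
  have hγ : 0 < |P.γ| := abs_pos.2 P.γ_ne
  refine Sm.of_mul_sq hN (c := P.α1 * |P.γ|) (by positivity) ?_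
    (fun t => (s t).R.r_ineq P.α1_pos P.β1_pos P.κ_pos P.ρ0_pos (s t).va (s t).za (lam t))
  have hθ : ∀ c : ℝ, Sm (FF s lam) (NN s) 1 (fun t => c * ‖(s t).R.θ‖) :=
    fun c => (sm_θ s lam).const_mul c
  refine Sm.add hN (Sm.add hN (Sm.add hN (Sm.add hN (Sm.add hN (Sm.add hN ?_ ?_) ?_) ?_) ?_) ?_) ?_
  · exact ((bd_r s lam).mul_sm hN (sm_θ1 s lam)).const_mul _
  · exact ((bd_qb s lam).mul_sm hN (hθ _)).const_mul _
  · exact ((bd_Rσ s lam).mul_sm hN (sm_θ s lam)).const_mul _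
  · exact (bd_RS s lam).mul_sm hN (hθ _)
  · exact ((sm_g1 s lam).bd.mul_sm hN (hθ _)).const_mul _
  · refine Sm.const_mul _ (Bd.mul_sm hN ?_ (hθ _))
    have := (((bd_zb s lam).add hN ((sm_g1 s lam).bd.const_mul (Real.sqrt C1.len))).const_mul
      (1 / C1.len)).const_mul (Real.sqrt C1.len)
    simpa only [mul_comm (Real.sqrt C1.len) (1 / C1.len * _)] using this
  · exact ((bd_r s lam).mul_sm hN ((sm_h0 s lam).const_mul _)).const_mul _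

end Pool.Agent.Lib.MP_542e45_an
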