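import Mathlib

/-! Definitions for the Rayleigh beam - heat transmission problem. -/

open MeasureTheory Filter Topology

namespace Pool.Agent.Lib.MP_542e45_an

/-- Admissible parameters of the problem: `0 < L₀ < L`, positive
`ρ₀, ρ₁, ρ₂, α₁, α₂, β₁, β₂, κ` and `γ ≠ 0`. -/
structure Params where
  L0 : ℝ
  L : ℝ
  ρ0 : ℝ
  ρ1 : ℝ
  ρ2 : ℝ
  α1 : ℝ
  α2 : ℝ
  β1 : ℝ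
  β2 : ℝ
  κ : ℝ
  γ : ℝ
  L0_pos : 0 < L0
  L0_lt_L : L0 < L
  ρ0_pos : 0 < ρ0
  ρ1_pos : 0 < ρ1
  ρ2_pos : 0 < ρ2
  α1_pos : 0 < α1
  α2_pos : 0 < α2
  β1_pos : 0 < β1
  β2_pos : 0 < β2
  κ_pos : 0 < κ
  γ_ne : γ ≠ 0

/-- `IsH1 a b f f'` : `f` is (the continuous representative of) an element of `H¹(a,b)` whose weak
derivative is `f' ∈ L²(a,b)`. -/
def IsH1 (a b : ℝ) (f f' : ℝ → ℂ) : Prop :=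
  MemLp f' 2 (volume.restrict (Set.Ioc a b)) ∧
    ∀ x ∈ Set.Icc a b, f x = f a + ∫ s in a..x, f' s

/-- Equality almost everywhere on `(a,b)`. -/
def AEEq (a b : ℝ) (f g : ℝ → ℂ) : Prop := f =ᵐ[volume.restrict (Set.Ioc a b)] g

/-- The functions making up a state `(u, y, v, z, θ)` together with the derivatives
`u_x, u_xx, y_x, y_xx, v_x, z_x` (`u, v, θ` live on `(0, L₀)`; `y, z` live on `(L₀, L)`;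
`v` and `z` stand for `u_t` and `y_t`). -/
@[ext] structure Fields where
  u : ℝ → ℂ
  ux : ℝ → ℂ
  uxx : ℝ → ℂ
  y : ℝ → ℂ
  yx : ℝ → ℂ
  yxx : ℝ → ℂ
  v : ℝ → ℂ
  vx : ℝ → ℂ
  z : ℝ → ℂ
  zx : ℝ → ℂ
  θ : ℝ → ℂ

/-- Fieldwise subtraction. -/
instance : Sub Fields :=
  ⟨fun Φ Ψ => ⟨Φ.u - Ψ.u, Φ.ux - Ψ.ux, Φ.uxx - Ψ.uxx, Φ.y - Ψ.y, Φ.yx - Ψ.yx, Φ.yxx - Ψ.yxx,
    Φ.v - Ψ.v, Φ.vx - Ψ.vx, Φ.z - Ψ.z, Φ.zx - Ψ.zx, Φ.θ - Ψ.θ⟩⟩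

/-- Fieldwise multiplication by a real number. -/
noncomputable instance : SMul ℝ Fields :=
  ⟨fun c Φ => ⟨c • Φ.u, c • Φ.ux, c • Φ.uxx, c • Φ.y, c • Φ.yx, c • Φ.yxx,
    c • Φ.v, c • Φ.vx, c • Φ.z, c • Φ.zx, c • Φ.θ⟩⟩

/-- Membership in the energy space `ℋ = 𝕎₁ × 𝕍₁ × L²(0, L₀)`: `(u,y) ∈ H² × H²`,
`(v,z) ∈ H¹ × H¹`, `θ ∈ L²`, with `u(0) = u_x(0) = 0`, `y(L) = y_x(L) = 0`, `u(L₀) = y(L₀)`,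
`u_x(L₀) = y_x(L₀)`, `v(0) = 0`, `z(L) = 0`, `v(L₀) = z(L₀)`. -/
structure InH (P : Params) (Φ : Fields) : Prop where
  u_ux : IsH1 0 P.L0 Φ.u Φ.ux
  ux_uxx : IsH1 0 P.L0 Φ.ux Φ.uxx
  y_yx : IsH1 P.L0 P.L Φ.y Φ.yx
  yx_yxx : IsH1 P.L0 P.L Φ.yx Φ.yxx
  v_vx : IsH1 0 P.L0 Φ.v Φ.vx
  z_zx : IsH1 P.L0 P.L Φ.z Φ.zx
  θ_L2 : MemLp Φ.θ 2 (volume.restrict (Set.Ioc 0 P.L0))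
  u_zero : Φ.u 0 = 0
  ux_zero : Φ.ux 0 = 0
  y_L : Φ.y P.L = 0
  yx_L : Φ.yx P.L = 0
  u_eq_y : Φ.u P.L0 = Φ.y P.L0
  ux_eq_yx : Φ.ux P.L0 = Φ.yx P.L0
  v_zero : Φ.v 0 = 0
  z_L : Φ.z P.L = 0
  v_eq_z : Φ.v P.L0 = Φ.z P.L0

/-- The energy `E` of a state. -/
noncomputable def energy (P : Params) (Φ : Fields) : ℝ :=
  1 / 2 * (∫ x in (0 : ℝ)..P.L0, (P.ρ1 * ‖Φ.v x‖ ^ 2 + P.α1 * ‖Φ.vx x‖ ^ 2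
    + P.β1 * ‖Φ.uxx x‖ ^ 2 + P.ρ0 * ‖Φ.θ x‖ ^ 2))
  + 1 / 2 * (∫ x in P.L0..P.L, (P.ρ2 * ‖Φ.z x‖ ^ 2 + P.α2 * ‖Φ.zx x‖ ^ 2
    + P.β2 * ‖Φ.yxx x‖ ^ 2))

/-- The generator of the system: `Gen P Φ Ψ` says `Φ ∈ D(𝒜)` and `𝒜 Φ = Ψ`, where
`𝒜 (u, y, v, z, θ) = (v, z, v_t, z_t, θ_t)`.
There are `q = u_xx ∈ H¹(0,L₀)`, `Q = y_xx ∈ H¹(L₀,L)`, a temperature
`τ = θ ∈ H²(0,L₀)` with `τ(0) = τ(L₀) = 0`, and fluxes `S₁ ∈ H¹(0,L₀)`, `S₂ ∈ H¹(L₀,L)` with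
`S₁ = α₁ u_xtt - β₁ u_xxx - γ θ_x`, `(S₁)_x = ρ₁ u_tt`, `S₂ = α₂ y_xtt - β₂ y_xxx`,
`(S₂)_x = ρ₂ y_tt`, which is the pair of beam equations; the transmission conditions are
`β₁ u_xx = β₂ y_xx` and `S₁ = S₂` at `L₀`; the heat equation is `ρ₀ θ_t = κ θ_xx + γ u_xxt`. -/
def Gen (P : Params) (Φ Ψ : Fields) : Prop :=
  InH P Φ ∧ InH P Ψ ∧
  (∀ x ∈ Set.Icc 0 P.L0, Ψ.u x = Φ.v x) ∧ (∀ x ∈ Set.Icc P.L0 P.L, Ψ.y x = Φ.z x) ∧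
  ∃ q qx Q Qx τ τx τxx S₁ S₂ : ℝ → ℂ,
    IsH1 0 P.L0 q qx ∧ AEEq 0 P.L0 q Φ.uxx ∧
    IsH1 P.L0 P.L Q Qx ∧ AEEq P.L0 P.L Q Φ.yxx ∧
    IsH1 0 P.L0 τ τx ∧ IsH1 0 P.L0 τx τxx ∧ AEEq 0 P.L0 τ Φ.θ ∧ τ 0 = 0 ∧ τ P.L0 = 0 ∧
    P.β1 * q P.L0 = P.β2 * Q P.L0 ∧
    AEEq 0 P.L0 (fun x => P.ρ0 * Ψ.θ x) (fun x => P.κ * τxx x + P.γ * Ψ.uxx x) ∧
    IsH1 0 P.L0 S₁ (fun x => P.ρ1 * Ψ.v x) ∧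
    AEEq 0 P.L0 S₁ (fun x => P.α1 * Ψ.vx x - P.β1 * qx x - P.γ * τx x) ∧
    IsH1 P.L0 P.L S₂ (fun x => P.ρ2 * Ψ.z x) ∧
    AEEq P.L0 P.L S₂ (fun x => P.α2 * Ψ.zx x - P.β2 * Qx x) ∧
    S₁ P.L0 = S₂ P.L0

/-- `Φ` is a solution with initial state in `D(𝒜)`: `Φ ∈ C¹([0,∞); ℋ)`, `Φ(t) ∈ D(𝒜)` and
`Φ_t(t) = Ψ(t) = 𝒜 Φ(t)` for all `t ≥ 0`; derivative and continuity are in the energy norm. -/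
structure IsSolution (P : Params) (Φ Ψ : ℝ → Fields) : Prop where
  gen : ∀ t, 0 ≤ t → Gen P (Φ t) (Ψ t)
  hasDeriv : ∀ t, 0 ≤ t →
    Tendsto (fun s => energy P ((s - t)⁻¹ • (Φ s - Φ t) - Ψ t)) (𝓝[Set.Ici 0 \ {t}] t) (𝓝 0)
  cont : ∀ t, 0 ≤ t → Tendsto (fun s => energy P (Ψ s - Ψ t)) (𝓝[Set.Ici 0] t) (𝓝 0)

end Pool.Agent.Lib.MP_542e45_an
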