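import Pool.Agent.Lib.MP_542e45_an.Apriori

/-! Smallness and boundedness facts for families of static data. -/

open scoped ComplexConjugate

namespace Pool.Agent.Lib.MP_542e45_an

open Calc

variable {H1 : Type*} [NormedAddCommGroup H1] [InnerProductSpace ℂ H1]
  {H2 : Type*} [NormedAddCommGroup H2] [InnerProductSpace ℂ H2]
  {C1 : Calc H1} {C2 : Calc H2} {P : Params}
  {T : Type*} (s : T → SD C1 C2 P) (lam : T → ℝ)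

/-- norm of the state -/
noncomputable def NN : T → ℝ := fun t => ‖(s t).X‖
/-- norm of the residual -/
noncomputable def FF : T → ℝ := fun t => (s t).res (lam t)

lemma NN_nonneg (t : T) : 0 ≤ NN s t := norm_nonneg _
lemma FF_nonneg (t : T) : 0 ≤ FF s lam t := norm_nonneg _

lemma bd_N : Bd (FF s lam) (NN s) 1 (NN s) := bd_self (NN_nonneg s)
lemma sm_F : Sm (FF s lam) (NN s) 1 (FF s lam) := sm_self (FF_nonneg s lam)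

lemma bd_N2 : Bd (FF s lam) (NN s) (1 + 1) (fun t => NN s t ^ 2) :=
  (bd_N s lam).sq (NN_nonneg s)
lemma sm_F2 : Sm (FF s lam) (NN s) (1 + 1) (fun t => FF s lam t ^ 2) :=
  (sm_F s lam).sq (NN_nonneg s)

section comps

lemma comp_le (t : T) :
    P.ρ1 * ‖(s t).R.v‖ ^ 2 ≤ NN s t ^ 2 ∧ P.α1 * ‖(s t).R.p‖ ^ 2 ≤ NN s t ^ 2 ∧
    P.β1 * ‖(s t).R.q‖ ^ 2 ≤ NN s t ^ 2 ∧ P.ρ0 * ‖(s t).R.θ‖ ^ 2 ≤ NN s t ^ 2 ∧
    P.ρ2 * ‖(s t).Q.v‖ ^ 2 ≤ NN s t ^ 2 ∧ P.α2 * ‖(s t).Q.p‖ ^ 2 ≤ NN s t ^ 2 ∧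
    P.β2 * ‖(s t).Q.q‖ ^ 2 ≤ NN s t ^ 2 := by
  have h := (s t).X_sq
  have h1 := P.ρ1_pos; have h2 := P.α1_pos; have h3 := P.β1_pos; have h4 := P.ρ0_pos
  have h5 := P.ρ2_pos; have h6 := P.α2_pos; have h7 := P.β2_pos
  have e1 : 0 ≤ P.ρ1 * ‖(s t).R.v‖ ^ 2 := by positivity
  have e2 : 0 ≤ P.α1 * ‖(s t).R.p‖ ^ 2 := by positivity
  have e3 : 0 ≤ P.β1 * ‖(s t).R.q‖ ^ 2 := by positivity
  have e4 : 0 ≤ P.ρ0 * ‖(s t).R.θ‖ ^ 2 := by positivity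
  have e5 : 0 ≤ P.ρ2 * ‖(s t).Q.v‖ ^ 2 := by positivity
  have e6 : 0 ≤ P.α2 * ‖(s t).Q.p‖ ^ 2 := by positivity
  have e7 : 0 ≤ P.β2 * ‖(s t).Q.q‖ ^ 2 := by positivity
  rw [show NN s t ^ 2 = ‖(s t).X‖ ^ 2 from rfl, h]
  refine ⟨?_, ?_, ?_, ?_, ?_, ?_, ?_⟩ <;> linarith

lemma res_le (t : T) :
    P.ρ1 * ‖(s t).R.g0 (lam t)‖ ^ 2 ≤ FF s lam t ^ 2 ∧
    P.α1 * ‖(s t).R.g1 (lam t)‖ ^ 2 ≤ FF s lam t ^ 2 ∧
    P.β1 * ‖(s t).R.f2 (lam t)‖ ^ 2 ≤ FF s lam t ^ 2 ∧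
    P.ρ0 * ‖(s t).R.h0 (lam t)‖ ^ 2 ≤ FF s lam t ^ 2 ∧
    P.ρ2 * ‖(s t).Q.g0 (lam t)‖ ^ 2 ≤ FF s lam t ^ 2 ∧
    P.α2 * ‖(s t).Q.g1 (lam t)‖ ^ 2 ≤ FF s lam t ^ 2 ∧
    P.β2 * ‖(s t).Q.f2 (lam t)‖ ^ 2 ≤ FF s lam t ^ 2 := by
  have h := (s t).res_sq (lam t)
  have h1 := P.ρ1_pos; have h2 := P.α1_pos; have h3 := P.β1_pos; have h4 := P.ρ0_pos
  have h5 := P.ρ2_pos; have h6 := P.α2_pos; have h7 := P.β2_pos
  have e1 : 0 ≤ P.ρ1 * ‖(s t).R.g0 (lam t)‖ ^ 2 := by positivity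
  have e2 : 0 ≤ P.α1 * ‖(s t).R.g1 (lam t)‖ ^ 2 := by positivity
  have e3 : 0 ≤ P.β1 * ‖(s t).R.f2 (lam t)‖ ^ 2 := by positivity
  have e4 : 0 ≤ P.ρ0 * ‖(s t).R.h0 (lam t)‖ ^ 2 := by positivity
  have e5 : 0 ≤ P.ρ2 * ‖(s t).Q.g0 (lam t)‖ ^ 2 := by positivity
  have e6 : 0 ≤ P.α2 * ‖(s t).Q.g1 (lam t)‖ ^ 2 := by positivity
  have e7 : 0 ≤ P.β2 * ‖(s t).Q.f2 (lam t)‖ ^ 2 := by positivity
  rw [show FF s lam t ^ 2 = (s t).res (lam t) ^ 2 from rfl, h]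
  refine ⟨?_, ?_, ?_, ?_, ?_, ?_, ?_⟩ <;> linarith

lemma bd_v : Bd (FF s lam) (NN s) 1 (fun t => ‖(s t).R.v‖) :=
  Bd.of_mul_sq (NN_nonneg s) P.ρ1_pos (bd_N2 s lam) (fun t => (comp_le s t).1)
lemma bd_p : Bd (FF s lam) (NN s) 1 (fun t => ‖(s t).R.p‖) :=
  Bd.of_mul_sq (NN_nonneg s) P.α1_pos (bd_N2 s lam) (fun t => (comp_le s t).2.1)
lemma bd_q : Bd (FF s lam) (NN s) 1 (fun t => ‖(s t).R.q‖) :=
  Bd.of_mul_sq (NN_nonneg s) P.β1_pos (bd_N2 s lam) (fun t => (comp_le s t).2.2.1)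
lemma bd_Qv : Bd (FF s lam) (NN s) 1 (fun t => ‖(s t).Q.v‖) :=
  Bd.of_mul_sq (NN_nonneg s) P.ρ2_pos (bd_N2 s lam) (fun t => (comp_le s t).2.2.2.2.1)
lemma bd_Qp : Bd (FF s lam) (NN s) 1 (fun t => ‖(s t).Q.p‖) :=
  Bd.of_mul_sq (NN_nonneg s) P.α2_pos (bd_N2 s lam) (fun t => (comp_le s t).2.2.2.2.2.1)
lemma bd_Qq : Bd (FF s lam) (NN s) 1 (fun t => ‖(s t).Q.q‖) :=
  Bd.of_mul_sq (NN_nonneg s) P.β2_pos (bd_N2 s lam) (fun t => (comp_le s t).2.2.2.2.2.2)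

lemma sm_g0 : Sm (FF s lam) (NN s) 1 (fun t => ‖(s t).R.g0 (lam t)‖) :=
  Sm.of_mul_sq (NN_nonneg s) P.ρ1_pos (sm_F2 s lam) (fun t => (res_le s lam t).1)
lemma sm_g1 : Sm (FF s lam) (NN s) 1 (fun t => ‖(s t).R.g1 (lam t)‖) :=
  Sm.of_mul_sq (NN_nonneg s) P.α1_pos (sm_F2 s lam) (fun t => (res_le s lam t).2.1)
lemma sm_f2 : Sm (FF s lam) (NN s) 1 (fun t => ‖(s t).R.f2 (lam t)‖) :=
  Sm.of_mul_sq (NN_nonneg s) P.β1_pos (sm_F2 s lam) (fun t => (res_le s lam t).2.2.1)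
lemma sm_h0 : Sm (FF s lam) (NN s) 1 (fun t => ‖(s t).R.h0 (lam t)‖) :=
  Sm.of_mul_sq (NN_nonneg s) P.ρ0_pos (sm_F2 s lam) (fun t => (res_le s lam t).2.2.2.1)
lemma sm_Qg0 : Sm (FF s lam) (NN s) 1 (fun t => ‖(s t).Q.g0 (lam t)‖) :=
  Sm.of_mul_sq (NN_nonneg s) P.ρ2_pos (sm_F2 s lam) (fun t => (res_le s lam t).2.2.2.2.1)
lemma sm_Qg1 : Sm (FF s lam) (NN s) 1 (fun t => ‖(s t).Q.g1 (lam t)‖) :=
  Sm.of_mul_sq (NN_nonneg s) P.α2_pos (sm_F2 s lam) (fun t => (res_le s lam t).2.2.2.2.2.1)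
lemma sm_Qf2 : Sm (FF s lam) (NN s) 1 (fun t => ‖(s t).Q.f2 (lam t)‖) :=
  Sm.of_mul_sq (NN_nonneg s) P.β2_pos (sm_F2 s lam) (fun t => (res_le s lam t).2.2.2.2.2.2)

lemma sm_f1 : Sm (FF s lam) (NN s) 1 (fun t => ‖(s t).R.f1 (lam t)‖) := by
  refine (Sm.const_mul (2 * C1.len) (sm_f2 s lam)).mono fun t => ?_
  rw [abs_norm]
  have h := (s t).R.Df1 (lam t)
  rw [(s t).wxa, (s t).pa, mul_zero, sub_zero] at h
  exact C1.poincare_a h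

lemma sm_f0 : Sm (FF s lam) (NN s) 1 (fun t => ‖(s t).R.f0 (lam t)‖) := by
  refine (Sm.const_mul (2 * C1.len) (sm_f1 s lam)).mono fun t => ?_
  rw [abs_norm]
  have h := (s t).R.Df0 (lam t)
  rw [(s t).wa, (s t).va, mul_zero, sub_zero] at h
  exact C1.poincare_a h

lemma sm_Qf1 : Sm (FF s lam) (NN s) 1 (fun t => ‖(s t).Q.f1 (lam t)‖) := by
  refine (Sm.const_mul (2 * C2.len) (sm_Qf2 s lam)).mono fun t => ?_
  rw [abs_norm]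
  have h := (s t).Q.Df1 (lam t)
  rw [(s t).Qwxb, (s t).Qpb, mul_zero, sub_zero] at h
  exact C2.poincare_b h

lemma sm_Qf0 : Sm (FF s lam) (NN s) 1 (fun t => ‖(s t).Q.f0 (lam t)‖) := by
  refine (Sm.const_mul (2 * C2.len) (sm_Qf1 s lam)).mono fun t => ?_
  rw [abs_norm]
  have h := (s t).Q.Df0 (lam t)
  rw [(s t).Qwb, (s t).Qvb, mul_zero, sub_zero] at h
  exact C2.poincare_b h

lemma bd_wx : Bd (FF s lam) (NN s) 1 (fun t => ‖(s t).R.wx‖) := by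
  refine (Bd.const_mul (2 * C1.len) (bd_q s lam)).mono fun t => ?_
  rw [abs_norm]
  have h := (s t).R.Dwx
  rw [(s t).wxa] at h
  exact C1.poincare_a h

lemma bd_w : Bd (FF s lam) (NN s) 1 (fun t => ‖(s t).R.w‖) := by
  refine (Bd.const_mul (2 * C1.len) (bd_wx s lam)).mono fun t => ?_
  rw [abs_norm]
  have h := (s t).R.Dw
  rw [(s t).wa] at h
  exact C1.poincare_a h

lemma bd_Qwx : Bd (FF s lam) (NN s) 1 (fun t => ‖(s t).Q.wx‖) := by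
  refine (Bd.const_mul (2 * C2.len) (bd_Qq s lam)).mono fun t => ?_
  rw [abs_norm]
  have h := (s t).Q.Dwx
  rw [(s t).Qwxb] at h
  exact C2.poincare_b h

lemma bd_Qw : Bd (FF s lam) (NN s) 1 (fun t => ‖(s t).Q.w‖) := by
  refine (Bd.const_mul (2 * C2.len) (bd_Qwx s lam)).mono fun t => ?_
  rw [abs_norm]
  have h := (s t).Q.Dw
  rw [(s t).Qwb] at h
  exact C2.poincare_b h

lemma sm_θ1 : Sm (FF s lam) (NN s) 1 (fun t => ‖(s t).R.θ1‖) :=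
  Sm.of_mul_sq (NN_nonneg s) P.κ_pos ((sm_F s lam).mul (NN_nonneg s) (bd_N s lam))
    (fun t => (s t).dissip_le (lam t))

lemma sm_θ : Sm (FF s lam) (NN s) 1 (fun t => ‖(s t).R.θ‖) := by
  refine (Sm.const_mul (2 * C1.len) (sm_θ1 s lam)).mono fun t => ?_
  rw [abs_norm]
  exact C1.poincare_a (s t).R.Dθ

end comps

/-- norm of the operator image -/
lemma sm_A {H : Type*} [NormedAddCommGroup H] [InnerProductSpace ℂ H] (C : Calc H)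
    {F N : T → ℝ} {x : T → H} (hx : Sm F N 1 (fun t => ‖x t‖)) :
    Sm F N 1 (fun t => ‖C.A (x t)‖) :=
  (Sm.const_mul C.len hx).mono fun t => by rw [abs_norm]; exact C.A_norm _

lemma sm_B {H : Type*} [NormedAddCommGroup H] [InnerProductSpace ℂ H] (C : Calc H)
    {F N : T → ℝ} {x : T → H} (hx : Sm F N 1 (fun t => ‖x t‖)) :
    Sm F N 1 (fun t => ‖C.A (x t) - (C.len : ℂ) • x t‖) :=
  (Sm.const_mul C.len hx).mono fun t => by rw [abs_norm]; exact C.B_norm _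

lemma bd_A {H : Type*} [NormedAddCommGroup H] [InnerProductSpace ℂ H] (C : Calc H)
    {F N : T → ℝ} {x : T → H} (hx : Bd F N 1 (fun t => ‖x t‖)) :
    Bd F N 1 (fun t => ‖C.A (x t)‖) :=
  (Bd.const_mul C.len hx).mono fun t => by rw [abs_norm]; exact C.A_norm _

lemma bd_B {H : Type*} [NormedAddCommGroup H] [InnerProductSpace ℂ H] (C : Calc H)
    {F N : T → ℝ} {x : T → H} (hx : Bd F N 1 (fun t => ‖x t‖)) :
    Bd F N 1 (fun t => ‖C.A (x t) - (C.len : ℂ) • x t‖) :=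
  (Bd.const_mul C.len hx).mono fun t => by rw [abs_norm]; exact C.B_norm _

end Pool.Agent.Lib.MP_542e45_an
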