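import Pool.Agent.Lib.MP_542e45_an.Decay

/-! The resolvent estimate. -/

open scoped ComplexConjugate

namespace Pool.Agent.Lib.MP_542e45_an

open Calc

variable {H1 : Type*} [NormedAddCommGroup H1] [InnerProductSpace ℂ H1]
  {H2 : Type*} [NormedAddCommGroup H2] [InnerProductSpace ℂ H2]
  {C1 : Calc H1} {C2 : Calc H2} {P : Params}
  {T : Type*} (s : T → SD C1 C2 P) (lam : T → ℝ)

lemma bd_vb : Bd (FF s lam) (NN s) 1 (fun t => ‖(s t).R.vb‖) := by
  have hN := NN_nonneg s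
  refine Bd.of_sq hN (((bd_p s lam).sq hN).const_mul (4 * C1.len)) fun t => ?_
  have h := (s t).R.Dv
  rw [(s t).va] at h
  exact C1.norm_b h

/-- the interface velocity is small -/
lemma sm_vb : Sm (FF s lam) (NN s) 1 (fun t => ‖(s t).R.vb‖) := by
  have hN := NN_nonneg s
  have hl := C1.len_pos
  -- `a`, `b`, `c`
  set a : T → ℝ := fun t => C1.len * ‖(s t).R.r‖ ^ 2
    + 2 * C1.len ^ 2 * (‖(s t).R.r‖ * ‖(s t).R.f2 (lam t)‖) with ha
  set b : T → ℝ := fun t => 2 * C1.len ^ 2 * (‖(s t).R.r‖ * ‖(s t).R.q‖) with hb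
  set c : T → ℝ := fun t => 2 * ((‖(s t).R.z‖ + ‖(s t).R.g0 (lam t)‖) * ‖(s t).R.p‖) with hc
  have sa : Sm (FF s lam) (NN s) (1 + 1) a := by
    refine Sm.add hN (((sm_r s lam).sq hN).const_mul _) ?_
    exact ((sm_r s lam).mul hN (sm_f2 s lam).bd).const_mul _
  have sb : Sm (FF s lam) (NN s) (1 + 1) b := ((sm_r s lam).mul hN (bd_q s lam)).const_mul _
  have bc : Bd (FF s lam) (NN s) (1 + 1) c :=
    (((bd_Rz s lam).add hN (sm_g0 s lam).bd).mul hN (bd_p s lam)).const_mul _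
  have hX1 : ∀ t, ‖(s t).R.vb‖ ^ 2 ≤ a t + |lam t| * b t := by
    intro t
    have h1 := C1.trace_a (s t).R.Dr
    rw [(s t).pa, zero_sub, norm_neg] at h1
    have hm : ‖(s t).R.m‖ = ‖(s t).R.vb‖ / C1.len := by
      rw [HReg.m, norm_div, Complex.norm_real, Real.norm_of_nonneg hl.le]
    have hp1 : ‖(s t).R.p1‖ ≤ |lam t| * ‖(s t).R.q‖ + ‖(s t).R.f2 (lam t)‖ := by
      have : (s t).R.p1 = (Complex.I * lam t) • (s t).R.q - (s t).R.f2 (lam t) := by
        rw [Reg.f2]; abel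
      rw [this]
      refine (norm_sub_le _ _).trans (le_of_eq ?_)
      rw [norm_smul, norm_mul, Complex.norm_I, one_mul, Complex.norm_real, Real.norm_eq_abs]
    rw [hm] at h1
    have h2 : C1.len * (‖(s t).R.vb‖ / C1.len) ^ 2 = ‖(s t).R.vb‖ ^ 2 / C1.len := by
      field_simp
    rw [h2, div_le_iff₀ hl] at h1
    have h3 : ‖(s t).R.r‖ * ‖(s t).R.p1‖
        ≤ ‖(s t).R.r‖ * (|lam t| * ‖(s t).R.q‖ + ‖(s t).R.f2 (lam t)‖) := by gcongr
    have h4 := mul_le_mul_of_nonneg_left h3 (by positivity : 0 ≤ 2 * C1.len ^ 2)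
    rw [ha, hb]
    simp only
    nlinarith
  have hX2 : ∀ t, |lam t| * ‖(s t).R.vb‖ ^ 2 ≤ c t := by
    intro t
    have h := (s t).R.Dv
    rw [(s t).va] at h
    have h1 := C1.sq_b h
    have h2 : |lam t| * ‖(s t).R.v‖ ≤ ‖(s t).R.z‖ + ‖(s t).R.g0 (lam t)‖ := by
      have e : (Complex.I * lam t) • (s t).R.v = (s t).R.z + (s t).R.g0 (lam t) := by
        rw [Reg.g0]; abel
      have e2 : |lam t| * ‖(s t).R.v‖ = ‖(Complex.I * lam t) • (s t).R.v‖ := by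
        rw [norm_smul, norm_mul, Complex.norm_I, one_mul, Complex.norm_real, Real.norm_eq_abs]
      rw [e2, e]
      exact norm_add_le _ _
    have h3 := mul_le_mul_of_nonneg_left h1 (abs_nonneg (lam t))
    have h4 := mul_le_mul_of_nonneg_right h2 (norm_nonneg (s t).R.p)
    rw [hc]
    simp only
    nlinarith
  have hsq : Sm (FF s lam) (NN s) (1 + 1) (fun t => ‖(s t).R.vb‖ ^ 2) := by
    refine Sm.of_sq hN (W := fun t => a t * ‖(s t).R.vb‖ ^ 2 + b t * c t) ?_ ?_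
    · exact Sm.add hN (sa.mul hN ((bd_vb s lam).sq hN)) (sb.mul hN bc)
    · intro t
      have h1 := hX1 t
      have h2 := hX2 t
      have hb0 : 0 ≤ b t := by rw [hb]; positivity
      have h3 := mul_le_mul_of_nonneg_right h1 (sq_nonneg ‖(s t).R.vb‖)
      have h4 := mul_le_mul_of_nonneg_left h2 hb0
      nlinarith
  exact Sm.of_sq hN hsq (fun t => le_rfl)

/-- `v_x` is small in region 1 -/
lemma sm_p : Sm (FF s lam) (NN s) 1 (fun t => ‖(s t).R.p‖) := by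
  have hN := NN_nonneg s
  have hl := C1.len_pos
  refine (Sm.add hN (sm_r s lam)
    ((sm_vb s lam).const_mul (1 / C1.len * Real.sqrt C1.len))).mono fun t => ?_
  rw [abs_norm]
  have : (s t).R.p = (s t).R.r + (s t).R.m • C1.one := by rw [HReg.r]; abel
  rw [this]
  refine (norm_add_le _ _).trans (add_le_add le_rfl (le_of_eq ?_))
  rw [norm_smul, HReg.norm_one_eq, HReg.m, norm_div, Complex.norm_real, Real.norm_of_nonneg hl.le]
  ring

lemma sm_v : Sm (FF s lam) (NN s) 1 (fun t => ‖(s t).R.v‖) := by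
  refine ((sm_p s lam).const_mul (2 * C1.len)).mono fun t => ?_
  rw [abs_norm]
  have h := (s t).R.Dv
  rw [(s t).va] at h
  exact C1.poincare_a h

section high
variable {l0 : ℝ} (hl0 : 0 < l0) (hlam : ∀ t, l0 ≤ |lam t|)
include hl0 hlam

lemma sm_wx : Sm (FF s lam) (NN s) 1 (fun t => ‖(s t).R.wx‖) := by
  have hN := NN_nonneg s
  refine ((Sm.add hN (sm_p s lam) (sm_f1 s lam)).const_mul (1 / l0)).mono fun t => ?_
  rw [abs_norm, one_div, ← div_eq_inv_mul, le_div_iff₀ hl0]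
  have e : (Complex.I * lam t) • (s t).R.wx = (s t).R.p + (s t).R.f1 (lam t) := by
    rw [Reg.f1]; abel
  have e2 : |lam t| * ‖(s t).R.wx‖ = ‖(Complex.I * lam t) • (s t).R.wx‖ := by
    rw [norm_smul, norm_mul, Complex.norm_I, one_mul, Complex.norm_real, Real.norm_eq_abs]
  calc ‖(s t).R.wx‖ * l0 ≤ |lam t| * ‖(s t).R.wx‖ := by
        rw [mul_comm]; exact mul_le_mul_of_nonneg_right (hlam t) (norm_nonneg _)
    _ = ‖(s t).R.p + (s t).R.f1 (lam t)‖ := by rw [e2, e]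
    _ ≤ _ := norm_add_le _ _

lemma sm_wxb : Sm (FF s lam) (NN s) 1 (fun t => ‖(s t).R.wxb‖) := by
  have hN := NN_nonneg s
  refine Sm.of_sq hN (((sm_wx s lam hl0 hlam).mul hN (bd_q s lam)).const_mul 2) fun t => ?_
  have h := (s t).R.Dwx
  rw [(s t).wxa] at h
  exact C1.sq_b h

lemma sm_wb : Sm (FF s lam) (NN s) 1 (fun t => ‖(s t).R.wb‖) := by
  have hN := NN_nonneg s
  refine Sm.of_sq hN (((bd_w s lam).mul_sm hN (sm_wx s lam hl0 hlam)).const_mul 2) fun t => ?_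
  have h := (s t).R.Dw
  rw [(s t).wa] at h
  exact C1.sq_b h

/-- `w_xx` is small in region 1 -/
lemma sm_q : Sm (FF s lam) (NN s) 1 (fun t => ‖(s t).R.q‖) := by
  have hN := NN_nonneg s
  refine Sm.of_mul_sq hN P.β1_pos (W := fun t => P.α1 * ‖(s t).R.p‖ ^ 2
    + P.α1 * (inner ℂ ((s t).R.f1 (lam t)) (s t).R.p : ℂ).re
    + P.α1 * (inner ℂ (s t).R.wx ((s t).R.g1 (lam t)) : ℂ).re
    + P.β1 * (conj (s t).R.wxb * (s t).R.qb).re + (inner ℂ (s t).R.wx (s t).R.S : ℂ).re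
    - P.γ * (inner ℂ (s t).R.q (s t).R.θ : ℂ).re) ?_ ?_
  · refine Sm.sub hN (Sm.add hN (Sm.add hN (Sm.add hN (Sm.add hN ?_ ?_) ?_) ?_) ?_) ?_
    · exact ((sm_p s lam).sq hN).const_mul _
    · exact (sm_inner_l hN (sm_f1 s lam) (bd_p s lam)).const_mul _
    · exact (sm_inner_r hN (bd_wx s lam) (sm_g1 s lam)).const_mul _
    · exact (sm_conj_mul_l hN (sm_wxb s lam hl0 hlam) (bd_qb s lam)).const_mul _
    · exact sm_inner_l hN (sm_wx s lam hl0 hlam) (bd_RS s lam)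
    · exact (sm_inner_r hN (bd_q s lam) (sm_θ s lam)).const_mul _
  · intro t
    have h := (s t).R.equip (lam t)
    rw [(s t).wxa] at h
    simp only [map_zero, zero_mul, sub_zero] at h
    linarith

lemma sm_qb_pb : Sm (FF s lam) (NN s) 1 (fun t => ‖(s t).R.qb‖) ∧
    Sm (FF s lam) (NN s) 1 (fun t => ‖(s t).R.pb‖) := by
  have hN := NN_nonneg s
  have hl := C1.len_pos; have hβ := P.β1_pos; have hα := P.α1_pos
  have hW : Sm (FF s lam) (NN s) (1 + 1) (fun t => (s t).R.WA (lam t)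
      - 2 * (inner ℂ (s t).R.q (C1.A (s t).R.S) : ℂ).re) := by
    unfold Reg.WA
    have hq := sm_q s lam hl0 hlam
    refine Sm.sub hN (Sm.sub hN (Sm.sub hN (Sm.add hN ?_ ?_) ?_) ?_) ?_
    · exact (hq.sq hN).const_mul _
    · exact ((sm_p s lam).sq hN).const_mul _
    · exact (sm_inner_r hN (bd_q s lam) (sm_A C1 (sm_θ1 s lam))).const_mul (2 * P.γ)
    · refine Sm.const_mul _ (Sm.add hN ?_ ?_)
      · exact (sm_inner_r hN (bd_q s lam) (sm_A C1 (sm_g1 s lam))).const_mul _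
      · exact (sm_inner_r hN (bd_p s lam) (sm_A C1 (sm_f2 s lam))).const_mul _
    · exact (sm_inner_l hN hq (bd_A C1 (bd_RS s lam))).const_mul _
  constructor
  · refine Sm.of_mul_sq hN (c := C1.len * P.β1) (by positivity) hW fun t => ?_
    rw [← (s t).R.trace_id_b (lam t)]
    have : 0 ≤ C1.len * (P.α1 * ‖(s t).R.pb‖ ^ 2) := by positivity
    nlinarith
  · refine Sm.of_mul_sq hN (c := C1.len * P.α1) (by positivity) hW fun t => ?_
    rw [← (s t).R.trace_id_b (lam t)]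
    have : 0 ≤ C1.len * (P.β1 * ‖(s t).R.qb‖ ^ 2) := by positivity
    nlinarith

/-- the elastic region is small as well -/
lemma sm_Q : Sm (FF s lam) (NN s) (1 + 1) (fun t => P.β2 * ‖(s t).Q.q‖ ^ 2
    + P.α2 * ‖(s t).Q.p‖ ^ 2 + 3 * P.ρ2 * ‖(s t).Q.v‖ ^ 2) := by
  have hN := NN_nonneg s
  have hl := C2.len_pos; have hβ := P.β2_pos
  obtain ⟨hqb, hpb⟩ := sm_qb_pb s lam hl0 hlam
  have hqa : Sm (FF s lam) (NN s) 1 (fun t => ‖(s t).Q.qa‖) := by
    refine (hqb.const_mul (P.β1 / P.β2)).mono fun t => ?_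
    rw [abs_norm]
    have h := congrArg norm (s t).mq
    rw [norm_mul, norm_mul, Complex.norm_real, Complex.norm_real,
      Real.norm_of_nonneg P.β1_pos.le, Real.norm_of_nonneg P.β2_pos.le] at h
    rw [div_mul_eq_mul_div, le_div_iff₀ hβ, mul_comm]
    exact h.le
  have hpa : Sm (FF s lam) (NN s) 1 (fun t => ‖(s t).Q.pa‖) :=
    hpb.mono fun t => by rw [abs_norm, (s t).mp]
  have hva : Sm (FF s lam) (NN s) 1 (fun t => ‖(s t).Q.va‖) :=
    (sm_vb s lam).mono fun t => by rw [abs_norm, (s t).mv]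
  have hwa : Sm (FF s lam) (NN s) 1 (fun t => ‖(s t).Q.wa‖) :=
    (sm_wb s lam hl0 hlam).mono fun t => by rw [abs_norm, (s t).mw]
  have hwxa : Sm (FF s lam) (NN s) 1 (fun t => ‖(s t).Q.wxa‖) :=
    (sm_wxb s lam hl0 hlam).mono fun t => by rw [abs_norm, (s t).mwx]
  have hSa : Bd (FF s lam) (NN s) 1 (fun t => ‖(s t).Q.Sa‖) :=
    (bd_RSb s lam).mono fun t => by rw [abs_norm, (s t).mS]
  have hid : ∀ t, P.β2 * ‖(s t).Q.q‖ ^ 2 + P.α2 * ‖(s t).Q.p‖ ^ 2 + 3 * P.ρ2 * ‖(s t).Q.v‖ ^ 2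
      = _ := fun t => (s t).Q.exact (lam t) rfl (s t).Qwb
  simp only [hid]
  refine Sm.add hN (Sm.add hN (Sm.sub hN (Sm.sub hN (Sm.add hN (Sm.add hN (Sm.add hN (Sm.add hN
    ?_ ?_) ?_) ?_) ?_) ?_) ?_) ?_) ?_
  · exact (((hqa.sq hN).const_mul _).add hN ((hpa.sq hN).const_mul _)).const_mul _
  · exact (sm_conj_mul_l hN hwxa hSa).const_mul _
  · exact (sm_conj_mul_l hN hwa hSa).const_mul _
  · exact (hva.sq hN).const_mul _
  · refine Sm.const_mul _ (Sm.add hN ?_ ?_)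
    · exact (sm_inner_r hN (bd_Qq s lam) (sm_B C2 (sm_Qg1 s lam))).const_mul _
    · exact (sm_inner_r hN (bd_Qp s lam) (sm_B C2 (sm_Qf2 s lam))).const_mul _
  · exact (sm_inner_l hN (sm_Qf0 s lam) (bd_Qv s lam)).const_mul _
  · exact (sm_inner_r hN (bd_Qw s lam) (sm_Qg0 s lam)).const_mul _
  · exact (sm_inner_l hN (sm_Qf1 s lam) (bd_B C2 (bd_Qv s lam))).const_mul _
  · exact (sm_inner_r hN (bd_Qwx s lam) (sm_B C2 (sm_Qg0 s lam))).const_mul _

lemma sm_N : Sm (FF s lam) (NN s) 1 (NN s) := by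
  have hN := NN_nonneg s
  have hQ := sm_Q s lam hl0 hlam
  refine Sm.of_sq hN (W := fun t => P.ρ1 * ‖(s t).R.v‖ ^ 2 + P.α1 * ‖(s t).R.p‖ ^ 2
    + P.β1 * ‖(s t).R.q‖ ^ 2 + P.ρ0 * ‖(s t).R.θ‖ ^ 2 + (P.β2 * ‖(s t).Q.q‖ ^ 2
    + P.α2 * ‖(s t).Q.p‖ ^ 2 + 3 * P.ρ2 * ‖(s t).Q.v‖ ^ 2)) ?_ ?_
  · refine Sm.add hN (Sm.add hN (Sm.add hN (Sm.add hN ?_ ?_) ?_) ?_) hQ
    · exact ((sm_v s lam).sq hN).const_mul _
    · exact ((sm_p s lam).sq hN).const_mul _
    · exact ((sm_q s lam hl0 hlam).sq hN).const_mul _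
    · exact ((sm_θ s lam).sq hN).const_mul _
  · intro t
    have h := (s t).X_sq
    have hρ := P.ρ2_pos
    have : 0 ≤ P.ρ2 * ‖(s t).Q.v‖ ^ 2 := by positivity
    rw [show NN s t ^ 2 = ‖(s t).X‖ ^ 2 from rfl, h]
    linarith

end high

/-- a small norm yields an a priori bound -/
lemma bound_of_sm (h : Sm (FF s lam) (NN s) 1 (NN s)) : ∃ M > 0, ∀ t, NN s t ≤ M * FF s lam t := by
  obtain ⟨δ, hδ, H⟩ := h (1 / 2) (by norm_num)
  refine ⟨1 / δ, by positivity, fun t => ?_⟩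
  by_cases hF : FF s lam t ≤ δ * NN s t
  · have := H t hF
    rw [abs_of_nonneg (NN_nonneg s t), pow_one] at this
    have h0 : NN s t ≤ 0 := by linarith
    have := FF_nonneg s lam t
    have : 0 ≤ 1 / δ * FF s lam t := by positivity
    linarith
  · push Not at hF
    rw [one_div, ← div_eq_inv_mul, le_div_iff₀ hδ]
    linarith

/-- the case of zero frequency -/
lemma sm_N_zero (h0 : ∀ t, lam t = 0) : Sm (FF s lam) (NN s) 1 (NN s) := by
  have hN := NN_nonneg s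
  -- at zero frequency the residuals are the image under the generator
  have sp1 : Sm (FF s lam) (NN s) 1 (fun t => ‖(s t).R.p1‖) :=
    (sm_f2 s lam).mono fun t => by rw [abs_norm, Reg.f2, h0 t]; simp
  have sQp1 : Sm (FF s lam) (NN s) 1 (fun t => ‖(s t).Q.p1‖) :=
    (sm_Qf2 s lam).mono fun t => by rw [abs_norm, Reg.f2, h0 t]; simp
  have sz1 : Sm (FF s lam) (NN s) 1 (fun t => ‖(s t).R.z1‖) :=
    (sm_g1 s lam).mono fun t => by rw [abs_norm, Reg.g1, h0 t]; simp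
  have sQz1 : Sm (FF s lam) (NN s) 1 (fun t => ‖(s t).Q.z1‖) :=
    (sm_Qg1 s lam).mono fun t => by rw [abs_norm, Reg.g1, h0 t]; simp
  have sz : Sm (FF s lam) (NN s) 1 (fun t => ‖(s t).R.z‖) :=
    (sm_g0 s lam).mono fun t => by rw [abs_norm, Reg.g0, h0 t]; simp
  have sQz : Sm (FF s lam) (NN s) 1 (fun t => ‖(s t).Q.z‖) :=
    (sm_Qg0 s lam).mono fun t => by rw [abs_norm, Reg.g0, h0 t]; simp
  have sp : Sm (FF s lam) (NN s) 1 (fun t => ‖(s t).R.p‖) := by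
    refine (sp1.const_mul (2 * C1.len)).mono fun t => ?_
    have h := (s t).R.Dp
    rw [(s t).pa] at h
    rw [abs_norm]; exact C1.poincare_a h
  have sv : Sm (FF s lam) (NN s) 1 (fun t => ‖(s t).R.v‖) := by
    refine (sp.const_mul (2 * C1.len)).mono fun t => ?_
    have h := (s t).R.Dv
    rw [(s t).va] at h
    rw [abs_norm]; exact C1.poincare_a h
  have sQp : Sm (FF s lam) (NN s) 1 (fun t => ‖(s t).Q.p‖) := by
    refine (sQp1.const_mul (2 * C2.len)).mono fun t => ?_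
    have h := (s t).Q.Dp
    rw [(s t).Qpb] at h
    rw [abs_norm]; exact C2.poincare_b h
  have sQv : Sm (FF s lam) (NN s) 1 (fun t => ‖(s t).Q.v‖) := by
    refine (sQp.const_mul (2 * C2.len)).mono fun t => ?_
    have h := (s t).Q.Dv
    rw [(s t).Qvb] at h
    rw [abs_norm]; exact C2.poincare_b h
  have sq' : Sm (FF s lam) (NN s) (1 + 1) (fun t => P.β1 * ‖(s t).R.q‖ ^ 2
      + P.β2 * ‖(s t).Q.q‖ ^ 2) := by
    have hid : ∀ t, P.β1 * ‖(s t).R.q‖ ^ 2 + P.β2 * ‖(s t).Q.q‖ ^ 2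
        = -(P.γ * (inner ℂ (s t).R.q (s t).R.θ : ℂ).re)
          - P.α1 * (inner ℂ (s t).R.wx (s t).R.z1 : ℂ).re
          - P.α2 * (inner ℂ (s t).Q.wx (s t).Q.z1 : ℂ).re
          - P.ρ1 * (inner ℂ (s t).R.w (s t).R.z : ℂ).re
          - P.ρ2 * (inner ℂ (s t).Q.w (s t).Q.z : ℂ).re := by
      intro t
      have h1 := (s t).R.equip 0
      have h2 := (s t).Q.equip 0
      have f1 : (s t).R.f1 0 = -(s t).R.p := by rw [Reg.f1]; simp
      have f1' : (s t).Q.f1 0 = -(s t).Q.p := by rw [Reg.f1]; simp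
      have g1 : (s t).R.g1 0 = -(s t).R.z1 := by rw [Reg.g1]; simp
      have g1' : (s t).Q.g1 0 = -(s t).Q.z1 := by rw [Reg.g1]; simp
      rw [f1, g1, (s t).wxa, inner_neg_left, inner_neg_right, inner_self_c] at h1
      rw [f1', g1', (s t).Qwxb, (s t).mwx, inner_neg_left, inner_neg_right, inner_self_c] at h2
      have h3 := congrArg Complex.re (C1.ibp (s t).R.DS (s t).R.Dw)
      have h4 := congrArg Complex.re (C2.ibp (s t).Q.DS (s t).Q.Dw)
      rw [(s t).wa] at h3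
      rw [(s t).Qwb, (s t).mw, (s t).mS] at h4
      simp only [map_zero, zero_mul, sub_zero, zero_sub, Complex.neg_re, Complex.ofReal_re,
        Complex.add_re, inner_smul_right, Complex.re_ofReal_mul] at h1 h2 h3 h4
      have h5 : P.β2 * (conj (s t).R.wxb * (s t).Q.qa).re
          = P.β1 * (conj (s t).R.wxb * (s t).R.qb).re := by
        rw [← Complex.re_ofReal_mul, ← Complex.re_ofReal_mul]
        congr 1
        linear_combination (conj (s t).R.wxb) * (s t).mq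
      linear_combination h1 + h2 + h3 + h4 - h5
    simp only [hid]
    refine Sm.sub hN (Sm.sub hN (Sm.sub hN (Sm.sub hN ?_ ?_) ?_) ?_) ?_
    · exact ((sm_inner_r hN (bd_q s lam) (sm_θ s lam)).const_mul _).neg
    · exact (sm_inner_r hN (bd_wx s lam) sz1).const_mul _
    · exact (sm_inner_r hN (bd_Qwx s lam) sQz1).const_mul _
    · exact (sm_inner_r hN (bd_w s lam) sz).const_mul _
    · exact (sm_inner_r hN (bd_Qw s lam) sQz).const_mul _
  refine Sm.of_sq hN (W := fun t => P.ρ1 * ‖(s t).R.v‖ ^ 2 + P.α1 * ‖(s t).R.p‖ ^ 2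
    + P.ρ0 * ‖(s t).R.θ‖ ^ 2 + P.ρ2 * ‖(s t).Q.v‖ ^ 2
    + P.α2 * ‖(s t).Q.p‖ ^ 2 + (P.β1 * ‖(s t).R.q‖ ^ 2 + P.β2 * ‖(s t).Q.q‖ ^ 2)) ?_ ?_
  · refine Sm.add hN (Sm.add hN (Sm.add hN (Sm.add hN (Sm.add hN ?_ ?_) ?_) ?_) ?_) sq'
    · exact (sv.sq hN).const_mul _
    · exact (sp.sq hN).const_mul _
    · exact ((sm_θ s lam).sq hN).const_mul _
    · exact (sQv.sq hN).const_mul _
    · exact (sQp.sq hN).const_mul _
  · intro t
    have h := (s t).X_sq
    rw [show NN s t ^ 2 = ‖(s t).X‖ ^ 2 from rfl, h]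
    linarith

/-- **The resolvent estimate on the whole imaginary axis.** -/
theorem resolvent_bound (C1 : Calc H1) (C2 : Calc H2) (P : Params) :
    ∃ M > 0, ∀ (s : SD C1 C2 P) (l : ℝ), ‖s.X‖ ≤ M * ‖(Complex.I * l) • s.X - s.Y‖ := by
  obtain ⟨M0, hM0, H0⟩ := bound_of_sm (T := SD C1 C2 P) (fun s => s) (fun _ => 0)
    (sm_N_zero _ _ (fun _ => rfl))
  set l0 : ℝ := 1 / (2 * M0) with hl0
  have hl0p : 0 < l0 := by positivity
  obtain ⟨M1, hM1, H1⟩ := bound_of_sm (T := {t : SD C1 C2 P × ℝ // l0 ≤ |t.2|})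
    (fun t => t.1.1) (fun t => t.1.2) (sm_N _ _ hl0p (fun t => t.2))
  refine ⟨M1 + 2 * M0, by positivity, fun s l => ?_⟩
  have hres : 0 ≤ ‖(Complex.I * l) • s.X - s.Y‖ := norm_nonneg _
  rcases le_or_gt l0 |l| with h | h
  · have := H1 ⟨(s, l), h⟩
    have h2 : ‖s.X‖ ≤ M1 * ‖(Complex.I * l) • s.X - s.Y‖ := this
    nlinarith
  · have h1 : ‖s.X‖ ≤ M0 * ‖(Complex.I * ((0 : ℝ) : ℂ)) • s.X - s.Y‖ := H0 s
    have h2 : ‖(Complex.I * ((0 : ℝ) : ℂ)) • s.X - s.Y‖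
        ≤ ‖(Complex.I * l) • s.X - s.Y‖ + |l| * ‖s.X‖ := by
      have e : (Complex.I * ((0 : ℝ) : ℂ)) • s.X - s.Y
          = ((Complex.I * l) • s.X - s.Y) - (Complex.I * l) • s.X := by
        simp
      rw [e]
      refine (norm_sub_le _ _).trans (add_le_add le_rfl (le_of_eq ?_))
      rw [norm_smul, norm_mul, Complex.norm_I, one_mul, Complex.norm_real, Real.norm_eq_abs]
    have h3 : M0 * (|l| * ‖s.X‖) ≤ 1 / 2 * ‖s.X‖ := by
      have : M0 * |l| ≤ 1 / 2 := by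
        calc M0 * |l| ≤ M0 * l0 := by gcongr
          _ = 1 / 2 := by rw [hl0]; field_simp
      have := mul_le_mul_of_nonneg_right this (norm_nonneg s.X)
      linarith
    have h4 : ‖s.X‖ ≤ M0 * (‖(Complex.I * l) • s.X - s.Y‖ + |l| * ‖s.X‖) :=
      h1.trans (mul_le_mul_of_nonneg_left h2 hM0.le)
    nlinarith

end Pool.Agent.Lib.MP_542e45_an
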