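import Pool.Agent.Lib.MP_542e45_an.Family

/-! Bounds of the flux, the acceleration and the boundary traces. -/

open scoped ComplexConjugate

namespace Pool.Agent.Lib.MP_542e45_an

open Calc

variable {H1 : Type*} [NormedAddCommGroup H1] [InnerProductSpace ℂ H1]
  {H2 : Type*} [NormedAddCommGroup H2] [InnerProductSpace ℂ H2]
  {C1 : Calc H1} {C2 : Calc H2} {P : Params}

namespace Reg

variable {H : Type*} [NormedAddCommGroup H] [InnerProductSpace ℂ H] {C : Calc H}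
  {ρ α β γ : ℝ} (R : Reg C ρ α β γ)

lemma S_trace_b (hρ : 0 ≤ ρ) : ‖R.Sb‖ ^ 2 ≤ (1 / C.len + ρ) * (‖R.S‖ ^ 2 + ‖R.z‖ ^ 2) := by
  have h := C.trace_b R.DS
  rw [norm_smul, Complex.norm_real, Real.norm_of_nonneg hρ] at h
  have hl := C.len_pos
  have h2 : C.len * ‖R.Sb‖ ^ 2 ≤ C.len * ((1 / C.len + ρ) * (‖R.S‖ ^ 2 + ‖R.z‖ ^ 2)) := by
    have e : C.len * ((1 / C.len + ρ) * (‖R.S‖ ^ 2 + ‖R.z‖ ^ 2))
        = (1 + C.len * ρ) * (‖R.S‖ ^ 2 + ‖R.z‖ ^ 2) := by field_simp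
    rw [e]
    have h3 : 0 ≤ C.len * ρ := by positivity
    have h4 : 0 ≤ C.len * ρ * (‖R.S‖ - ‖R.z‖) ^ 2 := by positivity
    nlinarith [sq_nonneg ‖R.z‖]
  exact le_of_mul_le_mul_left h2 hl

lemma S_trace_a (hρ : 0 ≤ ρ) : ‖R.Sa‖ ^ 2 ≤ (1 / C.len + ρ) * (‖R.S‖ ^ 2 + ‖R.z‖ ^ 2) := by
  have h := C.trace_a R.DS
  rw [norm_smul, Complex.norm_real, Real.norm_of_nonneg hρ] at h
  have hl := C.len_pos
  have h2 : C.len * ‖R.Sa‖ ^ 2 ≤ C.len * ((1 / C.len + ρ) * (‖R.S‖ ^ 2 + ‖R.z‖ ^ 2)) := by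
    have e : C.len * ((1 / C.len + ρ) * (‖R.S‖ ^ 2 + ‖R.z‖ ^ 2))
        = (1 + C.len * ρ) * (‖R.S‖ ^ 2 + ‖R.z‖ ^ 2) := by field_simp
    rw [e]
    have h3 : 0 ≤ C.len * ρ := by positivity
    have h4 : 0 ≤ C.len * ρ * (‖R.S‖ - ‖R.z‖) ^ 2 := by positivity
    nlinarith [sq_nonneg ‖R.z‖]
  exact le_of_mul_le_mul_left h2 hl

end Reg

namespace SD

/-- size of flux and acceleration -/
noncomputable def sz (s : SD C1 C2 P) : ℝ :=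
  Real.sqrt (‖s.R.z‖ ^ 2 + ‖s.R.S‖ ^ 2 + ‖s.Q.z‖ ^ 2 + ‖s.Q.S‖ ^ 2)

lemma sz_nonneg (s : SD C1 C2 P) : 0 ≤ s.sz := Real.sqrt_nonneg _

lemma sz_sq (s : SD C1 C2 P) :
    s.sz ^ 2 = ‖s.R.z‖ ^ 2 + ‖s.R.S‖ ^ 2 + ‖s.Q.z‖ ^ 2 + ‖s.Q.S‖ ^ 2 :=
  Real.sq_sqrt (by positivity)

/-- size of the traces -/
noncomputable def tr (s : SD C1 C2 P) : ℝ := ‖s.R.qa‖ + ‖s.R.qb‖ + ‖s.Q.qb‖

/-- size of the stresses -/
noncomputable def st (s : SD C1 C2 P) : ℝ := ‖s.R.σ‖ + ‖s.Q.σ‖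

lemma Rz_le (s : SD C1 C2 P) : ‖s.R.z‖ ≤ s.sz := by
  apply abs_le_of_sq_le_sq' _ s.sz_nonneg |>.2
  rw [s.sz_sq]; nlinarith [sq_nonneg ‖s.R.S‖, sq_nonneg ‖s.Q.z‖, sq_nonneg ‖s.Q.S‖]
lemma RS_le (s : SD C1 C2 P) : ‖s.R.S‖ ≤ s.sz := by
  apply abs_le_of_sq_le_sq' _ s.sz_nonneg |>.2
  rw [s.sz_sq]; nlinarith [sq_nonneg ‖s.R.z‖, sq_nonneg ‖s.Q.z‖, sq_nonneg ‖s.Q.S‖]
lemma Qz_le (s : SD C1 C2 P) : ‖s.Q.z‖ ≤ s.sz := by
  apply abs_le_of_sq_le_sq' _ s.sz_nonneg |>.2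
  rw [s.sz_sq]; nlinarith [sq_nonneg ‖s.R.S‖, sq_nonneg ‖s.R.z‖, sq_nonneg ‖s.Q.S‖]
lemma QS_le (s : SD C1 C2 P) : ‖s.Q.S‖ ≤ s.sz := by
  apply abs_le_of_sq_le_sq' _ s.sz_nonneg |>.2
  rw [s.sz_sq]; nlinarith [sq_nonneg ‖s.R.S‖, sq_nonneg ‖s.R.z‖, sq_nonneg ‖s.Q.z‖]

/-- constant of the trace bounds for the fluxes -/
noncomputable def cS (C1 : Calc H1) (C2 : Calc H2) (P : Params) : ℝ :=
  1 + (1 / C1.len + P.ρ1) + (1 / C2.len + P.ρ2)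

lemma cS_pos : 0 < cS C1 C2 P := by
  have h1 := C1.len_pos; have h2 := C2.len_pos; have h3 := P.ρ1_pos; have h4 := P.ρ2_pos
  unfold cS; positivity

lemma trace_aux {c x s2 k : ℝ} (h : x ^ 2 ≤ k * s2) (hk : k ≤ c ^ 2) (hs : 0 ≤ s2)
    (hc : 0 ≤ c) {s : ℝ} (hs' : s2 ≤ s ^ 2) (h0 : 0 ≤ s) : x ≤ c * s := by
  apply abs_le_of_sq_le_sq' _ (by positivity) |>.2
  calc x ^ 2 ≤ k * s2 := h
    _ ≤ c ^ 2 * s2 := by gcongr
    _ ≤ c ^ 2 * s ^ 2 := by gcongr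
    _ = _ := by ring

lemma RSa_le (s : SD C1 C2 P) : ‖s.R.Sa‖ ≤ cS C1 C2 P * s.sz := by
  have h1 := C1.len_pos; have h2 := C2.len_pos; have h3 := P.ρ1_pos; have h4 := P.ρ2_pos
  refine trace_aux (s.R.S_trace_a P.ρ1_pos.le) ?_ (by positivity) cS_pos.le ?_
    s.sz_nonneg
  · have e1 : 0 ≤ 1 / C1.len + P.ρ1 := by positivity
    have e2 : 0 ≤ 1 / C2.len + P.ρ2 := by positivity
    unfold cS; nlinarith
  · rw [s.sz_sq]; nlinarith [sq_nonneg ‖s.Q.z‖, sq_nonneg ‖s.Q.S‖]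
lemma RSb_le (s : SD C1 C2 P) : ‖s.R.Sb‖ ≤ cS C1 C2 P * s.sz := by
  have h1 := C1.len_pos; have h2 := C2.len_pos; have h3 := P.ρ1_pos; have h4 := P.ρ2_pos
  refine trace_aux (s.R.S_trace_b P.ρ1_pos.le) ?_ (by positivity) cS_pos.le ?_
    s.sz_nonneg
  · have e1 : 0 ≤ 1 / C1.len + P.ρ1 := by positivity
    have e2 : 0 ≤ 1 / C2.len + P.ρ2 := by positivity
    unfold cS; nlinarith
  · rw [s.sz_sq]; nlinarith [sq_nonneg ‖s.Q.z‖, sq_nonneg ‖s.Q.S‖]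
lemma QSb_le (s : SD C1 C2 P) : ‖s.Q.Sb‖ ≤ cS C1 C2 P * s.sz := by
  have h1 := C1.len_pos; have h2 := C2.len_pos; have h3 := P.ρ1_pos; have h4 := P.ρ2_pos
  refine trace_aux (s.Q.S_trace_b P.ρ2_pos.le) ?_ (by positivity) cS_pos.le ?_
    s.sz_nonneg
  · have e1 : 0 ≤ 1 / C1.len + P.ρ1 := by positivity
    have e2 : 0 ≤ 1 / C2.len + P.ρ2 := by positivity
    unfold cS; nlinarith
  · rw [s.sz_sq]; nlinarith [sq_nonneg ‖s.R.z‖, sq_nonneg ‖s.R.S‖]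

/-- the combined elliptic identity -/
lemma ellip_total (s : SD C1 C2 P) :
    P.α2 * (P.α1 * P.ρ1 * ‖s.R.z‖ ^ 2 + ‖s.R.S‖ ^ 2)
      + P.α1 * (P.α2 * P.ρ2 * ‖s.Q.z‖ ^ 2 + ‖s.Q.S‖ ^ 2)
      = -(P.α2 * P.β1) * ((conj s.R.Sb * s.R.qb).re - (conj s.R.Sa * s.R.qa).re)
        + P.α2 * P.ρ1 * (inner ℂ s.R.z s.R.σ : ℂ).re
        - P.α1 * (P.β2 * (conj s.Q.Sb * s.Q.qb).re - P.β1 * (conj s.R.Sb * s.R.qb).re)
        + P.α1 * P.ρ2 * (inner ℂ s.Q.z s.Q.σ : ℂ).re := by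
  have h1 := s.R.ellip
  have h2 := s.Q.ellip
  rw [s.za] at h1
  rw [s.Qzb, s.mS, s.mz] at h2
  simp only [mul_zero, sub_zero, zero_sub, Complex.neg_re, Complex.sub_re] at h1 h2
  have h3 : P.β2 * (conj s.R.Sb * s.Q.qa).re = P.β1 * (conj s.R.Sb * s.R.qb).re := by
    rw [← Complex.re_ofReal_mul, ← Complex.re_ofReal_mul]
    congr 1
    linear_combination (conj s.R.Sb) * s.mq
  linear_combination P.α2 * h1 + P.α1 * h2 + P.α1 * h3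

lemma sz_bound (C1 : Calc H1) (C2 : Calc H2) (P : Params) :
    ∃ K > 0, ∀ s : SD C1 C2 P, s.sz ≤ K * (s.tr + s.st) := by
  have hα1 := P.α1_pos; have hα2 := P.α2_pos; have hβ1 := P.β1_pos; have hβ2 := P.β2_pos
  have hρ1 := P.ρ1_pos; have hρ2 := P.ρ2_pos
  have hcS : 0 < cS C1 C2 P := cS_pos
  set c0 := min (min (P.α2 * (P.α1 * P.ρ1)) P.α2) (min (P.α1 * (P.α2 * P.ρ2)) P.α1) with hc0
  have hc0p : 0 < c0 := by
    apply lt_min <;> apply lt_min <;> positivity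
  set K2 : ℝ := cS C1 C2 P * (2 * (P.α2 * P.β1) + P.α1 * P.β2 + P.α1 * P.β1) + P.α2 * P.ρ1
    + P.α1 * P.ρ2
    with hK2
  have hK2p : 0 < K2 := by positivity
  refine ⟨K2 / c0, by positivity, fun s => ?_⟩
  have hsz := s.sz_nonneg
  have htr : 0 ≤ s.tr := by unfold tr; positivity
  have hst : 0 ≤ s.st := by unfold st; positivity
  have hE := s.ellip_total
  have hlow : c0 * s.sz ^ 2 ≤ P.α2 * (P.α1 * P.ρ1 * ‖s.R.z‖ ^ 2 + ‖s.R.S‖ ^ 2)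
      + P.α1 * (P.α2 * P.ρ2 * ‖s.Q.z‖ ^ 2 + ‖s.Q.S‖ ^ 2) := by
    rw [s.sz_sq]
    have a1 : c0 ≤ P.α2 * (P.α1 * P.ρ1) := (min_le_left _ _).trans (min_le_left _ _)
    have a2 : c0 ≤ P.α2 := (min_le_left _ _).trans (min_le_right _ _)
    have a3 : c0 ≤ P.α1 * (P.α2 * P.ρ2) := (min_le_right _ _).trans (min_le_left _ _)
    have a4 : c0 ≤ P.α1 := (min_le_right _ _).trans (min_le_right _ _)
    have b1 := mul_le_mul_of_nonneg_right a1 (sq_nonneg ‖s.R.z‖)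
    have b2 := mul_le_mul_of_nonneg_right a2 (sq_nonneg ‖s.R.S‖)
    have b3 := mul_le_mul_of_nonneg_right a3 (sq_nonneg ‖s.Q.z‖)
    have b4 := mul_le_mul_of_nonneg_right a4 (sq_nonneg ‖s.Q.S‖)
    linarith
  have q1 : ‖s.R.qa‖ ≤ s.tr := by unfold tr; linarith [norm_nonneg s.R.qb, norm_nonneg s.Q.qb]
  have q2 : ‖s.R.qb‖ ≤ s.tr := by unfold tr; linarith [norm_nonneg s.R.qa, norm_nonneg s.Q.qb]
  have q3 : ‖s.Q.qb‖ ≤ s.tr := by unfold tr; linarith [norm_nonneg s.R.qa, norm_nonneg s.R.qb]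
  have r1 : ‖s.R.σ‖ ≤ s.st := by unfold st; linarith [norm_nonneg s.Q.σ]
  have r2 : ‖s.Q.σ‖ ≤ s.st := by unfold st; linarith [norm_nonneg s.R.σ]
  have t1 : |(conj s.R.Sb * s.R.qb).re| ≤ cS C1 C2 P * s.sz * s.tr :=
    (abs_re_conj_mul_le _ _).trans (mul_le_mul s.RSb_le q2 (norm_nonneg _) (by positivity))
  have t2 : |(conj s.R.Sa * s.R.qa).re| ≤ cS C1 C2 P * s.sz * s.tr :=
    (abs_re_conj_mul_le _ _).trans (mul_le_mul s.RSa_le q1 (norm_nonneg _) (by positivity))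
  have t3 : |(conj s.Q.Sb * s.Q.qb).re| ≤ cS C1 C2 P * s.sz * s.tr :=
    (abs_re_conj_mul_le _ _).trans (mul_le_mul s.QSb_le q3 (norm_nonneg _) (by positivity))
  have t4 : |(inner ℂ s.R.z s.R.σ : ℂ).re| ≤ s.sz * s.st :=
    (abs_re_inner_le' _ _).trans (mul_le_mul s.Rz_le r1 (norm_nonneg _) hsz)
  have t5 : |(inner ℂ s.Q.z s.Q.σ : ℂ).re| ≤ s.sz * s.st :=
    (abs_re_inner_le' _ _).trans (mul_le_mul s.Qz_le r2 (norm_nonneg _) hsz)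
  have hst' : 0 ≤ s.sz * s.st := by positivity
  have htr' : 0 ≤ cS C1 C2 P * s.sz * s.tr := by positivity
  have u1 : -(P.α2 * P.β1) * ((conj s.R.Sb * s.R.qb).re - (conj s.R.Sa * s.R.qa).re)
      ≤ 2 * (P.α2 * P.β1) * (cS C1 C2 P * s.sz * s.tr) := by
    have := neg_abs_le (conj s.R.Sb * s.R.qb).re
    have := le_abs_self (conj s.R.Sa * s.R.qa).re
    have hh : -((conj s.R.Sb * s.R.qb).re - (conj s.R.Sa * s.R.qa).re)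
      ≤ 2 * (cS C1 C2 P * s.sz * s.tr) := by linarith
    have := mul_le_mul_of_nonneg_left hh (by positivity : 0 ≤ P.α2 * P.β1)
    linarith
  have u2 : P.α2 * P.ρ1 * (inner ℂ s.R.z s.R.σ : ℂ).re ≤ P.α2 * P.ρ1 * (s.sz * s.st) :=
    mul_le_mul_of_nonneg_left ((le_abs_self _).trans t4) (by positivity)
  have u3 : -(P.α1 * (P.β2 * (conj s.Q.Sb * s.Q.qb).re - P.β1 * (conj s.R.Sb * s.R.qb).re))
      ≤ (P.α1 * P.β2 + P.α1 * P.β1) * (cS C1 C2 P * s.sz * s.tr) := by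
    have e1 : -(conj s.Q.Sb * s.Q.qb).re ≤ cS C1 C2 P * s.sz * s.tr := (neg_le_abs _).trans t3
    have e2 : (conj s.R.Sb * s.R.qb).re ≤ cS C1 C2 P * s.sz * s.tr := (le_abs_self _).trans t1
    have e3 := mul_le_mul_of_nonneg_left e1 (by positivity : 0 ≤ P.α1 * P.β2)
    have e4 := mul_le_mul_of_nonneg_left e2 (by positivity : 0 ≤ P.α1 * P.β1)
    linarith
  have u4 : P.α1 * P.ρ2 * (inner ℂ s.Q.z s.Q.σ : ℂ).re ≤ P.α1 * P.ρ2 * (s.sz * s.st) :=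
    mul_le_mul_of_nonneg_left ((le_abs_self _).trans t5) (by positivity)
  have hmain : c0 * s.sz ^ 2 ≤ K2 * s.sz * (s.tr + s.st) := by
    have e5 : K2 * s.sz * (s.tr + s.st) = (2 * (P.α2 * P.β1) + P.α1 * P.β2 + P.α1 * P.β1)
        * (cS C1 C2 P * s.sz * s.tr) + (P.α2 * P.ρ1 + P.α1 * P.ρ2) * (s.sz * s.st)
        + ((2 * (P.α2 * P.β1) + P.α1 * P.β2 + P.α1 * P.β1) * cS C1 C2 P * (s.sz * s.st)
          + (P.α2 * P.ρ1 + P.α1 * P.ρ2) * (s.sz * s.tr)) := by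
      rw [hK2]; ring
    have e6 : 0 ≤ (2 * (P.α2 * P.β1) + P.α1 * P.β2 + P.α1 * P.β1) * cS C1 C2 P * (s.sz * s.st)
          + (P.α2 * P.ρ1 + P.α1 * P.ρ2) * (s.sz * s.tr) := by positivity
    rw [e5]
    linarith
  rw [div_mul_eq_mul_div, le_div_iff₀ hc0p]
  by_cases h0 : s.sz = 0
  · rw [h0]; simp only [zero_mul]; positivity
  · have hpos : 0 < s.sz := lt_of_le_of_ne hsz (Ne.symm h0)
    have : s.sz * (s.sz * c0) ≤ s.sz * (K2 * (s.tr + s.st)) := by nlinarith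
    exact le_of_mul_le_mul_left this hpos

end SD

end Pool.Agent.Lib.MP_542e45_an
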