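import Pool.Agent.Lib.MP_542e45_an.Defs

/-! Calculus of `IsH1`: continuity, product rule, uniqueness of the weak derivative. -/

open MeasureTheory Filter Topology

namespace Pool.Agent.Lib.MP_542e45_an

open Set AbsolutelyContinuousOnInterval

lemma ac_of_dominated {f : ℝ → ℂ} {g : ℝ → ℝ} {a b : ℝ}
    (hg : AbsolutelyContinuousOnInterval g a b)
    (h : ∀ x ∈ uIcc a b, ∀ y ∈ uIcc a b, dist (f x) (f y) ≤ dist (g x) (g y)) :
    AbsolutelyContinuousOnInterval f a b := by
  unfold AbsolutelyContinuousOnInterval at hg ⊢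
  refine squeeze_zero' (Eventually.of_forall fun E => Finset.sum_nonneg fun _ _ => dist_nonneg) ?_ hg
  have : ∀ᶠ (E : ℕ × (ℕ → ℝ × ℝ)) in totalLengthFilter ⊓ 𝓟 (disjWithin a b),
      E ∈ disjWithin a b := eventually_inf_principal.mpr (by simp)
  filter_upwards [this] with E hE
  exact Finset.sum_le_sum fun i hi => h _ (hE.1 i hi).1 _ (hE.1 i hi).2

lemma ac_integral {f : ℝ → ℂ} {a b : ℝ} (hab : a ≤ b) (hf : IntervalIntegrable f volume a b) :
    AbsolutelyContinuousOnInterval (fun x => ∫ t in a..x, f t) a b := by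
  have hn : IntervalIntegrable (fun t => ‖f t‖) volume a b := hf.norm
  refine ac_of_dominated (hn.absolutelyContinuousOnInterval_intervalIntegral left_mem_uIcc) ?_
  intro x hx y hy
  rw [uIcc_of_le hab] at hx hy
  have hfx : ∀ z ∈ Icc a b, IntervalIntegrable f volume a z := fun z hz =>
    hf.mono_set (by rw [uIcc_of_le hz.1, uIcc_of_le hab]; exact Icc_subset_Icc_right hz.2)
  rw [dist_eq_norm, Real.dist_eq, intervalIntegral.integral_interval_sub_left (hfx x hx) (hfx y hy),
    intervalIntegral.integral_interval_sub_left (hfx x hx).norm (hfx y hy).norm]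
  exact intervalIntegral.norm_integral_le_abs_integral_norm

lemma IsH1.intervalIntegrable {a b : ℝ} (hab : a ≤ b) {f f' : ℝ → ℂ} (h : IsH1 a b f f') :
    IntervalIntegrable f' volume a b := by
  rw [intervalIntegrable_iff_integrableOn_Ioc_of_le hab]
  exact h.1.integrable one_le_two

lemma IsH1.ac {a b : ℝ} (hab : a ≤ b) {f f' : ℝ → ℂ} (h : IsH1 a b f f') :
    AbsolutelyContinuousOnInterval f a b := by
  have h1 := ac_integral hab (h.intervalIntegrable hab)
  unfold AbsolutelyContinuousOnInterval at h1 ⊢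
  refine squeeze_zero' (Eventually.of_forall fun E => Finset.sum_nonneg fun _ _ => dist_nonneg) ?_ h1
  have : ∀ᶠ (E : ℕ × (ℕ → ℝ × ℝ)) in totalLengthFilter ⊓ 𝓟 (disjWithin a b),
      E ∈ disjWithin a b := eventually_inf_principal.mpr (by simp)
  filter_upwards [this] with E hE
  refine Finset.sum_le_sum fun i hi => ?_
  have hx := (hE.1 i hi).1
  have hy := (hE.1 i hi).2
  rw [uIcc_of_le hab] at hx hy
  rw [h.2 _ hx, h.2 _ hy, dist_add_left]

/-- product rule -/
lemma IsH1.prod {a b : ℝ} (hab : a ≤ b) {f f' g g' : ℝ → ℂ} (hf : IsH1 a b f f')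
    (hg : IsH1 a b g g') : ∀ x ∈ Icc a b,
    f x * g x = f a * g a + ∫ t in a..x, (f' t * g t + f t * g' t) := by
  have hfac := hf.ac hab
  have hgac := hg.ac hab
  have hfc : ContinuousOn f (uIcc a b) := hfac.continuousOn
  have hgc : ContinuousOn g (uIcc a b) := hgac.continuousOn
  have hfi := hf.intervalIntegrable hab
  have hgi := hg.intervalIntegrable hab
  have hi : IntervalIntegrable (fun t => f' t * g t + f t * g' t) volume a b :=
    (hfi.mul_continuousOn hgc).add (hgi.continuousOn_mul hfc)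
  have hKac : AbsolutelyContinuousOnInterval
      (fun x => f x * g x - ∫ t in a..x, (f' t * g t + f t * g' t)) a b := by
    have h1 : AbsolutelyContinuousOnInterval (f • g) a b := hfac.smul hgac
    exact h1.sub (ac_integral hab hi)
  have hder : ∀ᵐ x, x ∈ uIcc a b →
      HasDerivAt (fun x => f x * g x - ∫ t in a..x, (f' t * g t + f t * g' t)) 0 x := by
    have hIoo : ∀ᵐ x : ℝ, x ≠ a ∧ x ≠ b := by
      have h1 : ∀ᵐ x : ℝ, x ≠ a := by simp [ae_iff, measure_singleton]
      have h2 : ∀ᵐ x : ℝ, x ≠ b := by simp [ae_iff, measure_singleton]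
      filter_upwards [h1, h2] with x hx hy using ⟨hx, hy⟩
    filter_upwards [hfi.ae_hasDerivAt_integral, hgi.ae_hasDerivAt_integral,
      hi.ae_hasDerivAt_integral, hIoo] with x h1 h2 h3 hne hx
    have hx' : x ∈ Ioo a b := by
      rw [uIcc_of_le hab] at hx
      exact ⟨lt_of_le_of_ne hx.1 (Ne.symm hne.1), lt_of_le_of_ne hx.2 hne.2⟩
    have hnhds : Icc a b ∈ 𝓝 x := Icc_mem_nhds hx'.1 hx'.2
    have df : HasDerivAt f (f' x) x := by
      have := (h1 hx a left_mem_uIcc).const_add (f a)
      refine this.congr_of_eventuallyEq ?_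
      filter_upwards [hnhds] with y hy using hf.2 y hy
    have dg : HasDerivAt g (g' x) x := by
      have := (h2 hx a left_mem_uIcc).const_add (g a)
      refine this.congr_of_eventuallyEq ?_
      filter_upwards [hnhds] with y hy using hg.2 y hy
    have := (df.mul dg).sub (h3 hx a left_mem_uIcc)
    rw [sub_self] at this
    exact this
  obtain ⟨c, hc⟩ := hKac.const_of_ae_hasDerivAt_zero hder
  intro x hx
  have h1 := hc x (by rwa [uIcc_of_le hab])
  have h2 := hc a left_mem_uIcc
  simp only [intervalIntegral.integral_same, sub_zero] at h2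
  rw [h2, ← h1]
  ring

lemma IsH1.continuousOn {a b : ℝ} (hab : a ≤ b) {f f' : ℝ → ℂ} (h : IsH1 a b f f') :
    ContinuousOn f (Icc a b) := by
  have := (h.ac hab).continuousOn
  rwa [uIcc_of_le hab] at this

lemma IsH1.memLp {a b : ℝ} (hab : a ≤ b) {f f' : ℝ → ℂ} (h : IsH1 a b f f') :
    MemLp f 2 (volume.restrict (Ioc a b)) := by
  have hc := h.continuousOn hab
  obtain ⟨C, hC⟩ := isCompact_Icc.exists_bound_of_continuousOn hc
  refine MemLp.of_bound ?_ C ?_
  · exact (hc.mono Ioc_subset_Icc_self).aestronglyMeasurable measurableSet_Ioc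
  · filter_upwards [ae_restrict_mem measurableSet_Ioc] with x hx
    exact hC x (Ioc_subset_Icc_self hx)

lemma IsH1.conj {a b : ℝ} {f f' : ℝ → ℂ} (h : IsH1 a b f f') :
    IsH1 a b (fun x => starRingEnd ℂ (f x)) (fun x => starRingEnd ℂ (f' x)) := by
  refine ⟨?_, fun x hx => ?_⟩
  · have := h.1.star
    exact this
  · simp only
    rw [h.2 x hx, map_add]
    congr 1
    rw [intervalIntegral.integral_of_le hx.1, intervalIntegral.integral_of_le hx.1]
    exact (integral_conj).symm

/-- uniqueness of the weak derivative -/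
lemma ae_eq_of_integral_eq {a b : ℝ} (hab : a ≤ b) {f g : ℝ → ℂ}
    (hf : IntervalIntegrable f volume a b) (hg : IntervalIntegrable g volume a b)
    (h : ∀ x ∈ Icc a b, ∫ t in a..x, f t = ∫ t in a..x, g t) :
    f =ᵐ[volume.restrict (Ioc a b)] g := by
  have hIoo : ∀ᵐ x : ℝ, x ≠ a ∧ x ≠ b := by
    have h1 : ∀ᵐ x : ℝ, x ≠ a := by simp [ae_iff, measure_singleton]
    have h2 : ∀ᵐ x : ℝ, x ≠ b := by simp [ae_iff, measure_singleton]
    filter_upwards [h1, h2] with x hx hy using ⟨hx, hy⟩
  have : ∀ᵐ x, x ∈ Ioc a b → f x = g x := by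
    filter_upwards [hf.ae_hasDerivAt_integral, hg.ae_hasDerivAt_integral, hIoo] with x h1 h2 hne hx
    have hxI : x ∈ uIcc a b := by rw [uIcc_of_le hab]; exact Ioc_subset_Icc_self hx
    have hx' : x ∈ Ioo a b := ⟨hx.1, lt_of_le_of_ne hx.2 hne.2⟩
    have d1 := h1 hxI a left_mem_uIcc
    have d2 := h2 hxI a left_mem_uIcc
    refine d1.unique (d2.congr_of_eventuallyEq ?_)
    filter_upwards [Icc_mem_nhds hx'.1 hx'.2] with y hy using h y hy
  exact (ae_restrict_iff' measurableSet_Ioc).2 this

end Pool.Agent.Lib.MP_542e45_an
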