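import Pool.Agent.Lib.MP_542e45_an.Region

/-! Static identities and inequalities for the thermoelastic region. -/

open scoped ComplexConjugate

namespace Pool.Agent.Lib.MP_542e45_an

open Calc

/-- Static data of the thermoelastic region. -/
structure HReg {H : Type*} [NormedAddCommGroup H] [InnerProductSpace ℂ H] (C : Calc H)
    (ρ0 ρ α β κ γ : ℝ) extends Reg C ρ α β γ where
  θ2 : H
  η : H
  θ1a : ℂ
  θ1b : ℂ
  Dθ1 : C.D θ1 θ2 θ1a θ1b
  heat : (ρ0 : ℂ) • η = (κ : ℂ) • θ2 + (γ : ℂ) • p1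

namespace HReg

variable {H : Type*} [NormedAddCommGroup H] [InnerProductSpace ℂ H] {C : Calc H}
  {ρ0 ρ α β κ γ : ℝ} (R : HReg C ρ0 ρ α β κ γ)

/-- residual of `θ` -/
def h0 (l : ℝ) : H := (Complex.I * l) • R.θ - R.η

/-- energy balance on the thermoelastic region -/
lemma energy_id' :
    ρ * (inner ℂ R.v R.z : ℂ).re + α * (inner ℂ R.p R.z1 : ℂ).re + β * (inner ℂ R.q R.p1 : ℂ).re
      + ρ0 * (inner ℂ R.θ R.η : ℂ).re
      = (conj R.vb * R.Sb - conj R.va * R.Sa).re + β * (conj R.pb * R.qb - conj R.pa * R.qa).re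
        - κ * ‖R.θ1‖ ^ 2 := by
  have h := R.energy_id
  have h1 : ρ0 * (inner ℂ R.θ R.η : ℂ).re = κ * (inner ℂ R.θ R.θ2 : ℂ).re
      + γ * (inner ℂ R.θ R.p1 : ℂ).re := by
    have := congrArg (fun x => (inner ℂ R.θ x : ℂ).re) R.heat
    simp only [inner_add_right, inner_smul_right, Complex.add_re, Complex.re_ofReal_mul] at this
    exact this
  have h2 := congrArg Complex.re (C.ibp R.Dθ1 R.Dθ)
  rw [Complex.add_re, inner_self_c, Complex.ofReal_re] at h2
  simp only [map_zero, zero_mul, sub_zero, Complex.zero_re] at h2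
  linear_combination h + h1 + κ * h2

/-- the mean of `p = v_x` -/
noncomputable def m : ℂ := R.vb / C.len
/-- `p` minus its mean -/
noncomputable def r : H := R.p - R.m • C.one

lemma Dr : C.D R.r R.p1 (R.pa - R.m) (R.pb - R.m) := by
  have := C.D_sub R.Dp (C.D_smul R.m C.D_one)
  simpa [r] using this

lemma one_r (hva : R.va = 0) : inner ℂ C.one R.r = 0 := by
  have h1 := C.ibp_one R.Dv
  have hl : (C.len : ℂ) ≠ 0 := by exact_mod_cast C.len_pos.ne'
  rw [r, inner_sub_right, h1, inner_smul_right, C.one_one, hva, m]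
  field_simp
  ring

lemma r_one (hva : R.va = 0) : inner ℂ R.r C.one = 0 := by
  rw [← inner_conj_symm, R.one_r hva, map_zero]

/-- the heat multiplier identity: all right-hand side terms contain `θ`, `θ₁` or residuals -/
lemma heat_mult (hva : R.va = 0) (l : ℝ) : ∃ Y Yh : H, ∃ Yb Yhb n : ℂ,
    C.D Y ((ρ0 : ℂ) • R.θ) 0 Yb ∧ C.D Yh ((ρ0 : ℂ) • R.h0 l) 0 Yhb ∧
    (C.len : ℂ) * n = R.zb - R.za + inner ℂ C.one (R.g1 l) ∧
    α * γ * ‖R.r‖ ^ 2 = -α * κ * (inner ℂ R.r R.θ1 : ℂ).re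
      - (β * (conj R.qb * Yb).re - ρ0 * (inner ℂ R.σ R.θ : ℂ).re + (inner ℂ R.S Y : ℂ).re)
      - α * (inner ℂ (R.g1 l) Y : ℂ).re + α * (inner ℂ (n • C.one) Y : ℂ).re
      - α * (inner ℂ R.r Yh : ℂ).re := by
  obtain ⟨Y, Yb, hY⟩ := C.prim ((ρ0 : ℂ) • R.θ)
  obtain ⟨Yh, Yhb, hYh⟩ := C.prim ((ρ0 : ℂ) • R.h0 l)
  have hl : (C.len : ℂ) ≠ 0 := by exact_mod_cast C.len_pos.ne'
  refine ⟨Y, Yh, Yb, Yhb, Complex.I * l * R.m, hY, hYh, ?_, ?_⟩
  · have h1 := C.ibp_one R.Dz
    have h2 := C.ibp_one R.Dv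
    rw [Reg.g1, inner_sub_right, inner_smul_right, h1, h2, m, hva]
    field_simp
    ring
  · -- `κ θ₁ + γ p - iλ Y + Yh` is constant
    have e0 : C.D ((κ : ℂ) • R.θ1 + (γ : ℂ) • R.p) ((ρ0 : ℂ) • R.η)
        (κ * R.θ1a + γ * R.pa) (κ * R.θ1b + γ * R.pb) := by
      rw [R.heat]
      exact C.D_add (C.D_smul _ R.Dθ1) (C.D_smul _ R.Dp)
    have e1 : C.D (((κ : ℂ) • R.θ1 + (γ : ℂ) • R.p) - ((Complex.I * l) • Y - Yh)) 0
        ((κ * R.θ1a + γ * R.pa) - (Complex.I * l * 0 - 0))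
        ((κ * R.θ1b + γ * R.pb) - (Complex.I * l * Yb - Yhb)) := by
      have := C.D_sub e0 (C.D_sub (C.D_smul (Complex.I * l) hY) hYh)
      have e : (ρ0 : ℂ) • R.η - ((Complex.I * l) • (ρ0 : ℂ) • R.θ - (ρ0 : ℂ) • R.h0 l) = 0 := by
        rw [h0, smul_sub, smul_comm]; abel
      rwa [e] at this
    have e2 := C.uniq e1
    have e3 : (κ : ℂ) • R.θ1 + (γ : ℂ) • R.p
        = ((κ * R.θ1a + γ * R.pa) - (Complex.I * l * 0 - 0)) • C.one
          + ((Complex.I * l) • Y - Yh) := by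
      rw [← e2]; abel
    have e4 := congrArg (fun x => (inner ℂ R.r x : ℂ).re) e3
    simp only [inner_add_right, inner_sub_right, inner_smul_right, R.r_one hva, mul_zero,
      Complex.add_re, Complex.sub_re, Complex.re_ofReal_mul, zero_add] at e4
    have e5 : (inner ℂ R.r R.p : ℂ).re = ‖R.r‖ ^ 2 := by
      have : R.p = R.r + R.m • C.one := by rw [r]; abel
      conv_lhs => rw [this]
      rw [inner_add_right, inner_smul_right, R.r_one hva, mul_zero, add_zero, inner_self_c,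
        Complex.ofReal_re]
    -- `iλ ⟨r, Y⟩ = - ⟨z1 + g1 - n one, Y⟩`
    have e6 : (Complex.I * l * inner ℂ R.r Y : ℂ)
        = -(inner ℂ R.z1 Y + inner ℂ (R.g1 l) Y - inner ℂ ((Complex.I * l * R.m) • C.one) Y) := by
      have : R.z1 + R.g1 l - (Complex.I * l * R.m) • C.one = (Complex.I * l) • R.r := by
        rw [Reg.g1, r, smul_sub, smul_smul]; abel
      rw [← inner_add_left, ← inner_sub_left, this, inner_smul_left]
      simp
    have e7 := congrArg Complex.re e6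
    simp only [Complex.neg_re, Complex.add_re, Complex.sub_re] at e7
    have e8 : α * (inner ℂ R.z1 Y : ℂ).re = (inner ℂ R.σ1 Y : ℂ).re + (inner ℂ R.S Y : ℂ).re := by
      have := congrArg (fun x => (inner ℂ x Y : ℂ).re) R.eq'
      simp only [inner_add_left, inner_smul_left, Complex.add_re, Complex.conj_ofReal,
        Complex.re_ofReal_mul] at this
      exact this
    have e9 := congrArg Complex.re (C.ibp hY R.Dσ)
    rw [Complex.add_re, inner_smul_right, Complex.re_ofReal_mul] at e9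
    have e10 : (conj (β * R.qb) * Yb - conj (β * R.qa) * 0).re = β * (conj R.qb * Yb).re := by
      rw [← Complex.re_ofReal_mul]; congr 1
      simp only [map_mul, Complex.conj_ofReal]; ring
    rw [e10] at e9
    linear_combination α * e4 - α * γ * e5 + α * e7 - e8 - e9

end HReg

end Pool.Agent.Lib.MP_542e45_an
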