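import Pool.Agent.Lib.MP_542e45_an.Final

/-! The static data form a linear relation. -/

open scoped ComplexConjugate

namespace Pool.Agent.Lib.MP_542e45_an

open Calc

namespace Reg

variable {H : Type*} [NormedAddCommGroup H] [InnerProductSpace ℂ H] {C : Calc H}
  {ρ α β γ : ℝ}

/-- sum of data -/
def add (R R' : Reg C ρ α β γ) : Reg C ρ α β γ where
  w := R.w + R'.w
  wx := R.wx + R'.wx
  q := R.q + R'.q
  q1 := R.q1 + R'.q1
  v := R.v + R'.v
  p := R.p + R'.p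
  p1 := R.p1 + R'.p1
  z := R.z + R'.z
  z1 := R.z1 + R'.z1
  θ := R.θ + R'.θ
  θ1 := R.θ1 + R'.θ1
  S := R.S + R'.S
  wa := R.wa + R'.wa
  wb := R.wb + R'.wb
  wxa := R.wxa + R'.wxa
  wxb := R.wxb + R'.wxb
  qa := R.qa + R'.qa
  qb := R.qb + R'.qb
  va := R.va + R'.va
  vb := R.vb + R'.vb
  pa := R.pa + R'.pa
  pb := R.pb + R'.pb
  za := R.za + R'.za
  zb := R.zb + R'.zb
  Sa := R.Sa + R'.Sa
  Sb := R.Sb + R'.Sb
  Dw := C.D_add R.Dw R'.Dw
  Dwx := C.D_add R.Dwx R'.Dwx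
  Dq := C.D_add R.Dq R'.Dq
  Dv := C.D_add R.Dv R'.Dv
  Dp := C.D_add R.Dp R'.Dp
  Dz := C.D_add R.Dz R'.Dz
  Dθ := by
    have := C.D_add R.Dθ R'.Dθ
    rwa [add_zero] at this
  DS := by
    have := C.D_add R.DS R'.DS
    rwa [← smul_add] at this
  eq := by
    rw [smul_add, R.eq, R'.eq]
    simp only [smul_add]
    abel

/-- scalar multiple of data -/
def smul (c : ℂ) (R : Reg C ρ α β γ) : Reg C ρ α β γ where
  w := c • R.w
  wx := c • R.wx
  q := c • R.q
  q1 := c • R.q1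
  v := c • R.v
  p := c • R.p
  p1 := c • R.p1
  z := c • R.z
  z1 := c • R.z1
  θ := c • R.θ
  θ1 := c • R.θ1
  S := c • R.S
  wa := c * R.wa
  wb := c * R.wb
  wxa := c * R.wxa
  wxb := c * R.wxb
  qa := c * R.qa
  qb := c * R.qb
  va := c * R.va
  vb := c * R.vb
  pa := c * R.pa
  pb := c * R.pb
  za := c * R.za
  zb := c * R.zb
  Sa := c * R.Sa
  Sb := c * R.Sb
  Dw := C.D_smul c R.Dw
  Dwx := C.D_smul c R.Dwx
  Dq := C.D_smul c R.Dq
  Dv := C.D_smul c R.Dv
  Dp := C.D_smul c R.Dp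
  Dz := C.D_smul c R.Dz
  Dθ := by
    have := C.D_smul c R.Dθ
    rwa [mul_zero] at this
  DS := by
    have := C.D_smul c R.DS
    rwa [smul_comm] at this
  eq := by
    rw [smul_comm, R.eq]
    simp only [smul_add]
    rw [smul_comm c (β : ℂ), smul_comm c (γ : ℂ)]

end Reg

namespace HReg

variable {H : Type*} [NormedAddCommGroup H] [InnerProductSpace ℂ H] {C : Calc H}
  {ρ0 ρ α β κ γ : ℝ}

/-- sum of data -/
def add (R R' : HReg C ρ0 ρ α β κ γ) : HReg C ρ0 ρ α β κ γ where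
  toReg := R.toReg.add R'.toReg
  θ2 := R.θ2 + R'.θ2
  η := R.η + R'.η
  θ1a := R.θ1a + R'.θ1a
  θ1b := R.θ1b + R'.θ1b
  Dθ1 := C.D_add R.Dθ1 R'.Dθ1
  heat := by
    rw [smul_add, R.heat, R'.heat]
    simp only [Reg.add, smul_add]
    abel

/-- scalar multiple of data -/
def smul (c : ℂ) (R : HReg C ρ0 ρ α β κ γ) : HReg C ρ0 ρ α β κ γ where
  toReg := R.toReg.smul c
  θ2 := c • R.θ2
  η := c • R.η
  θ1a := c * R.θ1a
  θ1b := c * R.θ1b
  Dθ1 := C.D_smul c R.Dθ1
  heat := by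
    rw [smul_comm, R.heat]
    simp only [Reg.smul, smul_add]
    rw [smul_comm c (κ : ℂ), smul_comm c (γ : ℂ)]

end HReg

namespace SD

variable {H1 : Type*} [NormedAddCommGroup H1] [InnerProductSpace ℂ H1]
  {H2 : Type*} [NormedAddCommGroup H2] [InnerProductSpace ℂ H2]
  {C1 : Calc H1} {C2 : Calc H2} {P : Params}

/-- sum of data -/
def add (s s' : SD C1 C2 P) : SD C1 C2 P where
  R := s.R.add s'.R
  Q := s.Q.add s'.Q
  wa := by simp only [HReg.add, Reg.add, s.wa, s'.wa, add_zero]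
  wxa := by simp only [HReg.add, Reg.add, s.wxa, s'.wxa, add_zero]
  va := by simp only [HReg.add, Reg.add, s.va, s'.va, add_zero]
  pa := by simp only [HReg.add, Reg.add, s.pa, s'.pa, add_zero]
  za := by simp only [HReg.add, Reg.add, s.za, s'.za, add_zero]
  Qwb := by simp only [Reg.add, s.Qwb, s'.Qwb, add_zero]
  Qwxb := by simp only [Reg.add, s.Qwxb, s'.Qwxb, add_zero]
  Qvb := by simp only [Reg.add, s.Qvb, s'.Qvb, add_zero]
  Qpb := by simp only [Reg.add, s.Qpb, s'.Qpb, add_zero]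
  Qzb := by simp only [Reg.add, s.Qzb, s'.Qzb, add_zero]
  mw := by simp only [HReg.add, Reg.add, s.mw, s'.mw]
  mwx := by simp only [HReg.add, Reg.add, s.mwx, s'.mwx]
  mv := by simp only [HReg.add, Reg.add, s.mv, s'.mv]
  mp := by simp only [HReg.add, Reg.add, s.mp, s'.mp]
  mz := by simp only [HReg.add, Reg.add, s.mz, s'.mz]
  mS := by simp only [HReg.add, Reg.add, s.mS, s'.mS]
  mq := by simp only [HReg.add, Reg.add]; rw [mul_add, mul_add, s.mq, s'.mq]

/-- scalar multiple of data -/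
def smul (c : ℂ) (s : SD C1 C2 P) : SD C1 C2 P where
  R := s.R.smul c
  Q := s.Q.smul c
  wa := by simp only [HReg.smul, Reg.smul, s.wa, mul_zero]
  wxa := by simp only [HReg.smul, Reg.smul, s.wxa, mul_zero]
  va := by simp only [HReg.smul, Reg.smul, s.va, mul_zero]
  pa := by simp only [HReg.smul, Reg.smul, s.pa, mul_zero]
  za := by simp only [HReg.smul, Reg.smul, s.za, mul_zero]
  Qwb := by simp only [Reg.smul, s.Qwb, mul_zero]
  Qwxb := by simp only [Reg.smul, s.Qwxb, mul_zero]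
  Qvb := by simp only [Reg.smul, s.Qvb, mul_zero]
  Qpb := by simp only [Reg.smul, s.Qpb, mul_zero]
  Qzb := by simp only [Reg.smul, s.Qzb, mul_zero]
  mw := by simp only [HReg.smul, Reg.smul, s.mw]
  mwx := by simp only [HReg.smul, Reg.smul, s.mwx]
  mv := by simp only [HReg.smul, Reg.smul, s.mv]
  mp := by simp only [HReg.smul, Reg.smul, s.mp]
  mz := by simp only [HReg.smul, Reg.smul, s.mz]
  mS := by simp only [HReg.smul, Reg.smul, s.mS]
  mq := by simp only [HReg.smul, Reg.smul]; rw [mul_left_comm, s.mq, mul_left_comm]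

lemma X_add (s s' : SD C1 C2 P) : (s.add s').X = s.X + s'.X := by
  rw [X, X, X, vec_add]
  congr 1
  · ext i; fin_cases i <;> rfl
  · ext i; fin_cases i <;> rfl

lemma Y_add (s s' : SD C1 C2 P) : (s.add s').Y = s.Y + s'.Y := by
  rw [Y, Y, Y, vec_add]
  congr 1
  · ext i; fin_cases i <;> rfl
  · ext i; fin_cases i <;> rfl

lemma X_smul (c : ℂ) (s : SD C1 C2 P) : (s.smul c).X = c • s.X := by
  rw [X, X, vec_smul]
  congr 1
  · ext i; fin_cases i <;> rfl
  · ext i; fin_cases i <;> rfl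

lemma Y_smul (c : ℂ) (s : SD C1 C2 P) : (s.smul c).Y = c • s.Y := by
  rw [Y, Y, vec_smul]
  congr 1
  · ext i; fin_cases i <;> rfl
  · ext i; fin_cases i <;> rfl

/-- the generator as a linear relation in the energy space -/
noncomputable def graph (C1 : Calc H1) (C2 : Calc H2) (P : Params) (s0 : SD C1 C2 P) :
    Submodule ℂ (EE H1 H2 × EE H1 H2) where
  carrier := {z | ∃ s : SD C1 C2 P, z = (s.X, s.Y)}
  zero_mem' := ⟨s0.smul 0, by rw [X_smul, Y_smul, zero_smul, zero_smul]; rfl⟩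
  add_mem' := by
    rintro _ _ ⟨s, rfl⟩ ⟨s', rfl⟩
    exact ⟨s.add s', by rw [X_add, Y_add]; rfl⟩
  smul_mem' := by
    rintro c _ ⟨s, rfl⟩
    exact ⟨s.smul c, by rw [X_smul, Y_smul]; rfl⟩

end SD

end Pool.Agent.Lib.MP_542e45_an
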