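import Pool.Agent.Lib.MP_542e45_an.Assembly

/-! Exponential stability. -/

open MeasureTheory Filter Topology

namespace Pool.Agent.Lib.MP_542e45_an

open Set
open scoped ComplexConjugate

lemma norm_emb_tendsto {P : Params} {ι : Type*} {l : Filter ι} {Θ : ι → Fields}
    (hin : ∀ᶠ s in l, InL2 P (Θ s)) (h : Tendsto (fun s => energy P (Θ s)) l (𝓝 0)) :
    Tendsto (fun s => ‖emb P (Θ s)‖) l (𝓝 0) := by
  have h1 : Tendsto (fun s => 2 * energy P (Θ s)) l (𝓝 0) := by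
    simpa using h.const_mul 2
  have h2 : Tendsto (fun s => Real.sqrt (2 * energy P (Θ s))) l (𝓝 0) := by
    have := (Real.continuous_sqrt.tendsto 0).comp h1
    rw [Real.sqrt_zero] at this
    exact this
  refine h2.congr' ?_
  filter_upwards [hin] with s hs
  rw [energy_eq hs]
  rw [show 2 * (1 / 2 * ‖emb P (Θ s)‖ ^ 2) = ‖emb P (Θ s)‖ ^ 2 by ring]
  exact Real.sqrt_sq (norm_nonneg _)

lemma hasDeriv_of_norm {E : Type*} [NormedAddCommGroup E] [InnerProductSpace ℂ E] {x : ℝ → E}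
    {x' : E} {t : ℝ} (h : Tendsto (fun s => ‖(((s - t)⁻¹ : ℝ) : ℂ) • (x s - x t) - x'‖)
      (𝓝[Set.Ici 0 \ {t}] t) (𝓝 0)) : HasDerivWithinAt x x' (Set.Ici 0) t := by
  rw [hasDerivWithinAt_iff_tendsto_slope, tendsto_iff_norm_sub_tendsto_zero]
  refine h.congr fun s => ?_
  rw [slope_def_module]
  rfl

theorem exponential_stability (P : Params) :
    ∃ M ω : ℝ, 0 < M ∧ 0 < ω ∧ ∀ Φ Ψ : ℝ → Fields, IsSolution P Φ Ψ →
      ∀ t, 0 ≤ t → energy P (Φ t) ≤ M * Real.exp (-ω * t) * energy P (Φ 0) := by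
  obtain ⟨M0, hM0, hres⟩ := resolvent_bound (CA P) (CB P) P
  refine ⟨4, 2 * (Real.log 2 / (24 * M0)), by norm_num, ?_, fun Φ Ψ hS t ht => ?_⟩
  · have := Real.log_pos (by norm_num : (1 : ℝ) < 2)
    positivity
  obtain ⟨s0, -, -⟩ := exists_SD (hS.gen 0 le_rfl)
  have lΦ : ∀ t, 0 ≤ t → InL2 P (Φ t) := fun t ht => (hS.gen t ht).1.inL2
  have lΨ : ∀ t, 0 ≤ t → InL2 P (Ψ t) := fun t ht => (hS.gen t ht).2.1.inL2
  have key := exp_decay (E := EE (L2 0 P.L0) (L2 P.L0 P.L)) (SD.graph (CA P) (CB P) P s0)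
    (by
      rintro _ ⟨s, rfl⟩
      have h1 := s.re_inner_XY
      have h2 : (inner ℂ s.Y s.X : ℂ).re = (inner ℂ s.X s.Y : ℂ).re := by
        rw [← inner_conj_symm, Complex.conj_re]
      simp only
      rw [h2, h1]
      have := mul_nonneg P.κ_pos.le (sq_nonneg ‖s.R.θ1‖)
      linarith) hM0
    (by
      rintro _ ⟨s, rfl⟩ l
      exact hres s l)
    (x := fun t => emb P (Φ t)) (x' := fun t => emb P (Ψ t))
    (by
      intro t ht
      refine hasDeriv_of_norm ?_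
      have h := norm_emb_tendsto (P := P) (l := 𝓝[Set.Ici 0 \ {t}] t)
        (Θ := fun s => (s - t)⁻¹ • (Φ s - Φ t) - Ψ t) ?_ (hS.hasDeriv t ht)
      · refine h.congr' ?_
        filter_upwards [self_mem_nhdsWithin] with s hs
        have hs0 : 0 ≤ s := hs.1
        rw [emb_sub (((lΦ s hs0).sub (lΦ t ht)).smul _) (lΨ t ht),
          emb_smul _ ((lΦ s hs0).sub (lΦ t ht)), emb_sub (lΦ s hs0) (lΦ t ht)]
      · filter_upwards [self_mem_nhdsWithin] with s hs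
        exact (((lΦ s hs.1).sub (lΦ t ht)).smul _).sub (lΨ t ht))
    (by
      intro t ht
      rw [Set.mem_Ici] at ht
      rw [ContinuousWithinAt, tendsto_iff_norm_sub_tendsto_zero]
      have h := norm_emb_tendsto (P := P) (l := 𝓝[Set.Ici 0] t)
        (Θ := fun s => Ψ s - Ψ t) ?_ (hS.cont t ht)
      · refine h.congr' ?_
        filter_upwards [self_mem_nhdsWithin] with s hs
        rw [emb_sub (lΨ s hs) (lΨ t ht)]
      · filter_upwards [self_mem_nhdsWithin] with s hs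
        exact (lΨ s hs).sub (lΨ t ht))
    (by
      intro t ht
      obtain ⟨s, h1, h2⟩ := exists_SD (hS.gen t ht)
      exact ⟨s, by rw [h1, h2]⟩) t ht
  rw [energy_eq (lΦ t ht), energy_eq (lΦ 0 le_rfl)]
  have h0 : (0 : ℝ) ≤ ‖emb P (Φ t)‖ := norm_nonneg _
  have h3 := pow_le_pow_left₀ h0 key 2
  have h4 : Real.exp (-(Real.log 2 / (24 * M0)) * t) ^ 2
      = Real.exp (-(2 * (Real.log 2 / (24 * M0))) * t) := by
    rw [← Real.exp_nat_mul]
    congr 1
    push_cast; ring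
  calc 1 / 2 * ‖emb P (Φ t)‖ ^ 2
      ≤ 1 / 2 * (2 * Real.exp (-(Real.log 2 / (24 * M0)) * t) * ‖emb P (Φ 0)‖) ^ 2 := by
        gcongr
    _ = 4 * (Real.exp (-(Real.log 2 / (24 * M0)) * t) ^ 2) * (1 / 2 * ‖emb P (Φ 0)‖ ^ 2) := by
        ring
    _ = _ := by rw [h4]

end Pool.Agent.Lib.MP_542e45_an
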