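import Pool.Agent.Lib.MP_542e45_an.Calc

/-! Static identities on one region. -/

open scoped ComplexConjugate

namespace Pool.Agent.Lib.MP_542e45_an

open Calc

/-- Static data of one region: displacement `w`, velocity `v`, acceleration `z`, temperature `θ`,
flux `S`, where `p = v_x`, `q = w_xx`. -/
structure Reg {H : Type*} [NormedAddCommGroup H] [InnerProductSpace ℂ H] (C : Calc H)
    (ρ α β γ : ℝ) where
  w : H
  wx : H
  q : H
  q1 : H
  v : H
  p : H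
  p1 : H
  z : H
  z1 : H
  θ : H
  θ1 : H
  S : H
  wa : ℂ
  wb : ℂ
  wxa : ℂ
  wxb : ℂ
  qa : ℂ
  qb : ℂ
  va : ℂ
  vb : ℂ
  pa : ℂ
  pb : ℂ
  za : ℂ
  zb : ℂ
  Sa : ℂ
  Sb : ℂ
  Dw : C.D w wx wa wb
  Dwx : C.D wx q wxa wxb
  Dq : C.D q q1 qa qb
  Dv : C.D v p va vb
  Dp : C.D p p1 pa pb
  Dz : C.D z z1 za zb
  Dθ : C.D θ θ1 0 0
  DS : C.D S ((ρ : ℂ) • z) Sa Sb
  eq : (α : ℂ) • z1 = (β : ℂ) • q1 + (γ : ℂ) • θ1 + S

namespace Reg

variable {H : Type*} [NormedAddCommGroup H] [InnerProductSpace ℂ H] {C : Calc H}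
  {ρ α β γ : ℝ} (R : Reg C ρ α β γ)

/-- residual of `w_xx` -/
def f2 (l : ℝ) : H := (Complex.I * l) • R.q - R.p1
/-- residual of `w_x` -/
def f1 (l : ℝ) : H := (Complex.I * l) • R.wx - R.p
/-- residual of `w` -/
def f0 (l : ℝ) : H := (Complex.I * l) • R.w - R.v
/-- residual of `v` -/
def g0 (l : ℝ) : H := (Complex.I * l) • R.v - R.z
/-- residual of `v_x` -/
def g1 (l : ℝ) : H := (Complex.I * l) • R.p - R.z1

lemma Df1 (l : ℝ) : C.D (R.f1 l) (R.f2 l) (Complex.I * l * R.wxa - R.pa)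
    (Complex.I * l * R.wxb - R.pb) := C.D_sub (C.D_smul _ R.Dwx) R.Dp

lemma Df0 (l : ℝ) : C.D (R.f0 l) (R.f1 l) (Complex.I * l * R.wa - R.va)
    (Complex.I * l * R.wb - R.vb) := C.D_sub (C.D_smul _ R.Dw) R.Dv

/-- the stress `σ = β w_xx + γ θ` -/
def σ : H := (β : ℂ) • R.q + (γ : ℂ) • R.θ
def σ1 : H := (β : ℂ) • R.q1 + (γ : ℂ) • R.θ1

lemma Dσ : C.D R.σ R.σ1 (β * R.qa) (β * R.qb) := by
  have := C.D_add (C.D_smul (β : ℂ) R.Dq) (C.D_smul (γ : ℂ) R.Dθ)
  rw [mul_zero, add_zero, add_zero] at this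
  exact this

lemma eq' : (α : ℂ) • R.z1 = R.σ1 + R.S := R.eq

/-- energy balance on one region -/
lemma energy_id :
    ρ * (inner ℂ R.v R.z : ℂ).re + α * (inner ℂ R.p R.z1 : ℂ).re + β * (inner ℂ R.q R.p1 : ℂ).re
      = (conj R.vb * R.Sb - conj R.va * R.Sa).re + β * (conj R.pb * R.qb - conj R.pa * R.qa).re
        - γ * (inner ℂ R.θ R.p1 : ℂ).re := by
  have h1 := congrArg Complex.re (C.ibp R.DS R.Dv)
  have h2 := congrArg Complex.re (C.ibp R.Dq R.Dp)
  have h3 := congrArg Complex.re (C.ibp R.Dθ R.Dp)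
  have h4 : α * (inner ℂ R.p R.z1 : ℂ).re = β * (inner ℂ R.p R.q1 : ℂ).re
      + γ * (inner ℂ R.p R.θ1 : ℂ).re + (inner ℂ R.p R.S : ℂ).re := by
    have := congrArg (fun x => (inner ℂ R.p x : ℂ).re) R.eq
    simpa [inner_add_right, inner_smul_right] using this
  rw [Complex.add_re, inner_smul_right, Complex.re_ofReal_mul] at h1
  rw [Complex.add_re] at h2 h3
  have h5 := re_symm R.p1 R.q
  have h6 := re_symm R.p1 R.θ
  simp only [mul_zero, sub_zero, Complex.zero_re] at h3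
  rw [h5] at h2
  rw [h6] at h3
  linear_combination h1 + h4 + β * h2 + γ * h3

/-- multiplier `x - a` -/
lemma mult_A :
    2 * (α * (inner ℂ R.q (C.A R.z1) : ℂ).re + α * (inner ℂ R.p (C.A R.p1) : ℂ).re)
      = C.len * (β * ‖R.qb‖ ^ 2 + α * ‖R.pb‖ ^ 2) - (β * ‖R.q‖ ^ 2 + α * ‖R.p‖ ^ 2)
        + 2 * γ * (inner ℂ R.q (C.A R.θ1) : ℂ).re + 2 * (inner ℂ R.q (C.A R.S) : ℂ).re := by
  have h1 := C.re_inner_A R.Dq
  have h2 := C.re_inner_A R.Dp
  have h4 : α * (inner ℂ R.q (C.A R.z1) : ℂ).re = β * (inner ℂ R.q (C.A R.q1) : ℂ).re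
      + γ * (inner ℂ R.q (C.A R.θ1) : ℂ).re + (inner ℂ R.q (C.A R.S) : ℂ).re := by
    have := congrArg (fun x => (inner ℂ R.q (C.A x) : ℂ).re) R.eq
    simpa [inner_add_right, inner_smul_right] using this
  linear_combination 2 * h4 + β * h1 + α * h2

/-- multiplier `x - b` -/
lemma mult_B :
    2 * (α * (inner ℂ R.q (C.A R.z1 - (C.len : ℂ) • R.z1) : ℂ).re
        + α * (inner ℂ R.p (C.A R.p1 - (C.len : ℂ) • R.p1) : ℂ).re)
      = C.len * (β * ‖R.qa‖ ^ 2 + α * ‖R.pa‖ ^ 2) - (β * ‖R.q‖ ^ 2 + α * ‖R.p‖ ^ 2)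
        + 2 * γ * (inner ℂ R.q (C.A R.θ1 - (C.len : ℂ) • R.θ1) : ℂ).re
        + 2 * (inner ℂ R.q (C.A R.S - (C.len : ℂ) • R.S) : ℂ).re := by
  have h1 := C.re_inner_B R.Dq
  have h2 := C.re_inner_B R.Dp
  have h4 : α * (inner ℂ R.q (C.A R.z1 - (C.len : ℂ) • R.z1) : ℂ).re
      = β * (inner ℂ R.q (C.A R.q1 - (C.len : ℂ) • R.q1) : ℂ).re
      + γ * (inner ℂ R.q (C.A R.θ1 - (C.len : ℂ) • R.θ1) : ℂ).re
      + (inner ℂ R.q (C.A R.S - (C.len : ℂ) • R.S) : ℂ).re := by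
    have := congrArg (fun x => (inner ℂ R.q (C.A x - (C.len : ℂ) • x) : ℂ).re) R.eq
    simp only [map_add, map_smul, inner_add_right, inner_smul_right, inner_sub_right,
      Complex.add_re, Complex.sub_re, Complex.re_ofReal_mul, smul_add] at this ⊢
    linear_combination this
  linear_combination 2 * h4 + β * h1 + α * h2

/-- the elliptic identity for the flux and the acceleration -/
lemma ellip :
    α * ρ * ‖R.z‖ ^ 2 + ‖R.S‖ ^ 2
      = α * (conj R.Sb * R.zb - conj R.Sa * R.za).re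
        - β * (conj R.Sb * R.qb - conj R.Sa * R.qa).re + ρ * (inner ℂ R.z R.σ : ℂ).re := by
  have h1 := congrArg Complex.re (C.ibp R.Dz R.DS)
  have h2 := congrArg Complex.re (C.ibp R.Dσ R.DS)
  have h3 : α * (inner ℂ R.S R.z1 : ℂ).re = (inner ℂ R.S R.σ1 : ℂ).re + ‖R.S‖ ^ 2 := by
    have := congrArg (fun x => (inner ℂ R.S x : ℂ).re) R.eq'
    simp only [inner_add_right, inner_smul_right, Complex.add_re, Complex.re_ofReal_mul,
      inner_self_c, Complex.ofReal_re] at this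
    exact this
  rw [Complex.add_re, inner_smul_left, Complex.conj_ofReal, Complex.re_ofReal_mul] at h1 h2
  rw [inner_self_c, Complex.ofReal_re] at h1
  have h4 : (conj R.Sb * (β * R.qb) - conj R.Sa * (β * R.qa)).re
      = β * (conj R.Sb * R.qb - conj R.Sa * R.qa).re := by
    rw [← Complex.re_ofReal_mul]; congr 1; ring
  rw [h4] at h2
  linear_combination α * h1 - h2 - h3

lemma I_mul_re (l : ℝ) (c : ℂ) : (Complex.I * l * (c + conj c)).re = 0 := by
  simp [Complex.mul_re, Complex.mul_im]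

/-- a symmetric operator applied to the oscillating part gives no contribution -/
lemma osc {T : H → H} (hT : ∀ f g : H, inner ℂ (T f) g = inner ℂ f (T g)) (l : ℝ) (x y : H) :
    (Complex.I * l * (inner ℂ x (T y) + inner ℂ y (T x))).re = 0 := by
  have : (inner ℂ y (T x) : ℂ) = conj (inner ℂ x (T y)) := by
    rw [inner_conj_symm, hT]
  rw [this]
  exact I_mul_re l _

lemma freq_A (l : ℝ) :
    α * (inner ℂ R.q (C.A R.z1) : ℂ).re + α * (inner ℂ R.p (C.A R.p1) : ℂ).re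
      = -(α * (inner ℂ R.q (C.A (R.g1 l)) : ℂ).re + α * (inner ℂ R.p (C.A (R.f2 l)) : ℂ).re) := by
  have h := osc (T := C.A) (fun f g => C.A_symm f g) l R.q R.p
  have e1 : (inner ℂ R.q (C.A (R.g1 l)) : ℂ) = Complex.I * l * inner ℂ R.q (C.A R.p)
      - inner ℂ R.q (C.A R.z1) := by
    simp only [g1, map_sub, map_smul, inner_sub_right, inner_smul_right]
  have e2 : (inner ℂ R.p (C.A (R.f2 l)) : ℂ) = Complex.I * l * inner ℂ R.p (C.A R.q)
      - inner ℂ R.p (C.A R.p1) := by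
    simp only [f2, map_sub, map_smul, inner_sub_right, inner_smul_right]
  rw [mul_add, Complex.add_re] at h
  rw [e1, e2, Complex.sub_re, Complex.sub_re]
  linear_combination α * h

lemma B_symm (f g : H) : inner ℂ (C.A f - (C.len : ℂ) • f) g = inner ℂ f (C.A g - (C.len : ℂ) • g) := by
  rw [inner_sub_left, inner_sub_right, C.A_symm, inner_smul_left, inner_smul_right,
    Complex.conj_ofReal]

lemma freq_B (l : ℝ) :
    α * (inner ℂ R.q (C.A R.z1 - (C.len : ℂ) • R.z1) : ℂ).re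
        + α * (inner ℂ R.p (C.A R.p1 - (C.len : ℂ) • R.p1) : ℂ).re
      = -(α * (inner ℂ R.q (C.A (R.g1 l) - (C.len : ℂ) • R.g1 l) : ℂ).re
        + α * (inner ℂ R.p (C.A (R.f2 l) - (C.len : ℂ) • R.f2 l) : ℂ).re) := by
  have h := osc (T := fun f => C.A f - (C.len : ℂ) • f) (fun f g => B_symm f g) l R.q R.p
  have e1 : (inner ℂ R.q (C.A (R.g1 l) - (C.len : ℂ) • R.g1 l) : ℂ)
      = Complex.I * l * inner ℂ R.q (C.A R.p - (C.len : ℂ) • R.p)
      - inner ℂ R.q (C.A R.z1 - (C.len : ℂ) • R.z1) := by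
    simp only [g1, map_sub, map_smul, inner_sub_right, inner_smul_right, smul_sub]
    ring
  have e2 : (inner ℂ R.p (C.A (R.f2 l) - (C.len : ℂ) • R.f2 l) : ℂ)
      = Complex.I * l * inner ℂ R.p (C.A R.q - (C.len : ℂ) • R.q)
      - inner ℂ R.p (C.A R.p1 - (C.len : ℂ) • R.p1) := by
    simp only [f2, map_sub, map_smul, inner_sub_right, inner_smul_right, smul_sub]
    ring
  rw [mul_add, Complex.add_re] at h
  rw [e1, e2, Complex.sub_re, Complex.sub_re]
  linear_combination α * h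

/-- equipartition -/
lemma equip (l : ℝ) :
    β * ‖R.q‖ ^ 2 + γ * (inner ℂ R.q R.θ : ℂ).re
      = α * ‖R.p‖ ^ 2 + α * (inner ℂ (R.f1 l) R.p : ℂ).re + α * (inner ℂ R.wx (R.g1 l) : ℂ).re
        + β * (conj R.wxb * R.qb - conj R.wxa * R.qa).re + (inner ℂ R.wx R.S : ℂ).re := by
  have h1 := congrArg Complex.re (C.ibp R.Dσ R.Dwx)
  rw [Complex.add_re] at h1
  have h2 : (inner ℂ R.q R.σ : ℂ).re = β * ‖R.q‖ ^ 2 + γ * (inner ℂ R.q R.θ : ℂ).re := by
    simp only [σ, inner_add_right, inner_smul_right, Complex.add_re, Complex.re_ofReal_mul,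
      inner_self_c, Complex.ofReal_re]
  have h3 : α * (inner ℂ R.wx R.z1 : ℂ).re = (inner ℂ R.wx R.σ1 : ℂ).re
      + (inner ℂ R.wx R.S : ℂ).re := by
    have := congrArg (fun x => (inner ℂ R.wx x : ℂ).re) R.eq'
    simp only [inner_add_right, inner_smul_right, Complex.add_re, Complex.re_ofReal_mul] at this
    exact this
  have h4 : (conj R.wxb * (β * R.qb) - conj R.wxa * (β * R.qa)).re
      = β * (conj R.wxb * R.qb - conj R.wxa * R.qa).re := by
    rw [← Complex.re_ofReal_mul]; congr 1; ring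
  rw [h4] at h1
  have h5 : (inner ℂ R.wx R.z1 : ℂ).re = -‖R.p‖ ^ 2 - (inner ℂ (R.f1 l) R.p : ℂ).re
      - (inner ℂ R.wx (R.g1 l) : ℂ).re := by
    have e1 : (inner ℂ R.wx (R.g1 l) : ℂ) = Complex.I * l * inner ℂ R.wx R.p
      - inner ℂ R.wx R.z1 := by
      simp only [g1, inner_sub_right, inner_smul_right]
    have e2 : (inner ℂ (R.f1 l) R.p : ℂ) = -(Complex.I * l) * inner ℂ R.wx R.p
      - inner ℂ R.p R.p := by
      simp only [f1, inner_sub_left, inner_smul_left]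
      simp
    rw [e1, e2, inner_self_c]
    simp only [Complex.sub_re, Complex.ofReal_re, neg_mul, Complex.neg_re]
    ring
  rw [h2] at h1
  linear_combination h1 + h3 - α * h5

/-- the exact multiplier identity for a purely elastic region clamped at its right end -/
lemma exact (l : ℝ) (hγ : γ = 0) (hwb : R.wb = 0) :
    β * ‖R.q‖ ^ 2 + α * ‖R.p‖ ^ 2 + 3 * ρ * ‖R.v‖ ^ 2
      = C.len * (β * ‖R.qa‖ ^ 2 + α * ‖R.pa‖ ^ 2) + 2 * C.len * (conj R.wxa * R.Sa).re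
        + 2 * (conj R.wa * R.Sa).re + ρ * C.len * ‖R.va‖ ^ 2
        + 2 * (α * (inner ℂ R.q (C.A (R.g1 l) - (C.len : ℂ) • R.g1 l) : ℂ).re
          + α * (inner ℂ R.p (C.A (R.f2 l) - (C.len : ℂ) • R.f2 l) : ℂ).re)
        - 2 * ρ * (inner ℂ (R.f0 l) R.v : ℂ).re - 2 * ρ * (inner ℂ R.w (R.g0 l) : ℂ).re
        + 2 * ρ * (inner ℂ (R.f1 l) (C.A R.v - (C.len : ℂ) • R.v) : ℂ).re
        + 2 * ρ * (inner ℂ R.wx (C.A (R.g0 l) - (C.len : ℂ) • R.g0 l) : ℂ).re := by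
  have hB := R.mult_B
  rw [R.freq_B l] at hB
  have hz : γ * (inner ℂ R.q (C.A R.θ1 - (C.len : ℂ) • R.θ1) : ℂ).re = 0 :=
    mul_eq_zero_of_left hγ _
  -- integrate by parts in `⟨q, (x-b) S⟩`
  have DB : C.D (C.A R.S - (C.len : ℂ) • R.S)
      ((R.S + C.A ((ρ : ℂ) • R.z)) - (C.len : ℂ) • ((ρ : ℂ) • R.z))
      (0 - C.len * R.Sa) (C.len * R.Sb - C.len * R.Sb) :=
    C.D_sub (C.D_A R.DS) (C.D_smul _ R.DS)
  have h1 := congrArg Complex.re (C.ibp DB R.Dwx)
  have h2 : (inner ℂ R.wx ((R.S + C.A ((ρ : ℂ) • R.z)) - (C.len : ℂ) • ((ρ : ℂ) • R.z)) : ℂ).re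
      = (inner ℂ R.wx R.S : ℂ).re
        + ρ * (inner ℂ R.wx (C.A R.z - (C.len : ℂ) • R.z) : ℂ).re := by
    simp only [map_smul, inner_add_right, inner_sub_right, inner_smul_right, Complex.add_re,
      Complex.sub_re, Complex.re_ofReal_mul]
    ring
  have h3 : (conj R.wxb * (C.len * R.Sb - C.len * R.Sb) - conj R.wxa * (0 - C.len * R.Sa)).re
      = C.len * (conj R.wxa * R.Sa).re := by
    rw [← Complex.re_ofReal_mul]; congr 1; ring
  rw [Complex.add_re, h2, h3] at h1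
  have h4 := congrArg Complex.re (C.ibp R.DS R.Dw)
  rw [Complex.add_re, inner_smul_right, Complex.re_ofReal_mul, hwb] at h4
  have h4' : (conj (0 : ℂ) * R.Sb - conj R.wa * R.Sa).re = -(conj R.wa * R.Sa).re := by simp
  rw [h4'] at h4
  -- `ρ ⟨w, z⟩`
  have h5 : (inner ℂ R.w R.z : ℂ).re = -‖R.v‖ ^ 2 - (inner ℂ (R.f0 l) R.v : ℂ).re
      - (inner ℂ R.w (R.g0 l) : ℂ).re := by
    have e1 : (inner ℂ R.w (R.g0 l) : ℂ) = Complex.I * l * inner ℂ R.w R.v
      - inner ℂ R.w R.z := by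
      simp only [g0, inner_sub_right, inner_smul_right]
    have e2 : (inner ℂ (R.f0 l) R.v : ℂ) = -(Complex.I * l) * inner ℂ R.w R.v
      - inner ℂ R.v R.v := by
      simp only [f0, inner_sub_left, inner_smul_left]
      simp
    rw [e1, e2, inner_self_c]
    simp only [Complex.sub_re, Complex.ofReal_re, neg_mul, Complex.neg_re]
    ring
  have h6 : (inner ℂ R.wx (C.A R.z - (C.len : ℂ) • R.z) : ℂ).re
      = -(inner ℂ R.p (C.A R.v - (C.len : ℂ) • R.v) : ℂ).re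
        - (inner ℂ (R.f1 l) (C.A R.v - (C.len : ℂ) • R.v) : ℂ).re
        - (inner ℂ R.wx (C.A (R.g0 l) - (C.len : ℂ) • R.g0 l) : ℂ).re := by
    have e1 : (inner ℂ R.wx (C.A (R.g0 l) - (C.len : ℂ) • R.g0 l) : ℂ)
        = Complex.I * l * inner ℂ R.wx (C.A R.v - (C.len : ℂ) • R.v)
      - inner ℂ R.wx (C.A R.z - (C.len : ℂ) • R.z) := by
      simp only [g0, map_sub, map_smul, inner_sub_right, inner_smul_right, smul_sub]
      ring
    have e2 : (inner ℂ (R.f1 l) (C.A R.v - (C.len : ℂ) • R.v) : ℂ)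
        = -(Complex.I * l) * inner ℂ R.wx (C.A R.v - (C.len : ℂ) • R.v)
      - inner ℂ R.p (C.A R.v - (C.len : ℂ) • R.v) := by
      simp only [f1, inner_sub_left, inner_smul_left, map_mul, Complex.conj_I,
        Complex.conj_ofReal]
      ring
    rw [e1, e2]
    simp only [Complex.sub_re, neg_mul, Complex.neg_re]
    ring
  have h7 := C.re_inner_B R.Dv
  have h8 : (inner ℂ R.p (C.A R.v - (C.len : ℂ) • R.v) : ℂ).re
      = (inner ℂ R.v (C.A R.p - (C.len : ℂ) • R.p) : ℂ).re := by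
    rw [← B_symm]; exact re_symm _ _
  rw [h8] at h6
  linear_combination hB + 2 * hz + 2 * h1 - 2 * h4 + 2 * ρ * h5 - 2 * ρ * h6 + ρ * h7

end Reg

end Pool.Agent.Lib.MP_542e45_an
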