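import Mathlib

/-! Bookkeeping for homogeneous smallness arguments. -/

namespace Pool.Agent.Lib.MP_542e45_an

section
variable {T : Type*} (F N : T → ℝ)

/-- `X` is small compared with `N ^ k` when `F` is small compared with `N` -/
def Sm (k : ℕ) (X : T → ℝ) : Prop :=
  ∀ ε > 0, ∃ δ > 0, ∀ t, F t ≤ δ * N t → |X t| ≤ ε * N t ^ k

/-- `X` is bounded by a multiple of `N ^ k` when `F` is small compared with `N` -/
def Bd (k : ℕ) (X : T → ℝ) : Prop :=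
  ∃ K > 0, ∃ δ > 0, ∀ t, F t ≤ δ * N t → |X t| ≤ K * N t ^ k

variable {F N}
variable (hN : ∀ t, 0 ≤ N t)

include hN

lemma F_le_of {δ δ' : ℝ} (h : δ ≤ δ') {t : T} (ht : F t ≤ δ * N t) : F t ≤ δ' * N t :=
  ht.trans (mul_le_mul_of_nonneg_right h (hN t))

lemma Sm.add {k : ℕ} {X Y : T → ℝ} (hX : Sm F N k X) (hY : Sm F N k Y) :
    Sm F N k (fun t => X t + Y t) := by
  intro ε hε
  obtain ⟨δ1, h1, H1⟩ := hX (ε / 2) (by positivity)
  obtain ⟨δ2, h2, H2⟩ := hY (ε / 2) (by positivity)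
  refine ⟨min δ1 δ2, lt_min h1 h2, fun t ht => ?_⟩
  have a1 := H1 t (F_le_of hN (min_le_left _ _) ht)
  have a2 := H2 t (F_le_of hN (min_le_right _ _) ht)
  calc |X t + Y t| ≤ |X t| + |Y t| := abs_add_le _ _
    _ ≤ ε / 2 * N t ^ k + ε / 2 * N t ^ k := add_le_add a1 a2
    _ = _ := by ring

lemma Bd.add {k : ℕ} {X Y : T → ℝ} (hX : Bd F N k X) (hY : Bd F N k Y) :
    Bd F N k (fun t => X t + Y t) := by
  obtain ⟨K1, k1, δ1, h1, H1⟩ := hX
  obtain ⟨K2, k2, δ2, h2, H2⟩ := hY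
  refine ⟨K1 + K2, by positivity, min δ1 δ2, lt_min h1 h2, fun t ht => ?_⟩
  have a1 := H1 t (F_le_of hN (min_le_left _ _) ht)
  have a2 := H2 t (F_le_of hN (min_le_right _ _) ht)
  calc |X t + Y t| ≤ |X t| + |Y t| := abs_add_le _ _
    _ ≤ K1 * N t ^ k + K2 * N t ^ k := add_le_add a1 a2
    _ = _ := by ring

omit hN in
lemma Sm.const_mul {k : ℕ} {X : T → ℝ} (c : ℝ) (hX : Sm F N k X) :
    Sm F N k (fun t => c * X t) := by
  intro ε hε
  obtain ⟨δ1, h1, H1⟩ := hX (ε / (|c| + 1)) (by positivity)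
  refine ⟨δ1, h1, fun t ht => ?_⟩
  have a1 := H1 t ht
  have h0 : 0 ≤ ε / (|c| + 1) * N t ^ k := (abs_nonneg _).trans a1
  rw [abs_mul]
  calc |c| * |X t| ≤ (|c| + 1) * (ε / (|c| + 1) * N t ^ k) := by
        apply mul_le_mul _ a1 (abs_nonneg _) (by positivity)
        linarith
    _ = _ := by field_simp

omit hN in
lemma Bd.const_mul {k : ℕ} {X : T → ℝ} (c : ℝ) (hX : Bd F N k X) :
    Bd F N k (fun t => c * X t) := by
  obtain ⟨K1, k1, δ1, h1, H1⟩ := hX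
  refine ⟨(|c| + 1) * K1, by positivity, δ1, h1, fun t ht => ?_⟩
  have a1 := H1 t ht
  rw [abs_mul]
  calc |c| * |X t| ≤ (|c| + 1) * (K1 * N t ^ k) := by
        apply mul_le_mul _ a1 (abs_nonneg _) (by positivity)
        linarith
    _ = _ := by ring

lemma Sm.mul {j k : ℕ} {X Y : T → ℝ} (hX : Sm F N j X) (hY : Bd F N k Y) :
    Sm F N (j + k) (fun t => X t * Y t) := by
  intro ε hε
  obtain ⟨K, hK, δ2, h2, H2⟩ := hY
  obtain ⟨δ1, h1, H1⟩ := hX (ε / K) (by positivity)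
  refine ⟨min δ1 δ2, lt_min h1 h2, fun t ht => ?_⟩
  have a1 := H1 t (F_le_of hN (min_le_left _ _) ht)
  have a2 := H2 t (F_le_of hN (min_le_right _ _) ht)
  rw [abs_mul]
  calc |X t| * |Y t| ≤ (ε / K * N t ^ j) * (K * N t ^ k) :=
        mul_le_mul a1 a2 (abs_nonneg _) ((abs_nonneg _).trans a1)
    _ = _ := by rw [pow_add]; field_simp

lemma Bd.mul_sm {j k : ℕ} {X Y : T → ℝ} (hX : Bd F N j X) (hY : Sm F N k Y) :
    Sm F N (j + k) (fun t => X t * Y t) := by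
  have := Sm.mul hN hY hX
  rw [add_comm] at this
  simpa only [mul_comm] using this

lemma Bd.mul {j k : ℕ} {X Y : T → ℝ} (hX : Bd F N j X) (hY : Bd F N k Y) :
    Bd F N (j + k) (fun t => X t * Y t) := by
  obtain ⟨K1, k1, δ1, h1, H1⟩ := hX
  obtain ⟨K2, k2, δ2, h2, H2⟩ := hY
  refine ⟨K1 * K2, by positivity, min δ1 δ2, lt_min h1 h2, fun t ht => ?_⟩
  have a1 := H1 t (F_le_of hN (min_le_left _ _) ht)
  have a2 := H2 t (F_le_of hN (min_le_right _ _) ht)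
  rw [abs_mul]
  calc |X t| * |Y t| ≤ (K1 * N t ^ j) * (K2 * N t ^ k) :=
        mul_le_mul a1 a2 (abs_nonneg _) ((abs_nonneg _).trans a1)
    _ = _ := by rw [pow_add]; ring

omit hN in
lemma Sm.mono {k : ℕ} {X Y : T → ℝ} (hY : Sm F N k Y) (h : ∀ t, |X t| ≤ Y t) : Sm F N k X := by
  intro ε hε
  obtain ⟨δ1, h1, H1⟩ := hY ε hε
  exact ⟨δ1, h1, fun t ht => (h t).trans ((le_abs_self _).trans (H1 t ht))⟩

omit hN in
lemma Bd.mono {k : ℕ} {X Y : T → ℝ} (hY : Bd F N k Y) (h : ∀ t, |X t| ≤ Y t) : Bd F N k X := by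
  obtain ⟨K1, k1, δ1, h1, H1⟩ := hY
  exact ⟨K1, k1, δ1, h1, fun t ht => (h t).trans ((le_abs_self _).trans (H1 t ht))⟩

omit hN in
lemma Sm.bd {k : ℕ} {X : T → ℝ} (hX : Sm F N k X) : Bd F N k X := by
  obtain ⟨δ1, h1, H1⟩ := hX 1 one_pos
  exact ⟨1, one_pos, δ1, h1, H1⟩

/-- square roots -/
lemma Sm.of_sq {k : ℕ} {X W : T → ℝ} (hW : Sm F N (k + k) W) (h : ∀ t, X t ^ 2 ≤ W t) :
    Sm F N k X := by
  intro ε hε
  obtain ⟨δ1, h1, H1⟩ := hW (ε ^ 2) (by positivity)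
  refine ⟨δ1, h1, fun t ht => ?_⟩
  have a1 := H1 t ht
  have hn := hN t
  apply abs_le_of_sq_le_sq _ (by positivity)
  calc X t ^ 2 ≤ W t := h t
    _ ≤ ε ^ 2 * N t ^ (k + k) := (le_abs_self _).trans a1
    _ = _ := by rw [pow_add]; ring

lemma Bd.of_sq {k : ℕ} {X W : T → ℝ} (hW : Bd F N (k + k) W) (h : ∀ t, X t ^ 2 ≤ W t) :
    Bd F N k X := by
  obtain ⟨K1, k1, δ1, h1, H1⟩ := hW
  refine ⟨K1 + 1, by positivity, δ1, h1, fun t ht => ?_⟩
  have a1 := H1 t ht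
  have hn := hN t
  apply abs_le_of_sq_le_sq _ (by positivity)
  have : 0 ≤ N t ^ k * N t ^ k := by positivity
  calc X t ^ 2 ≤ W t := h t
    _ ≤ K1 * N t ^ (k + k) := (le_abs_self _).trans a1
    _ = K1 * (N t ^ k * N t ^ k) := by rw [pow_add]
    _ ≤ (K1 + 1) ^ 2 * (N t ^ k * N t ^ k) := by
        apply mul_le_mul_of_nonneg_right _ this
        nlinarith
    _ = _ := by ring

omit hN in
lemma Sm.neg {k : ℕ} {X : T → ℝ} (hX : Sm F N k X) : Sm F N k (fun t => - X t) := by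
  have := hX.const_mul (-1)
  simpa using this

lemma Sm.sub {k : ℕ} {X Y : T → ℝ} (hX : Sm F N k X) (hY : Sm F N k Y) :
    Sm F N k (fun t => X t - Y t) := by
  have := hX.add hN hY.neg
  simpa [sub_eq_add_neg] using this

omit hN in
lemma Bd.neg {k : ℕ} {X : T → ℝ} (hX : Bd F N k X) : Bd F N k (fun t => - X t) := by
  have := hX.const_mul (-1)
  simpa using this

lemma Bd.sub {k : ℕ} {X Y : T → ℝ} (hX : Bd F N k X) (hY : Bd F N k Y) :
    Bd F N k (fun t => X t - Y t) := by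
  have := hX.add hN hY.neg
  simpa [sub_eq_add_neg] using this

lemma bd_self : Bd F N 1 N :=
  ⟨1, one_pos, 1, one_pos, fun t _ => by rw [abs_of_nonneg (hN t)]; simp⟩

omit hN in
lemma sm_self (hF : ∀ t, 0 ≤ F t) : Sm F N 1 F := fun ε hε =>
  ⟨ε, hε, fun t ht => by rw [abs_of_nonneg (hF t)]; simpa using ht⟩

/-- square roots, with a constant factor -/
lemma Sm.of_mul_sq {k : ℕ} {X W : T → ℝ} {c : ℝ} (hc : 0 < c) (hW : Sm F N (k + k) W)
    (h : ∀ t, c * X t ^ 2 ≤ W t) : Sm F N k X :=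
  Sm.of_sq hN (hW.const_mul (1 / c)) (fun t => by
    have := h t
    rw [one_div, ← div_eq_inv_mul, le_div_iff₀ hc]; linarith)

lemma Bd.of_mul_sq {k : ℕ} {X W : T → ℝ} {c : ℝ} (hc : 0 < c) (hW : Bd F N (k + k) W)
    (h : ∀ t, c * X t ^ 2 ≤ W t) : Bd F N k X :=
  Bd.of_sq hN (hW.const_mul (1 / c)) (fun t => by
    have := h t
    rw [one_div, ← div_eq_inv_mul, le_div_iff₀ hc]; linarith)

end

section
variable {T : Type*} {F N : T → ℝ} (hN : ∀ t, 0 ≤ N t)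
variable {H : Type*} [NormedAddCommGroup H] [InnerProductSpace ℂ H]

include hN

omit hN in
lemma abs_re_inner_le' (f g : H) : |(inner ℂ f g : ℂ).re| ≤ ‖f‖ * ‖g‖ :=
  (Complex.abs_re_le_norm _).trans (norm_inner_le_norm _ _)

lemma sm_inner_r {x y : T → H} (hx : Bd F N 1 (fun t => ‖x t‖)) (hy : Sm F N 1 (fun t => ‖y t‖)) :
    Sm F N (1 + 1) (fun t => (inner ℂ (x t) (y t) : ℂ).re) :=
  (hx.mul_sm hN hy).mono (fun _ => abs_re_inner_le' _ _)

lemma sm_inner_l {x y : T → H} (hx : Sm F N 1 (fun t => ‖x t‖)) (hy : Bd F N 1 (fun t => ‖y t‖)) :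
    Sm F N (1 + 1) (fun t => (inner ℂ (x t) (y t) : ℂ).re) :=
  (hx.mul hN hy).mono (fun _ => abs_re_inner_le' _ _)

lemma bd_inner {x y : T → H} (hx : Bd F N 1 (fun t => ‖x t‖)) (hy : Bd F N 1 (fun t => ‖y t‖)) :
    Bd F N (1 + 1) (fun t => (inner ℂ (x t) (y t) : ℂ).re) :=
  (hx.mul hN hy).mono (fun _ => abs_re_inner_le' _ _)

open scoped ComplexConjugate in
omit hN in
lemma abs_re_conj_mul_le (a b : ℂ) : |(conj a * b).re| ≤ ‖a‖ * ‖b‖ := by
  refine (Complex.abs_re_le_norm _).trans ?_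
  rw [norm_mul, RCLike.norm_conj]

open scoped ComplexConjugate in
lemma sm_conj_mul_l {a b : T → ℂ} (ha : Sm F N 1 (fun t => ‖a t‖)) (hb : Bd F N 1 (fun t => ‖b t‖)) :
    Sm F N (1 + 1) (fun t => (conj (a t) * b t).re) :=
  (ha.mul hN hb).mono (fun _ => abs_re_conj_mul_le _ _)

open scoped ComplexConjugate in
lemma sm_conj_mul_r {a b : T → ℂ} (ha : Bd F N 1 (fun t => ‖a t‖)) (hb : Sm F N 1 (fun t => ‖b t‖)) :
    Sm F N (1 + 1) (fun t => (conj (a t) * b t).re) :=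
  (ha.mul_sm hN hb).mono (fun _ => abs_re_conj_mul_le _ _)

lemma Sm.sq {X : T → ℝ} (hX : Sm F N 1 X) : Sm F N (1 + 1) (fun t => X t ^ 2) := by
  have := hX.mul hN hX.bd
  simpa [_root_.sq] using this

lemma Bd.sq {X : T → ℝ} (hX : Bd F N 1 X) : Bd F N (1 + 1) (fun t => X t ^ 2) := by
  have := hX.mul hN hX
  simpa [_root_.sq] using this

end

end Pool.Agent.Lib.MP_542e45_an
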