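import Pool.Agent.Lib.MP_542e45_an.Heat
import Pool.Agent.Lib.MP_542e45_an.Small
import Pool.Agent.Lib.MP_542e45_an.Defs

/-! Static data for the coupled system and the energy space in abstract form. -/

open scoped ComplexConjugate

namespace Pool.Agent.Lib.MP_542e45_an

open Calc

variable {H1 : Type*} [NormedAddCommGroup H1] [InnerProductSpace ℂ H1]
  {H2 : Type*} [NormedAddCommGroup H2] [InnerProductSpace ℂ H2]

/-- The abstract energy space. -/
abbrev EE (H1 H2 : Type*) [NormedAddCommGroup H1] [InnerProductSpace ℂ H1]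
    [NormedAddCommGroup H2] [InnerProductSpace ℂ H2] : Type _ :=
  WithLp 2 (PiLp 2 (fun _ : Fin 4 => H1) × PiLp 2 (fun _ : Fin 3 => H2))

/-- weights of the energy in region 1 -/
noncomputable def w1 (P : Params) : Fin 4 → ℝ := ![P.ρ1, P.α1, P.β1, P.ρ0]
/-- weights of the energy in region 2 -/
noncomputable def w2 (P : Params) : Fin 3 → ℝ := ![P.ρ2, P.α2, P.β2]

/-- vector of the energy space with components `(v, p, q, θ)` and `(v', p', q')` -/
noncomputable def vec (P : Params) (x : Fin 4 → H1) (y : Fin 3 → H2) : EE H1 H2 :=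
  WithLp.toLp 2 (WithLp.toLp 2 (fun i => ((Real.sqrt (w1 P i) : ℝ) : ℂ) • x i),
    WithLp.toLp 2 (fun i => ((Real.sqrt (w2 P i) : ℝ) : ℂ) • y i))

lemma w1_pos (P : Params) (i : Fin 4) : 0 < w1 P i := by
  fin_cases i
  · exact P.ρ1_pos
  · exact P.α1_pos
  · exact P.β1_pos
  · exact P.ρ0_pos

lemma w2_pos (P : Params) (i : Fin 3) : 0 < w2 P i := by
  fin_cases i
  · exact P.ρ2_pos
  · exact P.α2_pos
  · exact P.β2_pos

lemma inner_vec (P : Params) (x x' : Fin 4 → H1) (y y' : Fin 3 → H2) :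
    inner ℂ (vec P x y) (vec P x' y')
      = ∑ i, (w1 P i : ℂ) * inner ℂ (x i) (x' i) + ∑ i, (w2 P i : ℂ) * inner ℂ (y i) (y' i) := by
  rw [WithLp.prod_inner_apply, PiLp.inner_apply, PiLp.inner_apply]
  congr 1
  · refine Finset.sum_congr rfl fun i _ => ?_
    simp only [vec]
    rw [inner_smul_left, inner_smul_right, Complex.conj_ofReal, ← mul_assoc,
      ← Complex.ofReal_mul, Real.mul_self_sqrt (w1_pos P i).le]
  · refine Finset.sum_congr rfl fun i _ => ?_
    simp only [vec]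
    rw [inner_smul_left, inner_smul_right, Complex.conj_ofReal, ← mul_assoc,
      ← Complex.ofReal_mul, Real.mul_self_sqrt (w2_pos P i).le]

lemma norm_vec_sq (P : Params) (x : Fin 4 → H1) (y : Fin 3 → H2) :
    ‖vec P x y‖ ^ 2 = ∑ i, w1 P i * ‖x i‖ ^ 2 + ∑ i, w2 P i * ‖y i‖ ^ 2 := by
  have h := inner_vec P x x y y
  simp only [inner_self_c] at h
  have : ((‖vec P x y‖ ^ 2 : ℝ) : ℂ)
      = ((∑ i, w1 P i * ‖x i‖ ^ 2 + ∑ i, w2 P i * ‖y i‖ ^ 2 : ℝ) : ℂ) := by
    rw [h]; push_cast; rfl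
  exact_mod_cast this

lemma vec_add (P : Params) (x x' : Fin 4 → H1) (y y' : Fin 3 → H2) :
    vec P x y + vec P x' y' = vec P (x + x') (y + y') := by
  simp only [vec, Pi.add_apply, smul_add]
  rfl

lemma vec_smul (P : Params) (c : ℂ) (x : Fin 4 → H1) (y : Fin 3 → H2) :
    c • vec P x y = vec P (c • x) (c • y) := by
  have h1 : (fun i => ((Real.sqrt (w1 P i) : ℝ) : ℂ) • (c • x) i)
      = c • (fun i => ((Real.sqrt (w1 P i) : ℝ) : ℂ) • x i) := by
    funext i; simp only [Pi.smul_apply]; rw [smul_comm]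
  have h2 : (fun i => ((Real.sqrt (w2 P i) : ℝ) : ℂ) • (c • y) i)
      = c • (fun i => ((Real.sqrt (w2 P i) : ℝ) : ℂ) • y i) := by
    funext i; simp only [Pi.smul_apply]; rw [smul_comm]
  unfold vec
  rw [h1, h2]
  rfl

lemma vec_sub (P : Params) (x x' : Fin 4 → H1) (y y' : Fin 3 → H2) :
    vec P x y - vec P x' y' = vec P (x - x') (y - y') := by
  simp only [vec, Pi.sub_apply, smul_sub]
  rfl

end Pool.Agent.Lib.MP_542e45_an
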