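import Pool.Agent.Lib.MP_542e45_an.Flux

/-! The traces and the flux are bounded. -/

open scoped ComplexConjugate

namespace Pool.Agent.Lib.MP_542e45_an

open Calc

namespace Reg

variable {H : Type*} [NormedAddCommGroup H] [InnerProductSpace ℂ H] {C : Calc H}
  {ρ α β γ : ℝ} (R : Reg C ρ α β γ)

/-- the part of the right-trace identity without flux -/
noncomputable def WA (l : ℝ) : ℝ := (β * ‖R.q‖ ^ 2 + α * ‖R.p‖ ^ 2)
  - 2 * γ * (inner ℂ R.q (C.A R.θ1) : ℂ).re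
  - 2 * (α * (inner ℂ R.q (C.A (R.g1 l)) : ℂ).re + α * (inner ℂ R.p (C.A (R.f2 l)) : ℂ).re)

noncomputable def WB (l : ℝ) : ℝ := (β * ‖R.q‖ ^ 2 + α * ‖R.p‖ ^ 2)
  - 2 * γ * (inner ℂ R.q (C.A R.θ1 - (C.len : ℂ) • R.θ1) : ℂ).re
  - 2 * (α * (inner ℂ R.q (C.A (R.g1 l) - (C.len : ℂ) • R.g1 l) : ℂ).re
    + α * (inner ℂ R.p (C.A (R.f2 l) - (C.len : ℂ) • R.f2 l) : ℂ).re)

lemma trace_id_b (l : ℝ) : C.len * (β * ‖R.qb‖ ^ 2 + α * ‖R.pb‖ ^ 2)
    = R.WA l - 2 * (inner ℂ R.q (C.A R.S) : ℂ).re := by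
  have h1 := R.mult_A
  rw [R.freq_A l] at h1
  unfold WA
  linear_combination -h1

lemma trace_id_a (l : ℝ) : C.len * (β * ‖R.qa‖ ^ 2 + α * ‖R.pa‖ ^ 2)
    = R.WB l - 2 * (inner ℂ R.q (C.A R.S - (C.len : ℂ) • R.S) : ℂ).re := by
  have h1 := R.mult_B
  rw [R.freq_B l] at h1
  unfold WB
  linear_combination -h1

lemma qb_le (l : ℝ) (hα : 0 ≤ α) {s : ℝ} (hS : ‖R.S‖ ≤ s) :
    C.len * β * ‖R.qb‖ ^ 2 ≤ R.WA l + 2 * C.len * ‖R.q‖ * s := by
  have h := R.trace_id_b l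
  have h1 : -(inner ℂ R.q (C.A R.S) : ℂ).re ≤ ‖R.q‖ * (C.len * s) := by
    refine (neg_re_inner_le _ _).trans ?_
    have := C.A_norm R.S
    have hl := C.len_pos
    have : ‖C.A R.S‖ ≤ C.len * s := this.trans (by gcongr)
    gcongr
  have h2 : 0 ≤ C.len * (α * ‖R.pb‖ ^ 2) := by have := C.len_pos; positivity
  nlinarith

lemma qa_le (l : ℝ) (hα : 0 ≤ α) {s : ℝ} (hS : ‖R.S‖ ≤ s) :
    C.len * β * ‖R.qa‖ ^ 2 ≤ R.WB l + 2 * C.len * ‖R.q‖ * s := by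
  have h := R.trace_id_a l
  have h1 : -(inner ℂ R.q (C.A R.S - (C.len : ℂ) • R.S) : ℂ).re ≤ ‖R.q‖ * (C.len * s) := by
    refine (neg_re_inner_le _ _).trans ?_
    have := C.B_norm R.S
    have hl := C.len_pos
    have : ‖C.A R.S - (C.len : ℂ) • R.S‖ ≤ C.len * s := this.trans (by gcongr)
    gcongr
  have h2 : 0 ≤ C.len * (α * ‖R.pa‖ ^ 2) := by have := C.len_pos; positivity
  nlinarith

end Reg

variable {H1 : Type*} [NormedAddCommGroup H1] [InnerProductSpace ℂ H1]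
  {H2 : Type*} [NormedAddCommGroup H2] [InnerProductSpace ℂ H2]
  {C1 : Calc H1} {C2 : Calc H2} {P : Params}
  {T : Type*} (s : T → SD C1 C2 P) (lam : T → ℝ)

lemma bd_WA : Bd (FF s lam) (NN s) (1 + 1) (fun t => (s t).R.WA (lam t)) := by
  have hN := NN_nonneg s
  unfold Reg.WA
  refine Bd.sub hN (Bd.sub hN (Bd.add hN ?_ ?_) ?_) ?_
  · exact ((bd_q s lam).sq hN).const_mul _
  · exact ((bd_p s lam).sq hN).const_mul _
  · exact (sm_inner_r hN (bd_q s lam) (sm_A C1 (sm_θ1 s lam))).bd.const_mul (2 * P.γ)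
  · refine Bd.const_mul _ (Bd.add hN ?_ ?_)
    · exact (sm_inner_r hN (bd_q s lam) (sm_A C1 (sm_g1 s lam))).bd.const_mul _
    · exact (sm_inner_r hN (bd_p s lam) (sm_A C1 (sm_f2 s lam))).bd.const_mul _

lemma bd_WB : Bd (FF s lam) (NN s) (1 + 1) (fun t => (s t).R.WB (lam t)) := by
  have hN := NN_nonneg s
  unfold Reg.WB
  refine Bd.sub hN (Bd.sub hN (Bd.add hN ?_ ?_) ?_) ?_
  · exact ((bd_q s lam).sq hN).const_mul _
  · exact ((bd_p s lam).sq hN).const_mul _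
  · exact (sm_inner_r hN (bd_q s lam) (sm_B C1 (sm_θ1 s lam))).bd.const_mul (2 * P.γ)
  · refine Bd.const_mul _ (Bd.add hN ?_ ?_)
    · exact (sm_inner_r hN (bd_q s lam) (sm_B C1 (sm_g1 s lam))).bd.const_mul _
    · exact (sm_inner_r hN (bd_p s lam) (sm_B C1 (sm_f2 s lam))).bd.const_mul _

lemma bd_zero {F N : T → ℝ} {k : ℕ} (hN : ∀ t, 0 ≤ N t) : Bd F N k (fun _ => (0 : ℝ)) :=
  ⟨1, one_pos, 1, one_pos, fun t _ => by
    have := hN t
    simp only [abs_zero, one_mul]; positivity⟩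

lemma bd_QWA : Bd (FF s lam) (NN s) (1 + 1) (fun t => (s t).Q.WA (lam t)) := by
  have hN := NN_nonneg s
  unfold Reg.WA
  refine Bd.sub hN (Bd.sub hN (Bd.add hN ?_ ?_) ?_) ?_
  · exact ((bd_Qq s lam).sq hN).const_mul _
  · exact ((bd_Qp s lam).sq hN).const_mul _
  · simp only [mul_zero, zero_mul]
    exact bd_zero hN
  · refine Bd.const_mul _ (Bd.add hN ?_ ?_)
    · exact (sm_inner_r hN (bd_Qq s lam) (sm_A C2 (sm_Qg1 s lam))).bd.const_mul _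
    · exact (sm_inner_r hN (bd_Qp s lam) (sm_A C2 (sm_Qf2 s lam))).bd.const_mul _

lemma bd_st : Bd (FF s lam) (NN s) 1 (fun t => (s t).st) := by
  have hN := NN_nonneg s
  unfold SD.st
  apply Bd.add hN
  · refine (Bd.add hN ((bd_q s lam).const_mul P.β1) ((sm_θ s lam).bd.const_mul |P.γ|)).mono fun t => ?_
    rw [abs_norm, Reg.σ]
    refine (norm_add_le _ _).trans ?_
    rw [norm_smul, norm_smul, Complex.norm_real, Complex.norm_real, Real.norm_of_nonneg P.β1_pos.le,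
      Real.norm_eq_abs]
  · refine ((bd_Qq s lam).const_mul P.β2).mono fun t => ?_
    rw [abs_norm, Reg.σ]
    rw [Complex.ofReal_zero, zero_smul, add_zero, norm_smul, Complex.norm_real,
      Real.norm_of_nonneg P.β2_pos.le]

/-- the flux and the acceleration are bounded in `L²` -/
lemma bd_sz : Bd (FF s lam) (NN s) 1 (fun t => (s t).sz) := by
  have hN := NN_nonneg s
  obtain ⟨K, hK, hsz⟩ := SD.sz_bound C1 C2 P
  have hl1 := C1.len_pos; have hl2 := C2.len_pos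
  have hβ1 := P.β1_pos; have hβ2 := P.β2_pos
  -- constants
  set c1 : ℝ := C1.len * P.β1 with hc1
  set c2 : ℝ := C2.len * P.β2 with hc2
  have hc1p : 0 < c1 := by positivity
  have hc2p : 0 < c2 := by positivity
  set W : T → ℝ := fun t => 3 * (1 / c1 * (s t).R.WB (lam t) + 1 / c1 * (s t).R.WA (lam t)
    + 1 / c2 * (s t).Q.WA (lam t)) with hW
  set b : T → ℝ := fun t => 3 * (4 * C1.len / c1 * ‖(s t).R.q‖ + 2 * C2.len / c2 * ‖(s t).Q.q‖)
    with hb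
  have hWbd : Bd (FF s lam) (NN s) (1 + 1) W := by
    refine Bd.const_mul _ (Bd.add hN (Bd.add hN ?_ ?_) ?_)
    · exact (bd_WB s lam).const_mul _
    · exact (bd_WA s lam).const_mul _
    · exact (bd_QWA s lam).const_mul _
  have hbbd : Bd (FF s lam) (NN s) 1 b := by
    refine Bd.const_mul _ (Bd.add hN ?_ ?_)
    · exact (bd_q s lam).const_mul _
    · exact (bd_Qq s lam).const_mul _
  have htr : ∀ t, (s t).tr ^ 2 ≤ W t + b t * (s t).sz := by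
    intro t
    have h1 := (s t).R.qa_le (lam t) P.α1_pos.le (s t).RS_le
    have h2 := (s t).R.qb_le (lam t) P.α1_pos.le (s t).RS_le
    have h3 := (s t).Q.qb_le (lam t) P.α2_pos.le (s t).QS_le
    have e1 : ‖(s t).R.qa‖ ^ 2 ≤ 1 / c1 * (s t).R.WB (lam t)
        + 2 * C1.len / c1 * ‖(s t).R.q‖ * (s t).sz := by
      have : ‖(s t).R.qa‖ ^ 2 = (C1.len * P.β1 * ‖(s t).R.qa‖ ^ 2) / c1 := by
        rw [hc1]; field_simp
      rw [this, div_le_iff₀ hc1p]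
      refine h1.trans (le_of_eq ?_)
      field_simp
    have e2 : ‖(s t).R.qb‖ ^ 2 ≤ 1 / c1 * (s t).R.WA (lam t)
        + 2 * C1.len / c1 * ‖(s t).R.q‖ * (s t).sz := by
      have : ‖(s t).R.qb‖ ^ 2 = (C1.len * P.β1 * ‖(s t).R.qb‖ ^ 2) / c1 := by
        rw [hc1]; field_simp
      rw [this, div_le_iff₀ hc1p]
      refine h2.trans (le_of_eq ?_)
      field_simp
    have e3 : ‖(s t).Q.qb‖ ^ 2 ≤ 1 / c2 * (s t).Q.WA (lam t)
        + 2 * C2.len / c2 * ‖(s t).Q.q‖ * (s t).sz := by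
      have : ‖(s t).Q.qb‖ ^ 2 = (C2.len * P.β2 * ‖(s t).Q.qb‖ ^ 2) / c2 := by
        rw [hc2]; field_simp
      rw [this, div_le_iff₀ hc2p]
      refine h3.trans (le_of_eq ?_)
      field_simp
    have e4 : (s t).tr ^ 2 ≤ 3 * (‖(s t).R.qa‖ ^ 2 + ‖(s t).R.qb‖ ^ 2 + ‖(s t).Q.qb‖ ^ 2) := by
      unfold SD.tr
      nlinarith [sq_nonneg (‖(s t).R.qa‖ - ‖(s t).R.qb‖), sq_nonneg (‖(s t).R.qa‖ - ‖(s t).Q.qb‖),
        sq_nonneg (‖(s t).R.qb‖ - ‖(s t).Q.qb‖)]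
    refine e4.trans ?_
    rw [hW, hb]
    simp only
    have e5 : 4 * C1.len / c1 * ‖(s t).R.q‖ * (s t).sz
      = 2 * (2 * C1.len / c1 * ‖(s t).R.q‖ * (s t).sz) := by ring
    nlinarith
  refine Bd.of_sq hN (W := fun t => 4 * K ^ 2 * W t + 4 * K ^ 2 * (s t).st ^ 2
    + 4 * K ^ 4 * b t ^ 2) ?_ ?_
  · refine Bd.add hN (Bd.add hN ?_ ?_) ?_
    · exact hWbd.const_mul _
    · exact ((bd_st s lam).sq hN).const_mul _
    · exact (hbbd.sq hN).const_mul _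
  · intro t
    have h1 := hsz (s t)
    have h2 := htr t
    have h3 := (s t).sz_nonneg
    have htr0 : 0 ≤ (s t).tr := by unfold SD.tr; positivity
    have hst0 : 0 ≤ (s t).st := by unfold SD.st; positivity
    have h4 : (s t).sz ^ 2 ≤ 2 * K ^ 2 * ((s t).tr ^ 2 + (s t).st ^ 2) := by
      calc (s t).sz ^ 2 ≤ (K * ((s t).tr + (s t).st)) ^ 2 := by gcongr
        _ ≤ _ := by nlinarith [sq_nonneg (K * ((s t).tr - (s t).st))]
    have h5 : 2 * K ^ 2 * (b t * (s t).sz) ≤ 1 / 2 * (s t).sz ^ 2 + 2 * K ^ 4 * b t ^ 2 := by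
      nlinarith [sq_nonneg ((s t).sz - 2 * K ^ 2 * b t)]
    nlinarith [mul_le_mul_of_nonneg_left h2 (by positivity : 0 ≤ 2 * K ^ 2)]

end Pool.Agent.Lib.MP_542e45_an
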